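import Pool.Agent.Helper877_Smith.Main

/-!
# Good binary trees, built from the root and from the leaves (seat helper877, MP_ebc12b_co)
-/

set_option autoImplicit false

namespace Pool.Agent.Helper877_Smith

/-- The good binary tree `G_d` with `d` leaves: `G_2 = F_1`; for `2 ^ k < d ≤ 2 ^ (k + 1)` with
`k ≥ 1` the root of `G_d` has child subtrees `F_{k-1}` and `G_{d - 2 ^ (k-1)}` if
`d ≤ 3 * 2 ^ (k-1)`, and `F_k` and `G_{d - 2 ^ k}` otherwise. -/
def good (d : ℕ) : Sh :=
  if d ≤ 1 then Sh.leaf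
  else if d = 2 then Sh.full 1
  else if d ≤ 3 * 2 ^ (Nat.log 2 (d - 1) - 1) then
    Sh.node (Sh.full (Nat.log 2 (d - 1) - 1)) (good (d - 2 ^ (Nat.log 2 (d - 1) - 1)))
  else Sh.node (Sh.full (Nat.log 2 (d - 1))) (good (d - 2 ^ Nat.log 2 (d - 1)))
termination_by d
decreasing_by
  · have : 0 < 2 ^ (Nat.log 2 (d - 1) - 1) := by positivity
    omega
  · have : 0 < 2 ^ (Nat.log 2 (d - 1)) := by positivity
    omega

/-- The tree obtained from a rooted binary tree by deleting the root and joining its two children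
by an edge, as a pair of rooted trees. -/
def Tgood (d : ℕ) : Sh × Sh := unroot (good d)

/-- full binary tree with blocks at the leaves -/
def fl : ℕ → Sh → Sh
  | 0, Q => Q
  | h + 1, Q => Sh.node (fl h Q) (fl h Q)

theorem fl_node (h : ℕ) (Q : Sh) : fl h (Sh.node Q Q) = fl (h + 1) Q := by
  induction h with
  | zero => rfl
  | succ h ih =>
    show Sh.node (fl h (Sh.node Q Q)) (fl h (Sh.node Q Q)) = Sh.node (fl (h + 1) Q) (fl (h + 1) Q)
    rw [ih]

theorem fl_leaf (h : ℕ) : fl h Sh.leaf = Sh.full h := by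
  induction h with
  | zero => rfl
  | succ h ih =>
    show Sh.node _ _ = Sh.node _ _
    rw [ih]

theorem Gb_top (j : ℕ) : ∀ (m : ℕ) (Q S : Sh),
    (2 ^ (j + 1) < m → m ≤ 2 ^ (j + 2) →
      (m ≤ 3 * 2 ^ j → Gb m false Q S = Sh.node (fl j Q) (Gb (m - 2 ^ j) false Q S)) ∧
      (3 * 2 ^ j < m → Gb m false Q S = Sh.node (fl (j + 1) Q) (Gb (m - 2 ^ (j + 1)) false Q S))) ∧
    (2 ^ (j + 1) ≤ m → m < 2 ^ (j + 2) →
      (m < 3 * 2 ^ j → Gb m true Q S = Sh.node (fl j Q) (Gb (m - 2 ^ j) true Q S)) ∧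
      (3 * 2 ^ j ≤ m → Gb m true Q S =
        Sh.node (fl (j + 1) Q) (Gb (m - 2 ^ (j + 1)) true Q S))) := by
  induction j with
  | zero =>
    intro m Q S
    have e3f : Gb 3 false Q S = Sh.node Q (Sh.node Q S) := by
      rw [show (3 : ℕ) = 2 * 1 + 1 from rfl, Gb_odd_false le_rfl, Gb_one]
    have e3t : Gb 3 true Q S = Sh.node (Sh.node Q Q) S := by
      rw [show (3 : ℕ) = 2 * 1 + 1 from rfl, Gb_odd_true le_rfl, Gb_two]
    have e4f : Gb 4 false Q S = Sh.node (Sh.node Q Q) (Sh.node Q S) := by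
      rw [show (4 : ℕ) = 2 * 2 from rfl, Gb_even (by norm_num), Gb_two]
    refine ⟨fun h1 h2 => ⟨fun h3 => ?_, fun h3 => ?_⟩, fun h1 h2 => ⟨fun h3 => ?_, fun h3 => ?_⟩⟩
    · have : m = 3 := by norm_num at h1 h2 h3; omega
      subst this
      rw [e3f]
      show _ = Sh.node Q (Gb 2 false Q S)
      rw [Gb_two]
    · have : m = 4 := by norm_num at h1 h2 h3; omega
      subst this
      rw [e4f]
      show _ = Sh.node (Sh.node Q Q) (Gb 2 false Q S)
      rw [Gb_two]
    · have : m = 2 := by norm_num at h1 h2 h3; omega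
      subst this
      rw [Gb_two]
      show _ = Sh.node Q (Gb 1 true Q S)
      rw [Gb_one]
    · have : m = 3 := by norm_num at h1 h2 h3; omega
      subst this
      rw [e3t]
      show _ = Sh.node (Sh.node Q Q) (Gb 1 true Q S)
      rw [Gb_one]
  | succ j ih =>
    intro m Q S
    obtain ⟨p, hp⟩ : ∃ p, p = 2 ^ j := ⟨_, rfl⟩
    have hp0 : 0 < p := hp ▸ by positivity
    have p1 : 2 ^ (j + 1) = 2 * p := by rw [hp]; ring
    have p2 : 2 ^ (j + 2) = 4 * p := by rw [hp]; ring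
    have p3 : 2 ^ (j + 1 + 1) = 4 * p := p2
    have p4 : 2 ^ (j + 1 + 2) = 8 * p := by rw [hp]; ring
    simp only [← hp, p1, p2] at ih
    simp only [p1, p3, p4]
    rcases Nat.even_or_odd' m with ⟨n, rfl | rfl⟩
    · refine ⟨fun h1 h2 => ⟨fun h3 => ?_, fun h3 => ?_⟩, fun h1 h2 =>
        ⟨fun h3 => ?_, fun h3 => ?_⟩⟩
      · have h := ((ih n (Sh.node Q Q) (Sh.node Q S)).1 (by omega) (by omega)).1 (by omega)
        rw [Gb_even (by omega), h, fl_node, show 2 * n - 2 * p = 2 * (n - p) by omega,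
          Gb_even (by omega)]
      · have h := ((ih n (Sh.node Q Q) (Sh.node Q S)).1 (by omega) (by omega)).2 (by omega)
        rw [Gb_even (by omega), h, fl_node, show 2 * n - 4 * p = 2 * (n - 2 * p) by omega,
          Gb_even (by omega)]
      · have h := ((ih n (Sh.node Q Q) (Sh.node Q S)).2 (by omega) (by omega)).1 (by omega)
        rw [Gb_even (by omega), h, fl_node, show 2 * n - 2 * p = 2 * (n - p) by omega,
          Gb_even (by omega)]
      · have h := ((ih n (Sh.node Q Q) (Sh.node Q S)).2 (by omega) (by omega)).2 (by omega)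
        rw [Gb_even (by omega), h, fl_node, show 2 * n - 4 * p = 2 * (n - 2 * p) by omega,
          Gb_even (by omega)]
    · refine ⟨fun h1 h2 => ⟨fun h3 => ?_, fun h3 => ?_⟩, fun h1 h2 =>
        ⟨fun h3 => ?_, fun h3 => ?_⟩⟩
      · have h := ((ih n (Sh.node Q Q) (Sh.node Q (Sh.node Q S))).2 (by omega)
          (by omega)).1 (by omega)
        rw [Gb_odd_false (by omega), h, fl_node,
          show 2 * n + 1 - 2 * p = 2 * (n - p) + 1 by omega, Gb_odd_false (by omega)]
      · have h := ((ih n (Sh.node Q Q) (Sh.node Q (Sh.node Q S))).2 (by omega)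
          (by omega)).2 (by omega)
        rw [Gb_odd_false (by omega), h, fl_node,
          show 2 * n + 1 - 4 * p = 2 * (n - 2 * p) + 1 by omega, Gb_odd_false (by omega)]
      · have h := ((ih (n + 1) (Sh.node Q Q) S).1 (by omega) (by omega)).1 (by omega)
        rw [Gb_odd_true (by omega), h, fl_node,
          show 2 * n + 1 - 2 * p = 2 * (n - p) + 1 by omega, Gb_odd_true (by omega),
          show n - p + 1 = n + 1 - p by omega]
      · have h := ((ih (n + 1) (Sh.node Q Q) S).1 (by omega) (by omega)).2 (by omega)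
        rw [Gb_odd_true (by omega), h, fl_node,
          show 2 * n + 1 - 4 * p = 2 * (n - 2 * p) + 1 by omega, Gb_odd_true (by omega),
          show n - 2 * p + 1 = n + 1 - 2 * p by omega]

theorem good_eq (d : ℕ) : good d = Gb d false Sh.leaf Sh.leaf := by
  induction d using Nat.strong_induction_on with
  | _ d ih =>
  rw [good]
  split_ifs with h1 h2 h3
  · rw [Gb, if_pos h1]
  · rw [h2, Gb_two]
    rfl
  · obtain ⟨j, hj⟩ : ∃ j, Nat.log 2 (d - 1) = j + 1 := by
      have : 0 < Nat.log 2 (d - 1) := Nat.log_pos (by norm_num) (by omega)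
      exact ⟨Nat.log 2 (d - 1) - 1, by omega⟩
    have e1 : 2 ^ (j + 1) ≤ d - 1 := hj ▸ Nat.pow_log_le_self 2 (by omega)
    have e2 : d - 1 < 2 ^ (j + 2) := by
      have := Nat.lt_pow_succ_log_self (b := 2) (by norm_num) (d - 1)
      rw [hj] at this
      exact this
    rw [hj] at h3 ⊢
    simp only [Nat.add_sub_cancel] at h3 ⊢
    have hp : 0 < 2 ^ j := by positivity
    rw [((Gb_top j d Sh.leaf Sh.leaf).1 (by omega) (by omega)).1 h3, fl_leaf, ih _ (by omega)]
  · obtain ⟨j, hj⟩ : ∃ j, Nat.log 2 (d - 1) = j + 1 := by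
      have : 0 < Nat.log 2 (d - 1) := Nat.log_pos (by norm_num) (by omega)
      exact ⟨Nat.log 2 (d - 1) - 1, by omega⟩
    have e1 : 2 ^ (j + 1) ≤ d - 1 := hj ▸ Nat.pow_log_le_self 2 (by omega)
    have e2 : d - 1 < 2 ^ (j + 2) := by
      have := Nat.lt_pow_succ_log_self (b := 2) (by norm_num) (d - 1)
      rw [hj] at this
      exact this
    rw [hj] at h3 ⊢
    simp only [Nat.add_sub_cancel] at h3
    have hp : 0 < 2 ^ (j + 1) := by positivity
    rw [((Gb_top j d Sh.leaf Sh.leaf).1 (by omega) (by omega)).2 (by omega), fl_leaf,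
      ih _ (by omega)]

theorem Gb_double (k m : ℕ) (hm : 1 ≤ m) (Q : Sh) :
    Gb (m * 2 ^ k) false Q Q = Gb m false (fl k Q) (fl k Q) := by
  induction k generalizing Q with
  | zero => simp [fl]
  | succ k ih =>
    have e : m * 2 ^ (k + 1) = 2 * (m * 2 ^ k) := by ring
    have hpos : 1 ≤ m * 2 ^ k := Nat.mul_pos hm (by positivity)
    rw [e, Gb_even hpos, ih, fl_node]

theorem Tgood_two (k : ℕ) : Tgood (2 * 2 ^ k) = (Sh.full k, Sh.full k) := by
  unfold Tgood
  rw [good_eq, Gb_double k 2 (by norm_num), fl_leaf, Gb_two]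
  rfl

theorem Tgood_three (k : ℕ) :
    UIso (Tgood (3 * 2 ^ k)) (Sh.node (Sh.full k) (Sh.full k), Sh.full k) := by
  unfold Tgood
  rw [good_eq, Gb_double k 3 (by norm_num), fl_leaf, show (3 : ℕ) = 2 * 1 + 1 from rfl,
    Gb_odd_false le_rfl, Gb_one]
  exact UIso.swap _ _

theorem Tgood_five (k : ℕ) :
    UIso (Tgood (5 * 2 ^ k)) (Sh.node (Sh.full k) (Sh.full (k + 1)), Sh.full (k + 1)) := by
  unfold Tgood
  rw [good_eq, Gb_double k 5 (by norm_num), fl_leaf, show (5 : ℕ) = 2 * 2 + 1 from rfl,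
    Gb_odd_false (by norm_num), Gb_two]
  exact UIso.swap _ _

theorem Tgood_seven (k : ℕ) :
    UIso (Tgood (7 * 2 ^ k)) (Sh.node (Sh.full k) (Sh.full (k + 1)), Sh.full (k + 2)) := by
  unfold Tgood
  rw [good_eq, Gb_double k 7 (by norm_num), fl_leaf, show (7 : ℕ) = 2 * 3 + 1 from rfl,
    Gb_odd_false (by norm_num), show (3 : ℕ) = 2 * 1 + 1 from rfl, Gb_odd_true le_rfl, Gb_two]
  exact UIso.swap _ _

theorem Tgood_eleven (k : ℕ) :
    UIso (Tgood (11 * 2 ^ k)) (Sh.node (Sh.full k) (Sh.full (k + 1)), Sh.full (k + 3)) := by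
  unfold Tgood
  rw [good_eq, Gb_double k 11 (by norm_num), fl_leaf, show (11 : ℕ) = 2 * 5 + 1 from rfl,
    Gb_odd_false (by norm_num), show (5 : ℕ) = 2 * 2 + 1 from rfl, Gb_odd_true (by norm_num),
    show (2 + 1 : ℕ) = 2 * 1 + 1 from rfl, Gb_odd_false le_rfl, Gb_one]
  exact (UIso.move _ _ _).symm.trans (UIso.swap _ _)

end Pool.Agent.Helper877_Smith
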