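import Pool.Agent.Helper877_Smith.Dom
import Pool.Agent.Helper877_Smith.Good

/-!
# The spectral lower bound, for every number of terminals (seat helper877, MP_ebc12b_co)
-/

set_option autoImplicit false

namespace Pool.Agent.Helper877_Smith

open Matrix

/-- The sum of the square roots of the eigenvalues of the matrix of an unrooted tree, that is, the
trace of the positive semidefinite square root of this matrix. -/
noncomputable def specSum (T : Sh × Sh) : ℝ :=
  ∑ i, Real.sqrt ((MT_psd T.1 T.2).isHermitian.eigenvalues i)

theorem exists_sqrt' {J : Type} [Fintype J] [DecidableEq J] (M : Matrix J J ℝ)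
    (hM : M.PosSemidef) :
    ∃ (Y : Matrix J J ℝ), Yᵀ = Y ∧ Y * Y = M ∧
      Y.trace = ∑ j, Real.sqrt (hM.isHermitian.eigenvalues j) ∧
      ∀ t : ℝ, (t • (1 : Matrix J J ℝ) + M).det =
        ∏ j, (t + Real.sqrt (hM.isHermitian.eigenvalues j) ^ 2) := by
  have hH : M.IsHermitian := hM.isHermitian
  set U : Matrix J J ℝ := (hH.eigenvectorUnitary : Matrix J J ℝ) with hU
  have hU1 : star U * U = 1 := Unitary.coe_star_mul_self hH.eigenvectorUnitary
  have hU2 : U * star U = 1 := Unitary.coe_mul_star_self hH.eigenvectorUnitary
  have hMU : M = U * diagonal hH.eigenvalues * star U := by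
    have h := hH.spectral_theorem
    rw [Unitary.conjStarAlgAut_apply] at h
    exact h
  have hev : ∀ j, 0 ≤ hH.eigenvalues j := fun j => hM.eigenvalues_nonneg j
  refine ⟨U * diagonal (fun j => Real.sqrt (hH.eigenvalues j)) * star U, ?_, ?_, ?_, ?_⟩
  · have hs : star U = Uᵀ := by
      rw [star_eq_conjTranspose, conjTranspose_eq_transpose_of_trivial]
    rw [hs, transpose_mul, transpose_mul, transpose_transpose, diagonal_transpose,
      Matrix.mul_assoc]
  · calc U * diagonal (fun j => Real.sqrt (hH.eigenvalues j)) * star U *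
          (U * diagonal (fun j => Real.sqrt (hH.eigenvalues j)) * star U)
        = U * diagonal (fun j => Real.sqrt (hH.eigenvalues j)) * (star U * U) *
          diagonal (fun j => Real.sqrt (hH.eigenvalues j)) * star U := by
          simp only [Matrix.mul_assoc]
      _ = U * (diagonal (fun j => Real.sqrt (hH.eigenvalues j)) *
          diagonal (fun j => Real.sqrt (hH.eigenvalues j))) * star U := by
          rw [hU1, Matrix.mul_one, Matrix.mul_assoc U]
      _ = U * diagonal hH.eigenvalues * star U := by
          rw [diagonal_mul_diagonal]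
          congr 3
          funext j
          exact Real.mul_self_sqrt (hev j)
      _ = M := hMU.symm
  · rw [trace_mul_comm, ← Matrix.mul_assoc, hU1, Matrix.one_mul, trace_diagonal]
  · intro t
    have h1 : t • (1 : Matrix J J ℝ) + M =
        U * diagonal (fun j => t + Real.sqrt (hH.eigenvalues j) ^ 2) * star U := by
      have h2 : diagonal (fun j => t + Real.sqrt (hH.eigenvalues j) ^ 2) =
          t • (1 : Matrix J J ℝ) + diagonal hH.eigenvalues := by
        rw [← diagonal_one, ← diagonal_smul, diagonal_add]
        congr 1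
        funext j
        rw [Real.sq_sqrt (hev j)]
        simp
      rw [h2, Matrix.mul_add, Matrix.add_mul, ← hMU, Matrix.mul_smul, Matrix.smul_mul,
        Matrix.mul_one, hU2]
    rw [h1, det_mul, det_mul, mul_comm (det U), mul_assoc, ← det_mul, hU2, det_one, mul_one,
      det_diagonal]

/-- list of square roots of eigenvalues -/
noncomputable def specList (T : Sh × Sh) : List ℝ :=
  Finset.univ.toList.map (fun i => Real.sqrt ((MT_psd T.1 T.2).isHermitian.eigenvalues i))

theorem specList_sum (T : Sh × Sh) : (specList T).sum = specSum T := Finset.sum_map_toList _ _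

theorem specList_nonneg (T : Sh × Sh) : ∀ s ∈ specList T, 0 ≤ s := by
  intro a ha
  unfold specList at ha
  rw [List.mem_map] at ha
  obtain ⟨i, -, rfl⟩ := ha
  exact Real.sqrt_nonneg _

theorem specList_length (T : Sh × Sh) : (specList T).length = T.1.size + T.2.size := by
  unfold specList
  rw [List.length_map, Finset.length_toList, Finset.card_univ, Fintype.card_sum, card_Lf, card_Lf]

theorem specList_prod (T : Sh × Sh) {r : ℝ} (hr : 0 < r) :
    ((specList T).map (fun s => r ^ 2 + s ^ 2)).prod = ZZ (1 + r ^ 2, 1) T := by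
  obtain ⟨Y, -, -, -, hdet⟩ := exists_sqrt' (MT T.1 T.2) (MT_psd _ _)
  unfold specList
  rw [List.map_map]
  have h1 : (List.map ((fun s => r ^ 2 + s ^ 2) ∘
      (fun i => Real.sqrt ((MT_psd T.1 T.2).isHermitian.eigenvalues i)))
        Finset.univ.toList).prod =
      ∏ i, (r ^ 2 + Real.sqrt ((MT_psd T.1 T.2).isHermitian.eigenvalues i) ^ 2) :=
    Finset.prod_map_toList _ _
  rw [h1, ← hdet, det_MT (by positivity)]

/-- the spectral lower bound -/
theorem specSum_le {d : ℕ} (T : FST d) : specSum T.top ≤ T.length := by
  obtain ⟨Y, hYt, hYY, htr, -⟩ := exists_sqrt' (MT T.left.shape T.right.shape) (MT_psd _ _)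
  have hnd : (T.left.terms + T.right.terms).Nodup := by
    rw [T.once]
    exact Finset.univ.nodup
  rw [Multiset.nodup_add] at hnd
  have hinj : Function.Injective (Sum.elim (lab T.left) (lab T.right)) := by
    refine Function.Injective.sumElim (lab_inj _ hnd.1) (lab_inj _ hnd.2.1) fun i j h => ?_
    exact Multiset.disjoint_left.1 hnd.2.2 (lab_mem T.left i) (h ▸ lab_mem T.right j)
  have hon : Orthonormal ℝ (fun i => tm (Sum.elim (lab T.left) (lab T.right) i) :
      Lf T.left.shape ⊕ Lf T.right.shape → Sp d) := tm_orthonormal.comp _ hinj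
  have hd := dual_tree T.left T.right
    (fun i => ∑ j, Y i j • tm (Sum.elim (lab T.left) (lab T.right) j)) (by
      intro i j
      rw [hon.inner_sum]
      simp only [conj_trivial]
      rw [← hYY, Matrix.mul_apply]
      refine Finset.sum_congr rfl fun k _ => ?_
      rw [← hYt, Matrix.transpose_apply, Matrix.transpose_apply, hYt])
  have hsum : ∑ i, inner ℝ (∑ j, Y i j • tm (Sum.elim (lab T.left) (lab T.right) j))
      (tm (Sum.elim (lab T.left) (lab T.right) i) : Sp d) = specSum T.top := by
    have h1 : specSum T.top = Y.trace := htr.symm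
    rw [h1]
    refine Finset.sum_congr rfl fun i _ => ?_
    rw [hon.inner_left_fintype]
    simp
  rw [hsum] at hd
  exact hd

theorem size_good {d : ℕ} (hd : 2 ≤ d) : (Tgood d).1.size + (Tgood d).2.size = d := by
  -- the minimiser of the form has `d` leaves
  obtain ⟨T0, hT0, hmin⟩ := Set.exists_min_image _ (ZZ ((2 : ℝ), (1 : ℝ))) (finite_size d)
    (by
      have key : ∀ n : ℕ, 1 ≤ n → ∃ s : Sh, s.size = n := by
        intro n hn
        induction n with
        | zero => omega
        | succ n ih =>
          rcases Nat.eq_zero_or_pos n with rfl | hn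
          · exact ⟨Sh.leaf, rfl⟩
          · obtain ⟨s, hs⟩ := ih hn
            exact ⟨Sh.node Sh.leaf s, by simp only [Sh.size]; omega⟩
      obtain ⟨s, hs⟩ := key (d - 1) (by omega)
      exact ⟨(Sh.leaf, s), by show 1 + s.size = d; omega⟩)
  have hT0' : T0.1.size + T0.2.size = d := hT0
  have h0 : Opt ((2 : ℝ), (1 : ℝ)) T0 := fun T' hT' => hmin T' (hT'.trans hT0')
  have hg := opt_good (P := ((2 : ℝ), (1 : ℝ))) zero_lt_one (by norm_num) h0
  have h1 := hg.size
  rw [hT0'] at h1
  unfold Tgood
  rw [good_eq]
  exact h1.symm

/-- among all topologies the good tree has the smallest spectral bound -/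
theorem specSum_good {d : ℕ} (hd : 2 ≤ d) {T : Sh × Sh} (hT : T.1.size + T.2.size = d) :
    specSum (Tgood d) ≤ specSum T ∧ (specSum T = specSum (Tgood d) → UIso T (Tgood d)) := by
  have hl : (specList T).length = (specList (Tgood d)).length := by
    rw [specList_length, specList_length, hT, size_good hd]
  have hG : Tgood d = unroot (Gb d false Sh.leaf Sh.leaf) := by unfold Tgood; rw [good_eq]
  have hmin : ∀ r : ℝ, 0 < r → _ := fun r hr => dom (P := (1 + r ^ 2, 1)) zero_lt_one
    (by show (1 : ℝ) < 1 + r ^ 2; have := pow_pos hr 2; linarith) hT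
  rw [← hG] at hmin
  rw [← specList_sum, ← specList_sum]
  constructor
  · refine sum_le (specList_nonneg _) (specList_nonneg _) hl fun r hr => ?_
    rw [specList_prod _ hr, specList_prod _ hr]
    exact (hmin r hr).1
  · intro he
    by_contra hc
    have hlt : (specList (Tgood d)).sum < (specList T).sum := by
      refine sum_lt (specList_nonneg _) (specList_nonneg _) hl fun r hr => ?_
      rw [specList_prod _ hr, specList_prod _ hr]
      exact lt_of_le_of_ne (hmin r hr).1 fun heq => hc ((hmin r hr).2 heq.symm)
    linarith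

end Pool.Agent.Helper877_Smith
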