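import Pool.Agent.Helper877_Smith.Main

/-!
# Optimal trees are good binary trees: the induction (seat helper877, MP_ebc12b_co)
-/

set_option autoImplicit false

namespace Pool.Agent.Helper877_Smith

open Mk

/-- the condition on the two blocks -/
def cond (P : ℝ × ℝ) : Bool → Sh → Sh → Prop
  | true, Q, S => wt P Q < wt P S ∧ wt P S < cF (wt P Q) (wt P Q)
  | false, Q, S => wt P S < wt P Q ∧ wt P Q < cF (wt P Q) (wt P S)

section

variable {P : ℝ × ℝ} (hP : 0 < P.2) (hP' : P.2 < P.1)

include hP hP'

theorem wt_pos (s : Sh) : 0 < wt P s := zero_lt_one.trans (one_lt_wt hP hP' s)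

theorem lt_cF_self (Q : Sh) : wt P Q < cF (wt P Q) (wt P Q) := by
  rw [cF_self (wt_pos hP hP' Q)]
  linarith [one_lt_wt hP hP' Q]

theorem cond.even {b : Bool} {Q S : Sh} (h : cond P b Q S) :
    cond P b (Sh.node Q Q) (Sh.node Q S) := by
  have hq := wt_pos hP hP' Q
  have hs := wt_pos hP hP' S
  have h0 := lt_cF_self hP hP' Q
  cases b with
  | true =>
    obtain ⟨h1, h2⟩ := h
    refine ⟨?_, ?_⟩ <;> simp only [wt_node hP hP']
    · exact cF_lt' hq hq h1
    · exact cF_lt2 hq hs h0 h2
  | false =>
    obtain ⟨h1, h2⟩ := h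
    refine ⟨?_, ?_⟩ <;> simp only [wt_node hP hP']
    · exact cF_lt' hq hs h1
    · exact cF_lt2 hq hq h0 h2

theorem cond.odd_true {Q S : Sh} (h : cond P true Q S) :
    cond P false (Sh.node Q Q) S := by
  have hq := wt_pos hP hP' Q
  have h0 := lt_cF_self hP hP' Q
  obtain ⟨h1, h2⟩ := h
  refine ⟨?_, ?_⟩ <;> simp only [wt_node hP hP']
  · exact h2
  · exact cF_lt2 hq hq h0 h1

theorem cond.odd_false {Q S : Sh} (h : cond P false Q S) :
    cond P true (Sh.node Q Q) (Sh.node Q (Sh.node Q S)) := by
  have hq := wt_pos hP hP' Q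
  have hs := wt_pos hP hP' S
  have h0 := lt_cF_self hP hP' Q
  obtain ⟨h1, h2⟩ := h
  refine ⟨?_, ?_⟩ <;> simp only [wt_node hP hP']
  · exact cF_lt' hq hq h2
  · refine cF_lt2 hq (hq.trans h2) h0 (cF_lt' hq hs h1)

theorem cond.odd_eq (Q : Sh) :
    cond P true (Sh.node Q Q) (Sh.node Q (Sh.node Q Q)) := by
  have hq := wt_pos hP hP' Q
  have h0 := lt_cF_self hP hP' Q
  refine ⟨?_, ?_⟩ <;> simp only [wt_node hP hP']
  · exact cF_lt' hq hq h0
  · exact cF_lt hq (hq.trans h0) h0

theorem claimM (m : ℕ) : ∀ (b : Bool) (Q S : Sh) (A B : Mk), A.sz + B.sz = m →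
    A.mk + B.mk = 1 → Opt P (A.ex Q S, B.ex Q S) → cond P b Q S →
    UIso (A.ex Q S, B.ex Q S) (unroot (Gb m b Q S)) := by
  induction m using Nat.strong_induction_on with
  | _ m ih =>
  intro b Q S A B hsz hmk hopt hc
  have hw := wt_Wt hP hP' Q S
  have hSt := hopt.st hP hP'
  obtain ⟨w, hwdef⟩ : ∃ w : Mk → ℝ, w = fun C => wt P (C.ex Q S) := ⟨_, rfl⟩
  rw [← hwdef] at hw hSt
  have hwq : w (lf false) = wt P Q := by rw [hwdef]; rfl
  have hws : w (lf true) = wt P S := by rw [hwdef]; rfl
  have hA1 := A.sz_pos
  have hB1 := B.sz_pos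
  have hLN : LN w 1 := by
    cases b with
    | true =>
      refine hw.LN_true ?_ ?_
      · rw [hwq, hws]; exact hc.1
      · rw [hwq, hws]; exact hc.2
    | false =>
      refine hw.LN_false ?_ ?_
      · rw [hwq, hws]; exact hc.1
      · rw [hwq, hws]; exact hc.2
  rcases (by omega : m = 2 ∨ m = 3 ∨ 4 ≤ m) with rfl | rfl | h4
  · obtain ⟨a, a', rfl, rfl⟩ := small_two hsz
    rw [Gb_two]
    cases a <;> cases a' <;> simp [Mk.mk] at hmk
    · exact UIso.refl _
    · exact UIso.swap _ _
  · have hu := (small_three_marked hsz hmk).ex Q S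
    cases b with
    | true =>
      rw [show (3 : ℕ) = 2 * 1 + 1 from rfl, Gb_odd_true le_rfl, Gb_two]
      exact hu
    | false =>
      rw [show (3 : ℕ) = 2 * 1 + 1 from rfl, Gb_odd_false le_rfl, Gb_one]
      exact hu.trans (UIso.move _ _ _)
  · rcases hSt.struct hLN hmk.le (by simp only; omega) with
      ⟨A1, B1, hT, hA, hB, bA, bB⟩ | ⟨t, x, c, hT, hx, hcl, bx, bc⟩
    · have hm := hT.mk
      have hs := hT.sz
      simp only at hm hs
      obtain ⟨A', a1, a2, a3⟩ := bal_double Q S bA hA (by omega)
      obtain ⟨B', b1, b2, b3⟩ := bal_double Q S bB hB (by omega)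
      have hu : UIso (A.ex Q S, B.ex Q S)
          (A'.ex (Sh.node Q Q) (Sh.node Q S), B'.ex (Sh.node Q Q) (Sh.node Q S)) :=
        (hT.ex Q S).trans (UIso.congr a1 b1)
      have hp := A'.sz_pos
      have hi := ih (A'.sz + B'.sz) (by omega) b _ _ A' B' rfl (by omega) (hopt.of_uiso hu)
        (cond.even hP hP' hc)
      have hme : m = 2 * (A'.sz + B'.sz) := by omega
      rw [hme, Gb_even (by omega)]
      exact hu.trans hi
    · have hm := hT.mk
      have hs := hT.sz
      simp only [Mk.mk, Mk.sz] at hm hs
      have hTs : MU (A, B) (lf t, nd c x) := hT.trans (MU.congr (MR.refl _) (MR.swap _ _))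
      have hTx : MU (A, B) (nd x (lf t), c) :=
        (hT.trans (MU.move _ _ _).symm).trans (MU.congr (MR.swap _ _) (MR.refl _))
      have hTc : MU (A, B) (nd c (lf t), x) :=
        (hTs.trans (MU.move _ _ _).symm).trans (MU.congr (MR.swap _ _) (MR.refl _))
      cases b with
      | true =>
        have ht : t = true := by
          by_contra ht
          have ht' : t = false := by simpa using ht
          subst ht'
          simp only [Bool.false_eq_true, if_false, zero_add] at hm
          rcases (by omega : x.mk = 1 ∨ c.mk = 1) with h | h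
          · exact hSt.use hTc (InV_marked bx hx h).swap
              ⟨hLN false c hcl (by omega), by rw [hwq, hws]; exact hc.1⟩
          · exact hSt.use hTx (InV_marked bc hcl h).swap
              ⟨hLN false x hx (by omega), by rw [hwq, hws]; exact hc.1⟩
        subst ht
        simp only [if_true] at hm
        obtain ⟨x', a1, a2, a3⟩ := bal_double Q S bx hx (by omega)
        obtain ⟨c', b1, b2, b3⟩ := bal_double Q S bc hcl (by omega)
        rw [ex_unmarked (Sh.node Q Q) (Sh.node Q S) S (c := x') (by omega)] at a1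
        rw [ex_unmarked (Sh.node Q Q) (Sh.node Q S) S (c := c') (by omega)] at b1
        have hu : UIso (A.ex Q S, B.ex Q S)
            ((lf true).ex (Sh.node Q Q) S, (nd x' c').ex (Sh.node Q Q) S) :=
          (hT.ex Q S).trans (UIso.congr (RIso.refl _) (RIso.congr a1 b1))
        have hp := x'.sz_pos
        have hi := ih (x'.sz + c'.sz + 1) (by omega) false _ _ (lf true) (nd x' c')
          (by simp only [Mk.sz]; omega) (by simp only [Mk.mk, if_true]; omega)
          (hopt.of_uiso hu) (cond.odd_true hP hP' hc)
        have hme : m = 2 * (x'.sz + c'.sz) + 1 := by omega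
        rw [hme, Gb_odd_true (by omega)]
        exact hu.trans hi
      | false =>
        have ht : t = false := by
          by_contra ht
          have ht' : t = true := by simpa using ht
          subst ht'
          simp only [if_true] at hm
          exact hSt.use hTx (InV_leaves bc hcl (by omega))
            ⟨hLN false x hx (by omega), by rw [hwq, hws]; exact hc.1⟩
        subst ht
        simp only [Bool.false_eq_true, if_false, zero_add] at hm
        have key : ∀ x c : Mk, MU (A, B) (lf false, nd x c) → MU (A, B) (nd c (lf false), x) →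
            ¬ x.isLf → ¬ c.isLf → x.Bal → c.Bal → x.mk = 1 → c.mk = 0 →
            1 + (x.sz + c.sz) = m →
            UIso (A.ex Q S, B.ex Q S) (unroot (Gb m false Q S)) := by
          intro x c hT hTc hx hcl bx bc hmx hmc hs
          rcases exists_cherry bx hx (by omega) with h | ⟨C, z, c1, c2, c3, c4⟩
          · obtain ⟨c', b1, b2, b3⟩ := bal_double Q S bc hcl (by omega)
            rw [ex_unmarked (Sh.node Q Q) (Sh.node Q S) (Sh.node Q (Sh.node Q S)) (c := c')
              (by omega)] at b1
            have hxs : x.sz = 2 := by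
              obtain ⟨u, v, rfl⟩ := h
              rfl
            have hxe : RIso (x.ex Q S) (Sh.node Q S) := by
              obtain ⟨u, v, rfl⟩ := h
              cases u <;> cases v <;> simp [Mk.mk] at hmx
              · exact RIso.refl _
              · exact RIso.swap _ _
            have hu : UIso (A.ex Q S, B.ex Q S)
                ((lf true).ex (Sh.node Q Q) (Sh.node Q (Sh.node Q S)),
                  c'.ex (Sh.node Q Q) (Sh.node Q (Sh.node Q S))) :=
              ((hT.trans (MU.move _ _ _).symm).ex Q S).trans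
                (UIso.congr (RIso.congr (RIso.refl _) hxe) b1)
            have hp := c'.sz_pos
            have hi := ih (c'.sz + 1) (by omega) true _ _ (lf true) c'
              (by simp only [Mk.sz]; omega) (by simp only [Mk.mk, if_true]; omega)
              (hopt.of_uiso hu) (cond.odd_false hP hP' hc)
            have hme : m = 2 * (c'.sz + 1) + 1 := by omega
            rw [hme, Gb_odd_false (by omega)]
            exact hu.trans hi
          · exfalso
            have hle := c4.mk_le
            refine hSt.use hTc c4.swap ⟨?_, hLN false z c2 (by omega)⟩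
            rw [hw.cherry c1 (by omega)]
            refine lt_of_lt_of_le ?_ (hw.ge_node hmc hcl)
            refine cF_lt' (hw.pos _) (hw.pos _) ?_
            rw [hwq, hws]
            exact hc.1
        rcases (by omega : x.mk = 1 ∧ c.mk = 0 ∨ x.mk = 0 ∧ c.mk = 1) with h | h
        · exact key x c hT hTc hx hcl bx bc h.1 h.2 (by omega)
        · exact key c x hTs hTx hcl hx bc bx h.2 h.1 (by omega)

theorem claimE (m : ℕ) : ∀ (Q : Sh) (A B : Mk), A.sz + B.sz = m →
    A.mk + B.mk = 0 → Opt P (A.ex Q Q, B.ex Q Q) →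
    UIso (A.ex Q Q, B.ex Q Q) (unroot (Gb m false Q Q)) := by
  induction m using Nat.strong_induction_on with
  | _ m ih =>
  intro Q A B hsz hmk hopt
  have hw := wt_Wt hP hP' Q Q
  have hSt := hopt.st hP hP'
  obtain ⟨w, hwdef⟩ : ∃ w : Mk → ℝ, w = fun C => wt P (C.ex Q Q) := ⟨_, rfl⟩
  rw [← hwdef] at hw hSt
  have hwq : w (lf false) = wt P Q := by rw [hwdef]; rfl
  have hws : w (lf true) = wt P Q := by rw [hwdef]; rfl
  have hA1 := A.sz_pos
  have hB1 := B.sz_pos
  have hLN : LN w 0 := hw.LN_zero 0 rfl (by rw [hwq, hws])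
  rcases (by omega : m = 2 ∨ m = 3 ∨ 4 ≤ m) with rfl | rfl | h4
  · obtain ⟨a, a', rfl, rfl⟩ := small_two hsz
    rw [Gb_two]
    cases a <;> cases a' <;> simp [Mk.mk] at hmk
    exact UIso.refl _
  · obtain ⟨a, b, c, h1⟩ := small_three hsz
    have hu := h1.ex Q Q
    rw [show (3 : ℕ) = 2 * 1 + 1 from rfl, Gb_odd_false le_rfl, Gb_one]
    have he : ∀ b : Bool, (lf b).ex Q Q = Q := by intro b; cases b <;> rfl
    simp only [Mk.ex] at hu
    have h2 := hu.trans (UIso.move _ _ _)
    simp only [ite_self] at h2
    exact h2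
  · rcases hSt.struct hLN hmk.le (by simp only; omega) with
      ⟨A1, B1, hT, hA, hB, bA, bB⟩ | ⟨t, x, c, hT, hx, hcl, bx, bc⟩
    · have hm := hT.mk
      have hs := hT.sz
      simp only at hm hs
      obtain ⟨A', a1, a2, a3⟩ := bal_double Q Q bA hA (by omega)
      obtain ⟨B', b1, b2, b3⟩ := bal_double Q Q bB hB (by omega)
      have hu : UIso (A.ex Q Q, B.ex Q Q)
          (A'.ex (Sh.node Q Q) (Sh.node Q Q), B'.ex (Sh.node Q Q) (Sh.node Q Q)) :=
        (hT.ex Q Q).trans (UIso.congr a1 b1)
      have hp := A'.sz_pos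
      have hi := ih (A'.sz + B'.sz) (by omega) _ A' B' rfl (by omega) (hopt.of_uiso hu)
      have hme : m = 2 * (A'.sz + B'.sz) := by omega
      rw [hme, Gb_even (by omega)]
      exact hu.trans hi
    · have hm := hT.mk
      have hs := hT.sz
      simp only [Mk.mk, Mk.sz] at hm hs
      have hTs : MU (A, B) (lf t, nd c x) := hT.trans (MU.congr (MR.refl _) (MR.swap _ _))
      have hTx : MU (A, B) (nd x (lf t), c) :=
        (hT.trans (MU.move _ _ _).symm).trans (MU.congr (MR.swap _ _) (MR.refl _))
      have hTc : MU (A, B) (nd c (lf t), x) :=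
        (hTs.trans (MU.move _ _ _).symm).trans (MU.congr (MR.swap _ _) (MR.refl _))
      have ht : t = false := by
        by_contra ht
        have ht' : t = true := by simpa using ht
        subst ht'
        simp only [if_true] at hm
        omega
      subst ht
      simp only [Bool.false_eq_true, if_false, zero_add] at hm
      have key : ∀ x c : Mk, MU (A, B) (lf false, nd x c) → ¬ c.isLf → c.Bal → Cherry x →
          c.mk = 0 → 1 + (x.sz + c.sz) = m →
          UIso (A.ex Q Q, B.ex Q Q) (unroot (Gb m false Q Q)) := by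
        intro x c hT hcl bc h hmc hs
        obtain ⟨c', b1, b2, b3⟩ := bal_double Q Q bc hcl (by omega)
        rw [ex_unmarked (Sh.node Q Q) (Sh.node Q Q) (Sh.node Q (Sh.node Q Q)) (c := c')
          (by omega)] at b1
        have hxs : x.sz = 2 := by
          obtain ⟨u, v, rfl⟩ := h
          rfl
        have hxe : x.ex Q Q = Sh.node Q Q := by
          obtain ⟨u, v, rfl⟩ := h
          cases u <;> cases v <;> rfl
        have hu : UIso (A.ex Q Q, B.ex Q Q)
            ((lf true).ex (Sh.node Q Q) (Sh.node Q (Sh.node Q Q)),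
              c'.ex (Sh.node Q Q) (Sh.node Q (Sh.node Q Q))) :=
          ((hT.trans (MU.move _ _ _).symm).ex Q Q).trans
            (UIso.congr (RIso.congr (RIso.refl _) (hxe ▸ RIso.refl _)) b1)
        have hp := c'.sz_pos
        have hi := claimM hP hP' (c'.sz + 1) true _ _ (lf true) c'
          (by simp only [Mk.sz]; omega) (by simp only [Mk.mk, if_true]; omega)
          (hopt.of_uiso hu) (cond.odd_eq hP hP' Q)
        have hme : m = 2 * (c'.sz + 1) + 1 := by omega
        rw [hme, Gb_odd_false (by omega)]
        exact hu.trans hi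
      rcases exists_cherry bx hx (by omega) with h | ⟨C, z, c1, c2, c3, c4⟩
      · exact key x c hT hcl bc h (by omega) (by omega)
      · have hch : Cherry c := by
          by_contra hch
          have hle := c4.mk_le
          refine hSt.use hTc c4.swap ⟨?_, hLN false z c2 (by omega)⟩
          rw [hw.cherry0 c1 (by omega)]
          cases c with
          | lf _ => exact absurd trivial hcl
          | nd l r =>
            simp only [Mk.mk] at hm
            obtain ⟨g1, -, -⟩ := bc
            have hl : ¬ l.isLf := by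
              intro hl
              have hr := g1.1 hl
              cases l with
              | nd _ _ => exact hl
              | lf u =>
                cases r with
                | nd _ _ => exact hr
                | lf v => exact hch ⟨u, v, rfl⟩
            have hr : ¬ r.isLf := fun h => hl (g1.2 h)
            rw [hw.node]
            exact cF_lt2 (hw.pos _) (hw.pos _) (hLN false l hl (by omega))
              (hLN false r hr (by omega))
        exact key c x hTs hx bx hch (by omega) (by omega)

/-- every tree whose form is minimal is the good tree -/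
theorem opt_good {T : Sh × Sh} (hT : Opt P T) :
    UIso T (unroot (Gb (T.1.size + T.2.size) false Sh.leaf Sh.leaf)) := by
  have key : ∀ s : Sh, ∃ A : Mk, A.ex Sh.leaf Sh.leaf = s ∧ A.sz = s.size ∧ A.mk = 0 := by
    intro s
    induction s with
    | leaf => exact ⟨lf false, rfl, rfl, rfl⟩
    | node l r hl hr =>
      obtain ⟨A, a1, a2, a3⟩ := hl
      obtain ⟨B, b1, b2, b3⟩ := hr
      refine ⟨nd A B, ?_, ?_, ?_⟩
      · show Sh.node (A.ex _ _) (B.ex _ _) = _
        rw [a1, b1]
      · simp only [Mk.sz, Sh.size, a2, b2]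
      · simp only [Mk.mk, a3, b3]
  obtain ⟨A, a1, a2, a3⟩ := key T.1
  obtain ⟨B, b1, b2, b3⟩ := key T.2
  have h := claimE hP hP' (A.sz + B.sz) Sh.leaf A B rfl (by omega) (by rw [a1, b1]; exact hT)
  rw [a1, b1, a2, b2] at h
  exact h

end

end Pool.Agent.Helper877_Smith
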