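import Mathlib

/-!
# Comparison of sums of square roots of the roots of polynomials (seat helper877, MP_ebc12b_co)
-/

set_option autoImplicit false

namespace Pool.Agent.Helper877_Smith

open Filter Topology

/-- a primitive of `log (1 + s ^ 2 / r ^ 2)` -/
noncomputable def hh (s r : ℝ) : ℝ :=
  r * Real.log (r ^ 2 + s ^ 2) - 2 * (r * Real.log r) + 2 * s * Real.arctan (r / s)

theorem hh_zero_left (r : ℝ) : hh 0 r = 0 := by
  unfold hh
  have : Real.log (r ^ 2 + 0 ^ 2) = 2 * Real.log r := by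
    rw [zero_pow two_ne_zero, add_zero, Real.log_pow]
    norm_num
  rw [this]
  ring

theorem hh_zero_right (s : ℝ) : hh s 0 = 0 := by
  unfold hh
  simp

theorem hh_cont {s : ℝ} (hs : 0 ≤ s) : Continuous (hh s) := by
  rcases hs.eq_or_lt with h | h
  · have : hh s = fun _ => 0 := by
      funext r
      rw [← h, hh_zero_left]
    rw [this]
    exact continuous_const
  · unfold hh
    refine Continuous.add (Continuous.sub ?_ ?_) ?_
    · refine continuous_id.mul (Continuous.log (by fun_prop) fun r => ?_)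
      positivity
    · exact continuous_const.mul Real.continuous_mul_log
    · exact continuous_const.mul (Real.continuous_arctan.comp (continuous_id.div_const s))

theorem hh_deriv {s r : ℝ} (hs : 0 ≤ s) (hr : 0 < r) :
    HasDerivAt (hh s) (Real.log (r ^ 2 + s ^ 2) - Real.log (r ^ 2)) r := by
  have hlr : Real.log (r ^ 2) = 2 * Real.log r := by
    rw [Real.log_pow]; norm_num
  rcases hs.eq_or_lt with h | h
  · have h0 : hh s = fun _ => 0 := by
      funext r
      rw [← h, hh_zero_left]
    rw [h0, ← h]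
    simp only [zero_pow two_ne_zero, add_zero, sub_self]
    exact hasDerivAt_const r 0
  · have hp : r ^ 2 + s ^ 2 ≠ 0 := by positivity
    have d1 : HasDerivAt (fun x : ℝ => x ^ 2 + s ^ 2) (2 * r) r := by
      simpa using (hasDerivAt_pow 2 r).add_const (s ^ 2)
    have d2 := (hasDerivAt_id r).mul (d1.log hp)
    have d3 := ((hasDerivAt_id r).mul (Real.hasDerivAt_log hr.ne')).const_mul 2
    have d4 := (((hasDerivAt_id r).div_const s).arctan).const_mul (2 * s)
    have d5 : HasDerivAt (hh s) _ r := (d2.sub d3).add d4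
    refine d5.congr_deriv ?_
    simp only [id]
    rw [hlr]
    have hs' : s ≠ 0 := h.ne'
    have hr' : r ≠ 0 := hr.ne'
    have hq : 1 + (r / s) ^ 2 ≠ 0 := by positivity
    have hq' : r ^ 2 + s ^ 2 ≠ 0 := hp
    field_simp
    ring

theorem hh_tendsto {s : ℝ} (hs : 0 ≤ s) : Tendsto (hh s) atTop (𝓝 (Real.pi * s)) := by
  rcases hs.eq_or_lt with h | h
  · have h0 : hh s = fun _ => 0 := by
      funext r
      rw [← h, hh_zero_left]
    rw [h0, ← h, mul_zero]
    exact tendsto_const_nhds
  · have h1 : Tendsto (fun r : ℝ => r * Real.log (r ^ 2 + s ^ 2) - 2 * (r * Real.log r)) atTop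
        (𝓝 0) := by
      have hup : Tendsto (fun r : ℝ => s ^ 2 / r) atTop (𝓝 0) :=
        tendsto_const_nhds.div_atTop tendsto_id
      refine squeeze_zero' ?_ ?_ hup
      · filter_upwards [eventually_gt_atTop 0] with r hr
        have h2 : 2 * (r * Real.log r) = r * Real.log (r ^ 2) := by
          rw [Real.log_pow]; push_cast; ring
        rw [h2, ← mul_sub]
        refine mul_nonneg hr.le (sub_nonneg.2 (Real.log_le_log (by positivity) ?_))
        nlinarith [sq_nonneg s]
      · filter_upwards [eventually_gt_atTop 0] with r hr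
        have h2 : 2 * (r * Real.log r) = r * Real.log (r ^ 2) := by
          rw [Real.log_pow]; push_cast; ring
        rw [h2, ← mul_sub, ← Real.log_div (by positivity) (by positivity)]
        have h3 : (r ^ 2 + s ^ 2) / r ^ 2 = 1 + s ^ 2 / r ^ 2 := by
          field_simp
        rw [h3]
        have h4 : Real.log (1 + s ^ 2 / r ^ 2) ≤ s ^ 2 / r ^ 2 := by
          have := Real.log_le_sub_one_of_pos (show 0 < 1 + s ^ 2 / r ^ 2 by positivity)
          linarith
        calc r * Real.log (1 + s ^ 2 / r ^ 2) ≤ r * (s ^ 2 / r ^ 2) :=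
              mul_le_mul_of_nonneg_left h4 hr.le
          _ = s ^ 2 / r := by field_simp
    have h2 : Tendsto (fun r : ℝ => 2 * s * Real.arctan (r / s)) atTop
        (𝓝 (2 * s * (Real.pi / 2))) :=
      ((Real.tendsto_arctan_atTop.mono_right nhdsWithin_le_nhds).comp
        (tendsto_id.atTop_div_const h)).const_mul _
    have h3 := h1.add h2
    have h4 : (0 : ℝ) + 2 * s * (Real.pi / 2) = Real.pi * s := by ring
    rw [h4] at h3
    exact h3

/-- sum of `hh s` over a list -/
noncomputable def HH (L : List ℝ) (r : ℝ) : ℝ := (L.map (fun s => hh s r)).sum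

theorem HH_cons (s : ℝ) (L : List ℝ) : HH (s :: L) = fun r => hh s r + HH L r := by
  funext r
  simp [HH]

theorem HH_cont {L : List ℝ} (hL : ∀ s ∈ L, 0 ≤ s) : Continuous (HH L) := by
  induction L with
  | nil => exact continuous_const
  | cons s L ih =>
    rw [HH_cons]
    exact (hh_cont (hL s List.mem_cons_self)).add
      (ih fun t ht => hL t (List.mem_cons_of_mem _ ht))

theorem HH_zero (L : List ℝ) : HH L 0 = 0 := by
  induction L with
  | nil => rfl
  | cons s L ih =>
    rw [HH_cons]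
    simp only [ih, hh_zero_right, add_zero]

theorem HH_tendsto {L : List ℝ} (hL : ∀ s ∈ L, 0 ≤ s) :
    Tendsto (HH L) atTop (𝓝 (Real.pi * L.sum)) := by
  induction L with
  | nil =>
    simp only [List.sum_nil, mul_zero]
    exact tendsto_const_nhds
  | cons s L ih =>
    rw [HH_cons, List.sum_cons, mul_add]
    exact (hh_tendsto (hL s List.mem_cons_self)).add
      (ih fun t ht => hL t (List.mem_cons_of_mem _ ht))

theorem prod_pos {L : List ℝ} {r : ℝ} (hr : 0 < r) :
    0 < (L.map (fun s => r ^ 2 + s ^ 2)).prod := by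
  induction L with
  | nil => simp
  | cons s L ih =>
    rw [List.map_cons, List.prod_cons]
    positivity

theorem HH_deriv {L : List ℝ} (hL : ∀ s ∈ L, 0 ≤ s) {r : ℝ} (hr : 0 < r) :
    HasDerivAt (HH L) (Real.log (L.map (fun s => r ^ 2 + s ^ 2)).prod -
      L.length * Real.log (r ^ 2)) r := by
  induction L with
  | nil =>
    simp only [List.map_nil, List.prod_nil, Real.log_one, List.length_nil, Nat.cast_zero, zero_mul,
      sub_zero]
    exact hasDerivAt_const r 0
  | cons s L ih =>
    have h1 := (hh_deriv (hL s List.mem_cons_self) hr).add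
      (ih fun t ht => hL t (List.mem_cons_of_mem _ ht))
    rw [HH_cons]
    refine HasDerivAt.congr_deriv (f := fun r => hh s r + HH L r) h1 ?_
    rw [List.map_cons, List.prod_cons, Real.log_mul (by positivity) (prod_pos hr).ne',
      List.length_cons]
    push_cast
    ring

theorem diff_deriv {L₁ L₂ : List ℝ} (h1 : ∀ s ∈ L₁, 0 ≤ s) (h2 : ∀ s ∈ L₂, 0 ≤ s)
    (hl : L₁.length = L₂.length) {r : ℝ} (hr : 0 < r) :
    HasDerivAt (fun r => HH L₁ r - HH L₂ r) (Real.log (L₁.map (fun s => r ^ 2 + s ^ 2)).prod -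
      Real.log (L₂.map (fun s => r ^ 2 + s ^ 2)).prod) r := by
  have h3 := (HH_deriv h1 hr).sub (HH_deriv h2 hr)
  refine HasDerivAt.congr_deriv (f := fun r => HH L₁ r - HH L₂ r) h3 ?_
  rw [hl]
  ring

theorem sum_le {L₁ L₂ : List ℝ} (h1 : ∀ s ∈ L₁, 0 ≤ s) (h2 : ∀ s ∈ L₂, 0 ≤ s)
    (hl : L₁.length = L₂.length)
    (h : ∀ r : ℝ, 0 < r → (L₂.map (fun s => r ^ 2 + s ^ 2)).prod ≤
      (L₁.map (fun s => r ^ 2 + s ^ 2)).prod) : L₂.sum ≤ L₁.sum := by
  have hmono : MonotoneOn (fun r => HH L₁ r - HH L₂ r) (Set.Ici 0) := by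
    refine monotoneOn_of_deriv_nonneg (convex_Ici 0)
      ((HH_cont h1).sub (HH_cont h2)).continuousOn ?_ ?_
    · intro r hr
      rw [interior_Ici] at hr
      exact (diff_deriv h1 h2 hl hr).differentiableAt.differentiableWithinAt
    · intro r hr
      rw [interior_Ici] at hr
      rw [(diff_deriv h1 h2 hl hr).deriv]
      exact sub_nonneg.2 (Real.log_le_log (prod_pos hr) (h r hr))
  have hlim : Tendsto (fun r => HH L₁ r - HH L₂ r) atTop
      (𝓝 (Real.pi * L₁.sum - Real.pi * L₂.sum)) := (HH_tendsto h1).sub (HH_tendsto h2)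
  have h0 : 0 ≤ Real.pi * L₁.sum - Real.pi * L₂.sum := by
    refine ge_of_tendsto hlim ?_
    filter_upwards [eventually_ge_atTop 0] with r hr
    have := hmono (Set.mem_Ici.2 le_rfl) (Set.mem_Ici.2 hr) hr
    simpa [HH_zero] using this
  have hpi := Real.pi_pos
  nlinarith

theorem sum_lt {L₁ L₂ : List ℝ} (h1 : ∀ s ∈ L₁, 0 ≤ s) (h2 : ∀ s ∈ L₂, 0 ≤ s)
    (hl : L₁.length = L₂.length)
    (h : ∀ r : ℝ, 0 < r → (L₂.map (fun s => r ^ 2 + s ^ 2)).prod <
      (L₁.map (fun s => r ^ 2 + s ^ 2)).prod) : L₂.sum < L₁.sum := by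
  have hmono : StrictMonoOn (fun r => HH L₁ r - HH L₂ r) (Set.Ici 0) := by
    refine strictMonoOn_of_deriv_pos (convex_Ici 0)
      ((HH_cont h1).sub (HH_cont h2)).continuousOn ?_
    intro r hr
    rw [interior_Ici] at hr
    rw [(diff_deriv h1 h2 hl hr).deriv]
    exact sub_pos.2 (Real.log_lt_log (prod_pos hr) (h r hr))
  have hlim : Tendsto (fun r => HH L₁ r - HH L₂ r) atTop
      (𝓝 (Real.pi * L₁.sum - Real.pi * L₂.sum)) := (HH_tendsto h1).sub (HH_tendsto h2)
  have h01 : 0 < HH L₁ 1 - HH L₂ 1 := by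
    have := hmono (Set.mem_Ici.2 le_rfl) (Set.mem_Ici.2 zero_le_one) zero_lt_one
    simpa [HH_zero] using this
  have h0 : HH L₁ 1 - HH L₂ 1 ≤ Real.pi * L₁.sum - Real.pi * L₂.sum := by
    refine ge_of_tendsto hlim ?_
    filter_upwards [eventually_ge_atTop 1] with r hr
    exact hmono.monotoneOn (Set.mem_Ici.2 zero_le_one) (Set.mem_Ici.2 (zero_le_one.trans hr)) hr
  have hpi := Real.pi_pos
  nlinarith

end Pool.Agent.Helper877_Smith
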