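import Pool.Agent.Helper877_Smith.Geo
import Pool.Agent.Helper877_Smith.Hlem

/-!
# The lower bound for `2 ^ (k + 1)` terminals (seat helper877, MP_ebc12b_co)
-/

set_option autoImplicit false

namespace Pool.Agent.Helper877_Smith

/-- square roots of the eigenvalues coming from a full binary tree -/
noncomputable def sv : ℕ → List ℝ
  | 0 => []
  | h + 1 => Real.sqrt (3 / 2 ^ (h + 1)) :: (sv h ++ sv h)

/-- square roots of the eigenvalues of the optimal tree -/
noncomputable def Ls (k : ℕ) : List ℝ := 0 :: Real.sqrt (2 / 2 ^ k) :: (sv k ++ sv k)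

theorem sv_nonneg (h : ℕ) : ∀ s ∈ sv h, 0 ≤ s := by
  induction h with
  | zero => intro s hs; exact absurd hs List.not_mem_nil
  | succ h ih =>
    intro s hs
    rw [sv, List.mem_cons, List.mem_append] at hs
    rcases hs with rfl | hs | hs
    · exact Real.sqrt_nonneg _
    · exact ih s hs
    · exact ih s hs

theorem sv_length (h : ℕ) : (sv h).length + 1 = 2 ^ h := by
  induction h with
  | zero => rfl
  | succ h ih =>
    rw [sv, List.length_cons, List.length_append, pow_succ]
    omega

theorem Ls_nonneg (k : ℕ) : ∀ s ∈ Ls k, 0 ≤ s := by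
  intro s hs
  rw [Ls, List.mem_cons, List.mem_cons, List.mem_append] at hs
  rcases hs with rfl | rfl | hs | hs
  · exact le_rfl
  · exact Real.sqrt_nonneg _
  · exact sv_nonneg k s hs
  · exact sv_nonneg k s hs

theorem Ls_length (k : ℕ) : (Ls k).length = 2 ^ (k + 1) := by
  have := sv_length k
  rw [Ls, List.length_cons, List.length_cons, List.length_append, pow_succ]
  omega

theorem val_full (r : ℝ) (h : ℕ) :
    val (1 + r ^ 2, 1) (Sh.full h) =
      ((r ^ 2 + 1 / 2 ^ h) * ((sv h).map (fun s => r ^ 2 + s ^ 2)).prod,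
        1 / 2 ^ h * ((sv h).map (fun s => r ^ 2 + s ^ 2)).prod) := by
  induction h with
  | zero =>
    show ((1 + r ^ 2, 1) : ℝ × ℝ) = _
    simp [sv, add_comm]
  | succ h ih =>
    show mulV (val (1 + r ^ 2, 1) (Sh.full h)) (val (1 + r ^ 2, 1) (Sh.full h)) = _
    rw [ih, sv, List.map_cons, List.prod_cons, List.map_append, List.prod_append,
      Real.sq_sqrt (by positivity)]
    unfold mulV
    ext
    · simp only
      field_simp
      ring
    · simp only
      field_simp
      ring

theorem ZZ_full (r : ℝ) (k : ℕ) :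
    ZZ (1 + r ^ 2, 1) (Sh.full k, Sh.full k) = ((Ls k).map (fun s => r ^ 2 + s ^ 2)).prod := by
  unfold ZZ
  simp only
  rw [val_full, Ls, List.map_cons, List.prod_cons, List.map_cons, List.prod_cons, List.map_append,
    List.prod_append, Real.sq_sqrt (by positivity)]
  unfold ip
  simp only
  field_simp
  ring

theorem size_top {d : ℕ} (T : FST d) : T.top.1.size + T.top.2.size = d := by
  have h := congrArg Multiset.card T.once
  rw [Multiset.card_add, card_terms, card_terms] at h
  rw [show (Finset.univ : Finset (Fin d)).val.card = Finset.univ.card from rfl,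
    Finset.card_univ, Fintype.card_fin] at h
  exact h

theorem lower_full (k : ℕ) (T : FST (2 ^ (k + 1))) :
    (Ls k).sum ≤ T.length ∧ (T.length = (Ls k).sum → UIso T.top (Sh.full k, Sh.full k)) := by
  obtain ⟨L, hL0, hLl, hLs, hLp⟩ := lower T
  have hsz := size_top T
  have hl : L.length = (Ls k).length := by
    rw [hLl, Ls_length]
    exact hsz
  have hmin : ∀ r : ℝ, 0 < r → _ := fun r hr => min_form k (1 + r ^ 2, 1) zero_lt_one
    (by show (1 : ℝ) < 1 + r ^ 2; have := pow_pos hr 2; linarith) T.top hsz
  constructor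
  · refine (sum_le hL0 (Ls_nonneg k) hl fun r hr => ?_).trans hLs
    rw [hLp r hr, ← ZZ_full]
    exact (hmin r hr).1
  · intro he
    by_contra hc
    have hlt : (Ls k).sum < L.sum := by
      refine sum_lt hL0 (Ls_nonneg k) hl fun r hr => ?_
      rw [hLp r hr, ← ZZ_full]
      refine lt_of_le_of_ne (hmin r hr).1 fun heq => hc ((hmin r hr).2 heq.symm)
    linarith

end Pool.Agent.Helper877_Smith
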