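import Pool.Agent.Helper877_Smith.Claim
import Pool.Agent.Helper877_Smith.Lower

/-!
# The good binary tree has the smallest form, for every number of leaves
(seat helper877, MP_ebc12b_co)
-/

set_option autoImplicit false

namespace Pool.Agent.Helper877_Smith

theorem Sh.size_unroot {s : Sh} (h : s ≠ Sh.leaf) :
    (unroot s).1.size + (unroot s).2.size = s.size := by
  cases s with
  | leaf => exact absurd rfl h
  | node l r => rfl

/-- the good tree has the smallest form -/
theorem dom {P : ℝ × ℝ} (hP : 0 < P.2) (hP' : P.2 < P.1) {n : ℕ} {T : Sh × Sh}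
    (hT : T.1.size + T.2.size = n) :
    ZZ P (unroot (Gb n false Sh.leaf Sh.leaf)) ≤ ZZ P T ∧
      (ZZ P T = ZZ P (unroot (Gb n false Sh.leaf Sh.leaf)) →
        UIso T (unroot (Gb n false Sh.leaf Sh.leaf))) := by
  obtain ⟨T0, hT0, hmin⟩ := Set.exists_min_image _ (ZZ P) (finite_size n) ⟨T, hT⟩
  have hT0' : T0.1.size + T0.2.size = n := hT0
  have h0 : Opt P T0 := fun T' hT' => hmin T' (hT'.trans hT0')
  have hg := opt_good hP hP' h0
  rw [hT0'] at hg
  have he := ZZ_uiso P hg
  refine ⟨he ▸ hmin T hT, fun hTe => ?_⟩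
  have h1 : Opt P T := by
    intro T' hT'
    rw [hTe, ← he]
    exact hmin T' (hT'.trans hT)
  have h2 := opt_good hP hP' h1
  rw [hT] at h2
  exact h2

/-- the lower bound for the length of a full Steiner tree, from a list of square roots of
eigenvalues of the good tree -/
theorem lower_gen {d : ℕ} {L : List ℝ} (hL : ∀ s ∈ L, 0 ≤ s) (hLd : L.length = d)
    (hLp : ∀ r : ℝ, 0 < r → (L.map (fun s => r ^ 2 + s ^ 2)).prod =
      ZZ (1 + r ^ 2, 1) (unroot (Gb d false Sh.leaf Sh.leaf))) (T : FST d) :
    L.sum ≤ T.length ∧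
      (T.length = L.sum → UIso T.top (unroot (Gb d false Sh.leaf Sh.leaf))) := by
  obtain ⟨L', hL0, hLl, hLs, hLq⟩ := lower T
  have hsz := size_top T
  have hl : L'.length = L.length := by
    rw [hLl, hLd]
    exact hsz
  have hmin : ∀ r : ℝ, 0 < r → _ := fun r hr => dom (P := (1 + r ^ 2, 1)) zero_lt_one
    (by show (1 : ℝ) < 1 + r ^ 2; have := pow_pos hr 2; linarith) hsz
  constructor
  · refine (sum_le hL0 hL hl fun r hr => ?_).trans hLs
    rw [hLq r hr, hLp r hr]
    exact (hmin r hr).1
  · intro he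
    by_contra hc
    have hlt : L.sum < L'.sum := by
      refine sum_lt hL0 hL hl fun r hr => ?_
      rw [hLq r hr, hLp r hr]
      refine lt_of_le_of_ne (hmin r hr).1 fun heq => hc ((hmin r hr).2 heq.symm)
    linarith

end Pool.Agent.Helper877_Smith
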