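import Pool.Agent.Helper877_Smith.Star3
import Pool.Agent.Helper877_Smith.Good

/-!
# Exact results for `d = m * 2 ^ k` with `m` in `{2, 3, 5, 7, 11}` (seat helper877, MP_ebc12b_co)
-/

set_option autoImplicit false

namespace Pool.Agent.Helper877_Smith

/-- square roots of the eigenvalues of the tree with three full binary trees at one vertex -/
noncomputable def L3 (a b c : ℕ) (μ ν : ℝ) : List ℝ :=
  0 :: Real.sqrt μ :: Real.sqrt ν :: (sv a ++ sv b ++ sv c)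

theorem ZZ_star (r : ℝ) (a b c : ℕ) (μ ν : ℝ) (hμ : 0 ≤ μ) (hν : 0 ≤ ν)
    (h1 : μ + ν = 1 / 2 ^ a + 1 / 2 ^ b + 1 / 2 ^ c)
    (h2 : μ * ν = 3 / 4 * (1 / 2 ^ a * (1 / 2 ^ b) + 1 / 2 ^ b * (1 / 2 ^ c) +
      1 / 2 ^ c * (1 / 2 ^ a))) :
    ZZ (1 + r ^ 2, 1) (Sh.node (Sh.full a) (Sh.full b), Sh.full c) =
      ((L3 a b c μ ν).map (fun s => r ^ 2 + s ^ 2)).prod := by
  unfold ZZ
  simp only
  rw [show val (1 + r ^ 2, 1) (Sh.node (Sh.full a) (Sh.full b)) =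
    mulV (val (1 + r ^ 2, 1) (Sh.full a)) (val (1 + r ^ 2, 1) (Sh.full b)) from rfl,
    val_full, val_full, val_full, L3, List.map_cons, List.prod_cons, List.map_cons,
    List.prod_cons, List.map_cons, List.prod_cons, List.map_append, List.prod_append,
    List.map_append, List.prod_append, Real.sq_sqrt hμ, Real.sq_sqrt hν]
  obtain ⟨A, hA⟩ : ∃ A, A = (List.map (fun s => r ^ 2 + s ^ 2) (sv a)).prod := ⟨_, rfl⟩
  obtain ⟨B, hB⟩ : ∃ B, B = (List.map (fun s => r ^ 2 + s ^ 2) (sv b)).prod := ⟨_, rfl⟩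
  obtain ⟨C, hC⟩ : ∃ C, C = (List.map (fun s => r ^ 2 + s ^ 2) (sv c)).prod := ⟨_, rfl⟩
  obtain ⟨α, hα⟩ : ∃ α : ℝ, α = 1 / 2 ^ a := ⟨_, rfl⟩
  obtain ⟨β, hβ⟩ : ∃ β : ℝ, β = 1 / 2 ^ b := ⟨_, rfl⟩
  obtain ⟨γ, hγ⟩ : ∃ γ : ℝ, γ = 1 / 2 ^ c := ⟨_, rfl⟩
  rw [← hα, ← hβ, ← hγ] at h1 h2
  rw [← hA, ← hB, ← hC, ← hα, ← hβ, ← hγ]
  have e : (r ^ 2 + μ) * (r ^ 2 + ν) = r ^ 4 + r ^ 2 * (α + β + γ) +
      3 / 4 * (α * β + β * γ + γ * α) := by
    rw [← h1, ← h2]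
    ring
  have e' : (r ^ 2 + 0 ^ 2) * ((r ^ 2 + μ) * ((r ^ 2 + ν) * (A * B * C))) =
      r ^ 2 * ((r ^ 2 + μ) * (r ^ 2 + ν)) * (A * B * C) := by ring
  rw [e', e]
  unfold ip mulV
  simp only
  ring

theorem L3_nonneg (a b c : ℕ) (μ ν : ℝ) : ∀ s ∈ L3 a b c μ ν, 0 ≤ s := by
  intro s hs
  rw [L3, List.mem_cons, List.mem_cons, List.mem_cons, List.mem_append, List.mem_append] at hs
  rcases hs with rfl | rfl | rfl | (hs | hs) | hs
  · exact le_rfl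
  · exact Real.sqrt_nonneg _
  · exact Real.sqrt_nonneg _
  · exact sv_nonneg _ s hs
  · exact sv_nonneg _ s hs
  · exact sv_nonneg _ s hs

theorem L3_length (a b c : ℕ) (μ ν : ℝ) : (L3 a b c μ ν).length = 2 ^ a + 2 ^ b + 2 ^ c := by
  have h1 := sv_length a
  have h2 := sv_length b
  have h3 := sv_length c
  rw [L3, List.length_cons, List.length_cons, List.length_cons, List.length_append,
    List.length_append, ← h1, ← h2, ← h3]
  omega

theorem exists_mu (α β γ : ℝ) (hα : 0 < α) (hβ : 0 < β) (hγ : 0 < γ) :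
    ∃ μ ν : ℝ, 0 ≤ μ ∧ 0 ≤ ν ∧ μ + ν = α + β + γ ∧
      μ * ν = 3 / 4 * (α * β + β * γ + γ * α) ∧
      Real.sqrt μ + Real.sqrt ν =
        Real.sqrt (α + β + γ + Real.sqrt (3 * (α * β + β * γ + γ * α))) := by
  obtain ⟨q, hq⟩ : ∃ q, q = (α + β + γ) ^ 2 - 3 * (α * β + β * γ + γ * α) := ⟨_, rfl⟩
  have hq0 : 0 ≤ q := by
    rw [hq]
    nlinarith [sq_nonneg (α - β), sq_nonneg (β - γ), sq_nonneg (γ - α)]
  obtain ⟨δ, hδ⟩ : ∃ δ, δ = Real.sqrt q := ⟨_, rfl⟩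
  have hδ0 : 0 ≤ δ := hδ ▸ Real.sqrt_nonneg _
  have hδ2 : δ ^ 2 = q := by rw [hδ]; exact Real.sq_sqrt hq0
  have hs : 0 < α * β + β * γ + γ * α := by positivity
  have hδle : δ ≤ α + β + γ := by
    refine le_of_sq_le_sq ?_ (by positivity)
    rw [hδ2, hq]
    linarith
  have hμ : 0 ≤ (α + β + γ + δ) / 2 := by positivity
  have hν : 0 ≤ (α + β + γ - δ) / 2 := by linarith
  have hprod : (α + β + γ + δ) / 2 * ((α + β + γ - δ) / 2) =
      3 / 4 * (α * β + β * γ + γ * α) := by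
    have h : (α + β + γ + δ) / 2 * ((α + β + γ - δ) / 2) =
        ((α + β + γ) ^ 2 - δ ^ 2) / 4 := by ring
    rw [h, hδ2, hq]
    ring
  refine ⟨(α + β + γ + δ) / 2, (α + β + γ - δ) / 2, hμ, hν, by ring, hprod, ?_⟩
  symm
  rw [Real.sqrt_eq_iff_mul_self_eq (by positivity) (by positivity)]
  have h1 : (Real.sqrt ((α + β + γ + δ) / 2) + Real.sqrt ((α + β + γ - δ) / 2)) *
      (Real.sqrt ((α + β + γ + δ) / 2) + Real.sqrt ((α + β + γ - δ) / 2)) =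
      Real.sqrt ((α + β + γ + δ) / 2) ^ 2 + Real.sqrt ((α + β + γ - δ) / 2) ^ 2 +
        2 * (Real.sqrt ((α + β + γ + δ) / 2) * Real.sqrt ((α + β + γ - δ) / 2)) := by ring
  have h2 : 2 * Real.sqrt (3 / 4 * (α * β + β * γ + γ * α)) =
      Real.sqrt (3 * (α * β + β * γ + γ * α)) := by
    symm
    rw [Real.sqrt_eq_iff_mul_self_eq (by positivity) (by positivity)]
    have h3 : 2 * Real.sqrt (3 / 4 * (α * β + β * γ + γ * α)) *
        (2 * Real.sqrt (3 / 4 * (α * β + β * γ + γ * α))) =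
        4 * (Real.sqrt (3 / 4 * (α * β + β * γ + γ * α))) ^ 2 := by ring
    rw [h3, Real.sq_sqrt (by positivity)]
    ring
  rw [h1, Real.sq_sqrt hμ, Real.sq_sqrt hν, ← Real.sqrt_mul hμ, hprod, h2]
  ring

/-- the exact result when `T_d` has a vertex with three full binary trees -/
theorem exact_star (a b c : ℕ) {d : ℕ} (hd : d = 2 ^ a + 2 ^ b + 2 ^ c)
    (hU : UIso (Tgood d) (Sh.node (Sh.full a) (Sh.full b), Sh.full c)) :
    (∃ T : FST d, UIso T.top (Tgood d) ∧ T.ndg ∧ ∀ T' : FST d, T.length ≤ T'.length) ∧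
    ∀ T : FST d, (∀ T' : FST d, T.length ≤ T'.length) → UIso T.top (Tgood d) := by
  obtain ⟨μ, ν, hμ, hν, h1, h2, h3⟩ := exists_mu (1 / 2 ^ a) (1 / 2 ^ b) (1 / 2 ^ c)
    (by positivity) (by positivity) (by positivity)
  obtain ⟨T₀, t1, t2, t3⟩ := exists_star a b c hd
  have hlow : ∀ T : FST d, _ := fun T => lower_gen (L := L3 a b c μ ν) (L3_nonneg _ _ _ _ _)
    (by rw [L3_length, hd]) (fun r _ => by
      have e := ZZ_uiso (1 + r ^ 2, 1) hU
      unfold Tgood at e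
      rw [good_eq] at e
      rw [e, ZZ_star r a b c μ ν hμ hν h1 h2]) T
  have hsum : T₀.length = (L3 a b c μ ν).sum := by
    rw [t2, L3, List.sum_cons, List.sum_cons, List.sum_cons, List.sum_append, List.sum_append,
      ← h3]
    ring
  have htop : UIso T₀.top (Tgood d) := t1 ▸ hU.symm
  refine ⟨⟨T₀, htop, t3, fun T' => hsum ▸ (hlow T').1⟩, fun T hT => ?_⟩
  have h := (hlow T).2 (le_antisymm (hsum ▸ hT T₀) (hlow T).1)
  unfold Tgood
  rw [good_eq]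
  exact h

/-- the exact result when `T_d` has two full binary trees joined by an edge -/
theorem exact_two (k : ℕ) {d : ℕ} (hd : d = 2 ^ (k + 1))
    (hU : Tgood d = (Sh.full k, Sh.full k)) :
    (∃ T : FST d, UIso T.top (Tgood d) ∧ T.ndg ∧ ∀ T' : FST d, T.length ≤ T'.length) ∧
    ∀ T : FST d, (∀ T' : FST d, T.length ≤ T'.length) → UIso T.top (Tgood d) := by
  subst hd
  obtain ⟨T₀, h1, h2, h3⟩ := exists_optimal k
  refine ⟨⟨T₀, ?_, h3, fun T' => h2 ▸ (lower_full k T').1⟩, fun T hT => ?_⟩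
  · rw [h1, hU]
    exact UIso.refl _
  · rw [hU]
    refine (lower_full k T).2 (le_antisymm ?_ (lower_full k T).1)
    exact h2 ▸ hT T₀

theorem exact_main (k m : ℕ) (hm : m = 2 ∨ m = 3 ∨ m = 5 ∨ m = 7 ∨ m = 11) :
    (∃ T : FST (m * 2 ^ k), UIso T.top (Tgood (m * 2 ^ k)) ∧ T.ndg ∧
      ∀ T' : FST (m * 2 ^ k), T.length ≤ T'.length) ∧
    ∀ T : FST (m * 2 ^ k), (∀ T' : FST (m * 2 ^ k), T.length ≤ T'.length) →
      UIso T.top (Tgood (m * 2 ^ k)) := by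
  rcases hm with rfl | rfl | rfl | rfl | rfl
  · exact exact_two k (by ring) (Tgood_two k)
  · exact exact_star k k k (by ring) (Tgood_three k)
  · exact exact_star k (k + 1) (k + 1) (by ring) (Tgood_five k)
  · exact exact_star k (k + 1) (k + 2) (by ring) (Tgood_seven k)
  · exact exact_star k (k + 1) (k + 3) (by ring) (Tgood_eleven k)

end Pool.Agent.Helper877_Smith
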