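import Pool.Agent.Helper877_Smith.Shapes

/-!
# The general exchange argument, and weights of rooted trees (seat helper877, MP_ebc12b_co)
-/

set_option autoImplicit false

namespace Pool.Agent.Helper877_Smith

/-- the exchange inequality for four branches -/
theorem exchange_alg4 {a1 a2 b1 b2 x1 x2 y1 y2 B11 B12 B21 B22 : ℝ}
    (ha1 : 0 < a1) (ha2 : 0 < a2) (hb1 : 0 < b1) (hb2 : 0 < b2)
    (hx1 : 0 < x1) (hx2 : 0 < x2) (hy1 : 0 < y1) (hy2 : 0 < y2)
    (hbx : b1 * x2 < b2 * x1) (hay : a1 * y2 < a2 * y1)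
    (hS : 0 < B11 - (B12 + B21) / 2 + B22 / 4) :
    ∀ B : ℝ × ℝ → ℝ × ℝ → ℝ,
      (∀ u v, B u v = B11 * u.1 * v.1 + B12 * u.1 * v.2 + B21 * u.2 * v.1 + B22 * u.2 * v.2) →
      B (mulV (b1, b2) (a1, a2)) (mulV (y1, y2) (x1, x2)) <
          B (mulV (x1, x2) (a1, a2)) (mulV (y1, y2) (b1, b2)) ∨
        B (mulV (x1, x2) (y1, y2)) (mulV (a1, a2) (b1, b2)) <
          B (mulV (x1, x2) (a1, a2)) (mulV (y1, y2) (b1, b2)) := by
  intro B hB
  have h1 : 0 < (b2 * x1 - b1 * x2) * (a2 * y1 - a1 * y2) *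
      (B11 - (B12 + B21) / 2 + B22 / 4) / 4 :=
    div_pos (mul_pos (mul_pos (sub_pos.2 hbx) (sub_pos.2 hay)) hS) (by norm_num)
  rcases le_total 0 ((B12 - B21) / 2) with hk | hk
  · left
    have h2 : B (mulV (x1, x2) (a1, a2)) (mulV (y1, y2) (b1, b2)) -
        B (mulV (b1, b2) (a1, a2)) (mulV (y1, y2) (x1, x2)) =
        (b2 * x1 - b1 * x2) * (a2 * y1 - a1 * y2) * (B11 - (B12 + B21) / 2 + B22 / 4) / 4 +
        (B12 - B21) / 2 * ((b2 * x1 - b1 * x2) *
          (2 * a1 * y1 + a1 * y2 + a2 * y1 + a2 * y2 / 2) / 4) := by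
      rw [hB, hB]
      simp only [mulV]
      ring
    have h3 : 0 ≤ (B12 - B21) / 2 * ((b2 * x1 - b1 * x2) *
          (2 * a1 * y1 + a1 * y2 + a2 * y1 + a2 * y2 / 2) / 4) := by
      refine mul_nonneg hk (div_nonneg (mul_nonneg (sub_pos.2 hbx).le ?_) (by norm_num))
      positivity
    linarith
  · right
    have h2 : B (mulV (x1, x2) (a1, a2)) (mulV (y1, y2) (b1, b2)) -
        B (mulV (x1, x2) (y1, y2)) (mulV (a1, a2) (b1, b2)) =
        (b2 * x1 - b1 * x2) * (a2 * y1 - a1 * y2) * (B11 - (B12 + B21) / 2 + B22 / 4) / 4 +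
        (-((B12 - B21) / 2)) * ((a2 * y1 - a1 * y2) *
          (2 * b1 * x1 + b2 * x1 + b1 * x2 + b2 * x2 / 2) / 4) := by
      rw [hB, hB]
      simp only [mulV]
      ring
    have h3 : 0 ≤ (-((B12 - B21) / 2)) * ((a2 * y1 - a1 * y2) *
          (2 * b1 * x1 + b2 * x1 + b1 * x2 + b2 * x2 / 2) / 4) := by
      refine mul_nonneg (neg_nonneg.2 hk)
        (div_nonneg (mul_nonneg (sub_pos.2 hay).le ?_) (by norm_num))
      positivity
    linarith

/-- the weight of a rooted tree -/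
noncomputable def wt (P : ℝ × ℝ) (s : Sh) : ℝ := (val P s).1 / (val P s).2

/-- composition of weights -/
noncomputable def cF (X Y : ℝ) : ℝ := (4 * X * Y - 1) / (X + Y + 1)

theorem cF_comm (X Y : ℝ) : cF X Y = cF Y X := by
  unfold cF
  rw [show 4 * X * Y = 4 * Y * X by ring, add_comm X Y]

theorem cF_lt {X X' Y : ℝ} (hX : 0 < X) (hY : 0 < Y) (h : X < X') : cF X Y < cF X' Y := by
  unfold cF
  have hX' : 0 < X' := hX.trans h
  rw [div_lt_div_iff₀ (by positivity) (by positivity)]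
  have h1 : 0 < (X' - X) * (2 * Y + 1) ^ 2 := mul_pos (sub_pos.2 h) (by positivity)
  nlinarith [h1]

theorem cF_lt' {X Y Y' : ℝ} (hX : 0 < X) (hY : 0 < Y) (h : Y < Y') : cF X Y < cF X Y' := by
  rw [cF_comm X Y, cF_comm X Y']
  exact cF_lt hY hX h

theorem cF_le {X X' Y Y' : ℝ} (hX : 0 < X) (hY : 0 < Y) (h : X ≤ X') (h' : Y ≤ Y') :
    cF X Y ≤ cF X' Y' := by
  have h1 : cF X Y ≤ cF X' Y := by
    rcases h.eq_or_lt with rfl | h
    · exact le_rfl
    · exact (cF_lt hX hY h).le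
  have h2 : cF X' Y ≤ cF X' Y' := by
    rcases h'.eq_or_lt with rfl | h'
    · exact le_rfl
    · exact (cF_lt' (hX.trans_le h) hY h').le
  exact h1.trans h2

theorem cF_lt2 {X X' Y Y' : ℝ} (hX : 0 < X) (hY : 0 < Y) (h : X < X') (h' : Y < Y') :
    cF X Y < cF X' Y' :=
  (cF_lt hX hY h).trans (cF_lt' (hX.trans h) hY h')

theorem cF_self {X : ℝ} (hX : 0 < X) : cF X X = 2 * X - 1 := by
  unfold cF
  rw [div_eq_iff (by positivity)]
  ring

theorem one_lt_cF {X Y : ℝ} (hX : 1 < X) (hY : 1 < Y) : 1 < cF X Y := by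
  have h := cF_lt2 zero_lt_one zero_lt_one hX hY
  rw [cF_self zero_lt_one] at h
  linarith

theorem wt_node {P : ℝ × ℝ} (hP : 0 < P.2) (hP' : P.2 < P.1) (l r : Sh) :
    wt P (Sh.node l r) = cF (wt P l) (wt P r) := by
  have hl := val_pos hP hP' l
  have hr := val_pos hP hP' r
  unfold wt cF
  rw [show val P (Sh.node l r) = mulV (val P l) (val P r) from rfl]
  unfold mulV
  simp only
  have h1 := hl.1
  have h2 := hl.2.1
  have h3 := hr.1
  have h4 := hr.2.1
  field_simp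

theorem one_lt_wt {P : ℝ × ℝ} (hP : 0 < P.2) (hP' : P.2 < P.1) (s : Sh) : 1 < wt P s := by
  unfold wt
  rw [one_lt_div (val_pos hP hP' s).2.1]
  exact val_lt hP hP' s

/-- The exchange argument: if `b` is lighter than `x` and `a` is lighter than `y`, then the tree
with `x, a` at one vertex and `y, b` at another one is not optimal. -/
theorem exchange4 {P : ℝ × ℝ} (hP : 0 < P.2) (hP' : P.2 < P.1) {x a y b : Sh}
    (hbx : wt P b < wt P x) (hay : wt P a < wt P y) (L : List Sh) :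
    ∃ T' : Sh × Sh, T'.1.size + T'.2.size =
        (Sh.node x a).size + (comb L (Sh.node y b)).size ∧
      ZZ P T' < ZZ P (Sh.node x a, comb L (Sh.node y b)) := by
  have pa := val_pos hP hP' a
  have pb := val_pos hP hP' b
  have px := val_pos hP hP' x
  have py := val_pos hP hP' y
  unfold wt at hbx hay
  rw [div_lt_div_iff₀ pb.2.1 px.2.1] at hbx
  rw [div_lt_div_iff₀ pa.2.1 py.2.1] at hay
  rcases hva : val P a with ⟨a1, a2⟩
  rcases hvb : val P b with ⟨b1, b2⟩
  rcases hvx : val P x with ⟨x1, x2⟩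
  rcases hvy : val P y with ⟨y1, y2⟩
  rw [hva] at pa hay
  rw [hvb] at pb hbx
  rw [hvx] at px hbx
  rw [hvy] at py hay
  simp only at pa pb px py hbx hay
  set M := L.map (val P) with hM
  have hML : ∀ Z ∈ M, 0 < Z.2 ∧ Z.2 < Z.1 := by
    intro Z hZ
    rw [hM, List.mem_map] at hZ
    obtain ⟨s, -, rfl⟩ := hZ
    exact ⟨(val_pos hP hP' s).2.1, val_lt hP hP' s⟩
  have hcone := act_cone M hML (w := (1, -1 / 2)) (by norm_num) (by norm_num) (by norm_num)
  have hS : 0 < (act M (1, 0)).1 - ((act M (0, 1)).1 + -(act M (1, 0)).2) / 2 +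
      (-(act M (0, 1)).2) / 4 := by
    have hl := act_lin M (1, -1 / 2)
    simp only at hl
    rw [hl.1, hl.2] at hcone
    linarith [hcone.1, hcone.2.1]
  have hB : ∀ u v : ℝ × ℝ, ip u (act M v) = (act M (1, 0)).1 * u.1 * v.1 +
      (act M (0, 1)).1 * u.1 * v.2 + (-(act M (1, 0)).2) * u.2 * v.1 +
      (-(act M (0, 1)).2) * u.2 * v.2 := by
    intro u v
    have hl := act_lin M v
    unfold ip
    rw [hl.1, hl.2]
    ring
  have hZ0 : ZZ P (Sh.node x a, comb L (Sh.node y b)) =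
      ip (mulV (x1, x2) (a1, a2)) (act M (mulV (y1, y2) (b1, b2))) := by
    unfold ZZ
    simp only [val, val_comb, hva, hvb, hvx, hvy, ← hM]
  have hex := exchange_alg4 pa.1 pa.2.1 pb.1 pb.2.1 px.1 px.2.1 py.1 py.2.1
    (by linarith [mul_comm b2 x1, mul_comm b1 x2]) (by linarith [mul_comm a2 y1]) hS
    (fun u v => ip u (act M v)) hB
  rcases hex with h | h
  · refine ⟨(Sh.node b a, comb L (Sh.node y x)), ?_, ?_⟩
    · simp only [Sh.size, size_comb]; omega
    · rw [hZ0]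
      unfold ZZ
      simp only [val, val_comb, hva, hvb, hvx, hvy, ← hM]
      exact h
  · refine ⟨(Sh.node x y, comb L (Sh.node a b)), ?_, ?_⟩
    · simp only [Sh.size, size_comb]; omega
    · rw [hZ0]
      unfold ZZ
      simp only [val, val_comb, hva, hvb, hvx, hvy, ← hM]
      exact h

end Pool.Agent.Helper877_Smith
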