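import Mathlib

/-!
# Square roots of positive semidefinite matrices (seat helper877, MP_ebc12b_co)
-/

set_option autoImplicit false

namespace Pool.Agent.Helper877_Smith

open Matrix

theorem exists_sqrt {J : Type} [Fintype J] [DecidableEq J] (M : Matrix J J ℝ)
    (hM : M.PosSemidef) :
    ∃ (Y : Matrix J J ℝ) (s : J → ℝ), Yᵀ = Y ∧ Y * Y = M ∧ (∀ j, 0 ≤ s j) ∧
      Y.trace = ∑ j, s j ∧ ∀ t : ℝ, (t • (1 : Matrix J J ℝ) + M).det = ∏ j, (t + s j ^ 2) := by
  have hH : M.IsHermitian := hM.isHermitian
  set U : Matrix J J ℝ := (hH.eigenvectorUnitary : Matrix J J ℝ) with hU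
  have hU1 : star U * U = 1 := Unitary.coe_star_mul_self hH.eigenvectorUnitary
  have hU2 : U * star U = 1 := Unitary.coe_mul_star_self hH.eigenvectorUnitary
  have hMU : M = U * diagonal hH.eigenvalues * star U := by
    have h := hH.spectral_theorem
    rw [Unitary.conjStarAlgAut_apply] at h
    exact h
  have hev : ∀ j, 0 ≤ hH.eigenvalues j := fun j => hM.eigenvalues_nonneg j
  refine ⟨U * diagonal (fun j => Real.sqrt (hH.eigenvalues j)) * star U,
    fun j => Real.sqrt (hH.eigenvalues j), ?_, ?_, fun j => Real.sqrt_nonneg _, ?_, ?_⟩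
  · have hs : star U = Uᵀ := by
      rw [star_eq_conjTranspose, conjTranspose_eq_transpose_of_trivial]
    rw [hs, transpose_mul, transpose_mul, transpose_transpose, diagonal_transpose,
      Matrix.mul_assoc]
  · calc U * diagonal (fun j => Real.sqrt (hH.eigenvalues j)) * star U *
          (U * diagonal (fun j => Real.sqrt (hH.eigenvalues j)) * star U)
        = U * diagonal (fun j => Real.sqrt (hH.eigenvalues j)) * (star U * U) *
          diagonal (fun j => Real.sqrt (hH.eigenvalues j)) * star U := by
          simp only [Matrix.mul_assoc]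
      _ = U * (diagonal (fun j => Real.sqrt (hH.eigenvalues j)) *
          diagonal (fun j => Real.sqrt (hH.eigenvalues j))) * star U := by
          rw [hU1, Matrix.mul_one, Matrix.mul_assoc U]
      _ = U * diagonal hH.eigenvalues * star U := by
          rw [diagonal_mul_diagonal]
          congr 3
          funext j
          exact Real.mul_self_sqrt (hev j)
      _ = M := hMU.symm
  · rw [trace_mul_comm, ← Matrix.mul_assoc, hU1, Matrix.one_mul, trace_diagonal]
  · intro t
    have h1 : t • (1 : Matrix J J ℝ) + M =
        U * diagonal (fun j => t + Real.sqrt (hH.eigenvalues j) ^ 2) * star U := by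
      have h2 : diagonal (fun j => t + Real.sqrt (hH.eigenvalues j) ^ 2) =
          t • (1 : Matrix J J ℝ) + diagonal hH.eigenvalues := by
        rw [← diagonal_one, ← diagonal_smul, diagonal_add]
        congr 1
        funext j
        rw [Real.sq_sqrt (hev j)]
        simp
      rw [h2, Matrix.mul_add, Matrix.add_mul, ← hMU, Matrix.mul_smul, Matrix.smul_mul,
        Matrix.mul_one, hU2]
    rw [h1, det_mul, det_mul, mul_comm (det U), mul_assoc, ← det_mul, hU2, det_one, mul_one,
      det_diagonal]

end Pool.Agent.Helper877_Smith
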