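import Pool.Agent.Helper877_Smith.Mat
import Pool.Agent.Helper877_Smith.Spec

/-!
# Full Steiner trees for the vertices of a regular simplex; the lower bound for their length
(seat helper877, MP_ebc12b_co)
-/

set_option autoImplicit false

namespace Pool.Agent.Helper877_Smith

open Matrix

/-- The Euclidean space `ℝ^d`. -/
abbrev Sp (d : ℕ) : Type := EuclideanSpace ℝ (Fin d)

/-- The terminal `e_i`, a vertex of the regular simplex with `d` vertices. -/
noncomputable def tm {d : ℕ} (i : Fin d) : Sp d := EuclideanSpace.single i 1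

/-- A branch of a full Steiner tree in `ℝ^d`: either the terminal `e_i`, or a Steiner point at the
position `x` together with the two branches that hang from it. -/
inductive Br (d : ℕ) : Type
  | term (i : Fin d) : Br d
  | pt (x : Sp d) (l r : Br d) : Br d

namespace Br

variable {d : ℕ}

/-- The position of the root of a branch. -/
noncomputable def pos : Br d → Sp d
  | term i => tm i
  | pt x _ _ => x

/-- The total Euclidean length of the edges of a branch. -/
noncomputable def len : Br d → ℝ
  | term _ => 0
  | pt x l r => dist x l.pos + dist x r.pos + l.len + r.len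

/-- The unlabelled rooted binary tree underlying a branch. -/
def shape : Br d → Sh
  | term _ => Sh.leaf
  | pt _ l r => Sh.node l.shape r.shape

/-- The terminals of a branch, with multiplicities. -/
def terms : Br d → Multiset (Fin d)
  | term i => {i}
  | pt _ l r => l.terms + r.terms

/-- All edges of the branch have positive length. -/
def ndg : Br d → Prop
  | term _ => True
  | pt x l r => x ≠ l.pos ∧ x ≠ r.pos ∧ l.ndg ∧ r.ndg

end Br

/-- A full Steiner tree for the terminals `e_1, ..., e_d` in `ℝ^d`, given by two branches whose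
roots are joined by an edge. Every terminal occurs exactly once (as a leaf), and every Steiner
point has degree three. The positions of the Steiner points are arbitrary, edges of length zero
are allowed. Every full Steiner tree with at least two terminals is of this form, for each of its
edges. -/
structure FST (d : ℕ) where
  /-- the branch on one side of the distinguished edge -/
  left : Br d
  /-- the branch on the other side of the distinguished edge -/
  right : Br d
  /-- every terminal occurs exactly once -/
  once : left.terms + right.terms = Finset.univ.val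

namespace FST

variable {d : ℕ}

/-- The total Euclidean length of all edges of a full Steiner tree. -/
noncomputable def length (T : FST d) : ℝ :=
  dist T.left.pos T.right.pos + T.left.len + T.right.len

/-- The topology of a full Steiner tree, as a pair of rooted binary trees joined by an edge. -/
def top (T : FST d) : Sh × Sh := (T.left.shape, T.right.shape)

/-- All edges of the tree have positive length. -/
def ndg (T : FST d) : Prop := T.left.pos ≠ T.right.pos ∧ T.left.ndg ∧ T.right.ndg

end FST

/-! ### The lower bound -/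

section

variable {d : ℕ}

/-- labels of the leaves -/
def lab : (b : Br d) → Lf b.shape → Fin d
  | Br.term i => fun _ => i
  | Br.pt _ l r => Sum.elim (lab l) (lab r)

theorem card_terms (b : Br d) : b.terms.card = b.shape.size := by
  induction b with
  | term i => rfl
  | pt x l r hl hr => simp only [Br.terms, Br.shape, Sh.size, Multiset.card_add, hl, hr]

theorem lab_mem (b : Br d) (i : Lf b.shape) : lab b i ∈ b.terms := by
  induction b with
  | term i => exact Multiset.mem_singleton_self _
  | pt x l r hl hr =>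
    rcases i with i | i
    · exact Multiset.mem_add.2 (Or.inl (hl i))
    · exact Multiset.mem_add.2 (Or.inr (hr i))

theorem lab_inj (b : Br d) (h : b.terms.Nodup) : Function.Injective (lab b) := by
  induction b with
  | term i => intro a b _; rfl
  | pt x l r hl hr =>
    rw [Br.terms, Multiset.nodup_add] at h
    obtain ⟨h1, h2, h3⟩ := h
    intro i j hij
    rcases i with i | i <;> rcases j with j | j
    · exact congrArg Sum.inl (hl h1 hij)
    · exact absurd (hij ▸ lab_mem r j) (fun hh =>
        Multiset.disjoint_left.1 h3 (lab_mem l i) hh)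
    · exact absurd (hij ▸ lab_mem r i) (fun hh =>
        Multiset.disjoint_left.1 h3 (lab_mem l j) hh)
    · exact congrArg Sum.inr (hr h2 hij)

theorem norm_sum_sq {J : Type} [Fintype J] (M : Matrix J J ℝ) (y : J → Sp d)
    (hy : ∀ i j, inner ℝ (y i) (y j) = M i j) : ‖∑ i, y i‖ ^ 2 = ∑ i, ∑ j, M i j := by
  rw [← real_inner_self_eq_norm_sq, sum_inner]
  refine Finset.sum_congr rfl fun i _ => ?_
  rw [inner_sum]
  exact Finset.sum_congr rfl fun j _ => hy i j

/-- the dual bound for a branch -/
theorem dual_branch (b : Br d) : ∀ y : Lf b.shape → Sp d,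
    (∀ i j, inner ℝ (y i) (y j) = Mt b.shape i j) →
    ∑ i, inner ℝ (y i) (tm (lab b i)) ≤ b.len + inner ℝ (∑ i, y i) b.pos := by
  induction b with
  | term i =>
    intro y _
    show ∑ j : Unit, inner ℝ (y j) (tm i) ≤ 0 + inner ℝ (∑ j : Unit, y j) (tm i)
    simp
  | pt x l r hl hr =>
    intro y hy
    obtain ⟨yl, hyl⟩ : ∃ yl : Lf l.shape → Sp d, yl = fun i => y (Sum.inl i) := ⟨_, rfl⟩
    obtain ⟨yr, hyr⟩ : ∃ yr : Lf r.shape → Sp d, yr = fun i => y (Sum.inr i) := ⟨_, rfl⟩
    have gl : ∀ i j, inner ℝ (yl i) (yl j) = Mt l.shape i j := by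
      intro i j
      rw [hyl]
      exact hy (Sum.inl i) (Sum.inl j)
    have gr : ∀ i j, inner ℝ (yr i) (yr j) = Mt r.shape i j := by
      intro i j
      rw [hyr]
      exact hy (Sum.inr i) (Sum.inr j)
    have h1 := hl yl gl
    have h2 := hr yr gr
    have n1 : ‖∑ i, yl i‖ = 1 := by
      have h := norm_sum_sq _ yl gl
      rw [sum_Mt] at h
      exact (pow_eq_one_iff_of_nonneg (norm_nonneg _) two_ne_zero).1 h
    have n2 : ‖∑ i, yr i‖ = 1 := by
      have h := norm_sum_sq _ yr gr
      rw [sum_Mt] at h
      exact (pow_eq_one_iff_of_nonneg (norm_nonneg _) two_ne_zero).1 h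
    have e1 : ∑ i, inner ℝ (y i) (tm (lab (Br.pt x l r) i)) =
        ∑ i, inner ℝ (yl i) (tm (lab l i)) + ∑ i, inner ℝ (yr i) (tm (lab r i)) := by
      rw [hyl, hyr]
      exact Fintype.sum_sum_type _
    have e2 : ∑ i, y i = ∑ i, yl i + ∑ i, yr i := by
      rw [hyl, hyr]
      exact Fintype.sum_sum_type _
    rw [e1, e2, inner_add_left]
    have c1 : inner ℝ (∑ i, yl i) l.pos ≤ dist x l.pos + inner ℝ (∑ i, yl i) x := by
      have h3 : inner ℝ (∑ i, yl i) (l.pos - x) ≤ ‖∑ i, yl i‖ * ‖l.pos - x‖ :=
        real_inner_le_norm _ _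
      rw [n1, one_mul, inner_sub_right, ← dist_eq_norm, dist_comm] at h3
      linarith
    have c2 : inner ℝ (∑ i, yr i) r.pos ≤ dist x r.pos + inner ℝ (∑ i, yr i) x := by
      have h3 : inner ℝ (∑ i, yr i) (r.pos - x) ≤ ‖∑ i, yr i‖ * ‖r.pos - x‖ :=
        real_inner_le_norm _ _
      rw [n2, one_mul, inner_sub_right, ← dist_eq_norm, dist_comm] at h3
      linarith
    rw [show (Br.pt x l r).len = dist x l.pos + dist x r.pos + l.len + r.len from rfl,
      show (Br.pt x l r).pos = x from rfl]
    linarith

/-- the dual bound for a full Steiner tree -/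
theorem dual_tree (A B : Br d) (y : Lf A.shape ⊕ Lf B.shape → Sp d)
    (hy : ∀ i j, inner ℝ (y i) (y j) = MT A.shape B.shape i j) :
    ∑ i, inner ℝ (y i) (tm (Sum.elim (lab A) (lab B) i)) ≤
      dist A.pos B.pos + A.len + B.len := by
  obtain ⟨yl, hyl⟩ : ∃ yl : Lf A.shape → Sp d, yl = fun i => y (Sum.inl i) := ⟨_, rfl⟩
  obtain ⟨yr, hyr⟩ : ∃ yr : Lf B.shape → Sp d, yr = fun i => y (Sum.inr i) := ⟨_, rfl⟩
  have gl : ∀ i j, inner ℝ (yl i) (yl j) = Mt A.shape i j := by
    intro i j
    rw [hyl]
    exact hy (Sum.inl i) (Sum.inl j)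
  have gr : ∀ i j, inner ℝ (yr i) (yr j) = Mt B.shape i j := by
    intro i j
    rw [hyr]
    exact hy (Sum.inr i) (Sum.inr j)
  have h1 := dual_branch A yl gl
  have h2 := dual_branch B yr gr
  have n1 : ‖∑ i, yl i‖ = 1 := by
    have h := norm_sum_sq _ yl gl
    rw [sum_Mt] at h
    exact (pow_eq_one_iff_of_nonneg (norm_nonneg _) two_ne_zero).1 h
  have e2 : ∑ i, y i = ∑ i, yl i + ∑ i, yr i := by
    rw [hyl, hyr]
    exact Fintype.sum_sum_type _
  have e3 : ∑ i, yr i = -∑ i, yl i := by
    have h := norm_sum_sq _ y hy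
    rw [sum_MT] at h
    have h0 : ∑ i, y i = 0 := norm_eq_zero.1 (pow_eq_zero_iff (two_ne_zero)|>.1 h)
    rw [e2] at h0
    exact (neg_eq_of_add_eq_zero_right h0).symm
  have e1 : ∑ i, inner ℝ (y i) (tm (Sum.elim (lab A) (lab B) i)) =
      ∑ i, inner ℝ (yl i) (tm (lab A i)) + ∑ i, inner ℝ (yr i) (tm (lab B i)) := by
    rw [hyl, hyr]
    exact Fintype.sum_sum_type _
  rw [e1]
  rw [e3, inner_neg_left] at h2
  have c1 : inner ℝ (∑ i, yl i) A.pos - inner ℝ (∑ i, yl i) B.pos ≤ dist A.pos B.pos := by
    have h3 : inner ℝ (∑ i, yl i) (A.pos - B.pos) ≤ ‖∑ i, yl i‖ * ‖A.pos - B.pos‖ :=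
      real_inner_le_norm _ _
    rw [n1, one_mul, inner_sub_right, ← dist_eq_norm] at h3
    exact h3
  linarith

theorem tm_orthonormal : Orthonormal ℝ (tm : Fin d → Sp d) :=
  EuclideanSpace.orthonormal_single

/-- The lower bound: the length of a full Steiner tree is at least the sum of the square roots of
the eigenvalues of its matrix. -/
theorem lower (T : FST d) : ∃ L : List ℝ, (∀ s ∈ L, 0 ≤ s) ∧
    L.length = T.left.shape.size + T.right.shape.size ∧ L.sum ≤ T.length ∧
    ∀ r : ℝ, 0 < r → (L.map (fun s => r ^ 2 + s ^ 2)).prod = ZZ (1 + r ^ 2, 1) T.top := by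
  obtain ⟨Y, s, hYt, hYY, hs, htr, hdet⟩ := exists_sqrt (MT T.left.shape T.right.shape)
    (MT_psd _ _)
  have hnd : (T.left.terms + T.right.terms).Nodup := by
    rw [T.once]
    exact Finset.univ.nodup
  rw [Multiset.nodup_add] at hnd
  have hinj : Function.Injective (Sum.elim (lab T.left) (lab T.right)) := by
    refine Function.Injective.sumElim (lab_inj _ hnd.1) (lab_inj _ hnd.2.1) fun i j h => ?_
    exact Multiset.disjoint_left.1 hnd.2.2 (lab_mem T.left i) (h ▸ lab_mem T.right j)
  have hon : Orthonormal ℝ (fun i => tm (Sum.elim (lab T.left) (lab T.right) i) :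
      Lf T.left.shape ⊕ Lf T.right.shape → Sp d) := tm_orthonormal.comp _ hinj
  have hd := dual_tree T.left T.right
    (fun i => ∑ j, Y i j • tm (Sum.elim (lab T.left) (lab T.right) j)) (by
      intro i j
      rw [hon.inner_sum]
      simp only [conj_trivial]
      rw [← hYY, Matrix.mul_apply]
      refine Finset.sum_congr rfl fun k _ => ?_
      rw [← hYt, Matrix.transpose_apply, Matrix.transpose_apply, hYt])
  have hsum : ∑ i, inner ℝ (∑ j, Y i j • tm (Sum.elim (lab T.left) (lab T.right) j))
      (tm (Sum.elim (lab T.left) (lab T.right) i) : Sp d) = ∑ i, s i := by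
    rw [← htr]
    refine Finset.sum_congr rfl fun i _ => ?_
    rw [hon.inner_left_fintype]
    simp
  rw [hsum] at hd
  refine ⟨Finset.univ.toList.map s, ?_, ?_, ?_, ?_⟩
  · intro a ha
    rw [List.mem_map] at ha
    obtain ⟨i, -, rfl⟩ := ha
    exact hs i
  · rw [List.length_map, Finset.length_toList, Finset.card_univ, Fintype.card_sum, card_Lf,
      card_Lf]
  · rw [Finset.sum_map_toList]
    exact hd
  · intro r hr
    rw [List.map_map]
    have h1 : (List.map ((fun s => r ^ 2 + s ^ 2) ∘ s) Finset.univ.toList).prod =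
        ∏ i, (r ^ 2 + s i ^ 2) := Finset.prod_map_toList _ _
    rw [h1, ← hdet, det_MT (by positivity)]
    rfl

end

end Pool.Agent.Helper877_Smith
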