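import Pool.Agent.Helper877_Smith.Geo

/-!
# Every connected network containing the terminals is at least as long as some full Steiner tree
(seat helper877, MP_ebc12b_co)
-/

set_option autoImplicit false

namespace Pool.Agent.Helper877_Smith

open Classical in
/-- The total Euclidean length of the edges of a straight-line network: a finite graph `G` with
its vertices placed by `pos`. -/
noncomputable def netLen {d : ℕ} {V : Type} [Fintype V] (G : SimpleGraph V) (pos : V → Sp d) : ℝ :=
  (∑ x, ∑ y, if G.Adj x y then dist (pos x) (pos y) else 0) / 2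

theorem sum_compl_gen {V M : Type} [AddCommMonoid M] [Fintype V] (v : V)
    [Fintype ↑({v}ᶜ : Set V)] (F : V → M) :
    ∑ x, F x = F v + ∑ x : ↑({v}ᶜ : Set V), F x := by
  classical
  rw [Fintype.sum_eq_add_sum_subtype_ne F v]
  congr 1
  let e : {i // i ≠ v} ≃ ↑({v}ᶜ : Set V) := Equiv.subtypeEquivRight (fun i => by simp)
  exact Fintype.sum_equiv e _ _ (fun x => rfl)

variable {d : ℕ}

theorem netLen_nonneg {V : Type} [Fintype V] (G : SimpleGraph V) (pos : V → Sp d) :
    0 ≤ netLen G pos := by
  unfold netLen
  refine div_nonneg (Finset.sum_nonneg fun x _ => Finset.sum_nonneg fun y _ => ?_) (by norm_num)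
  split_ifs <;> positivity

theorem netLen_remove {V : Type} [Fintype V] (G : SimpleGraph V) (pos : V → Sp d)
    {u v : V} (huv : G.Adj u v) [Fintype ↑({v}ᶜ : Set V)] :
    netLen (G.induce {v}ᶜ) (fun x => pos x) + dist (pos v) (pos u) ≤ netLen G pos := by
  classical
  unfold netLen
  set f : V → V → ℝ := fun x y => if G.Adj x y then dist (pos x) (pos y) else 0 with hf
  have hf0 : ∀ x y, 0 ≤ f x y := by
    intro x y; simp only [hf]; split_ifs <;> positivity
  have e0 : (∑ x, ∑ y, if G.Adj x y then dist (pos x) (pos y) else 0) = ∑ x, ∑ y, f x y := by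
    apply Finset.sum_congr rfl; intro x _; apply Finset.sum_congr rfl; intro y _
    simp only [hf]
  have e1 : ∑ x, ∑ y, f x y = ∑ y, f v y + ∑ x : ↑({v}ᶜ : Set V), ∑ y, f x y :=
    sum_compl_gen v _
  have e2 : ∀ x : ↑({v}ᶜ : Set V), ∑ y, f x y = f x v + ∑ y : ↑({v}ᶜ : Set V), f x y :=
    fun x => sum_compl_gen v _
  have huv' : u ∈ ({v}ᶜ : Set V) := by
    simp only [Set.mem_compl_iff, Set.mem_singleton_iff]
    exact huv.ne
  have e3 : dist (pos v) (pos u) ≤ ∑ y, f v y := by
    have : dist (pos v) (pos u) = f v u := by simp [hf, huv.symm]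
    rw [this]
    exact Finset.single_le_sum (f := fun y => f v y) (fun y _ => hf0 v y) (Finset.mem_univ u)
  have e4 : dist (pos v) (pos u) ≤ ∑ x : ↑({v}ᶜ : Set V), f x v := by
    have : dist (pos v) (pos u) = f ((⟨u, huv'⟩ : ↑({v}ᶜ : Set V)) : V) v := by
      simp [hf, huv, dist_comm]
    rw [this]
    exact Finset.single_le_sum (f := fun x : ↑({v}ᶜ : Set V) => f x v) (fun y _ => hf0 _ _)
      (Finset.mem_univ _)
  have e5 : (∑ x : ↑({v}ᶜ : Set V), ∑ y : ↑({v}ᶜ : Set V),
      if (G.induce {v}ᶜ).Adj x y then dist (pos x) (pos y) else 0)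
      = ∑ x : ↑({v}ᶜ : Set V), ∑ y : ↑({v}ᶜ : Set V), f x y := by
    apply Finset.sum_congr rfl; intro x _; apply Finset.sum_congr rfl; intro y _
    simp only [hf, SimpleGraph.comap_adj, Function.Embedding.subtype_apply]
  rw [e0, e1]
  simp_rw [e2]
  rw [Finset.sum_add_distrib]
  have e6 := e5
  linarith

/-- a branch with terminals `A`, joined to the point `p`, of length at most `l` -/
def Att (A : Multiset (Fin d)) (p : Sp d) (l : ℝ) : Prop :=
  ∃ b : Br d, b.terms = A ∧ b.len + dist p b.pos ≤ l

theorem Att.mono {A : Multiset (Fin d)} {p : Sp d} {l l' : ℝ} (h : Att A p l) (hl : l ≤ l') :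
    Att A p l' := by
  obtain ⟨b, h1, h2⟩ := h
  exact ⟨b, h1, h2.trans hl⟩

theorem Att.move {A : Multiset (Fin d)} {p : Sp d} {l : ℝ} (h : Att A p l) (p' : Sp d) :
    Att A p' (l + dist p p') := by
  obtain ⟨b, h1, h2⟩ := h
  refine ⟨b, h1, ?_⟩
  have h3 := dist_triangle p' p b.pos
  rw [dist_comm p' p] at h3
  linarith

theorem Att.merge {A B : Multiset (Fin d)} {p : Sp d} {l l' : ℝ} (h : Att A p l)
    (h' : Att B p l') : Att (A + B) p (l + l') := by
  obtain ⟨b, h1, h2⟩ := h
  obtain ⟨b', h1', h2'⟩ := h'
  refine ⟨Br.pt p b b', ?_, ?_⟩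
  · show b.terms + b'.terms = _
    rw [h1, h1']
  · show dist p b.pos + dist p b'.pos + b.len + b'.len + dist p p ≤ _
    rw [dist_self]
    linarith

theorem graph_att : ∀ (k : ℕ) (V : Type) [Fintype V] (G : SimpleGraph V)
    (pos : V → Sp d) (A : V → Multiset (Fin d)) (w : V → ℝ),
    Fintype.card V = k → G.Connected →
    (∀ v, 0 ≤ w v ∧ (A v = 0 ∨ Att (A v) (pos v) (w v))) →
    ∃ (p : Sp d) (l : ℝ), 0 ≤ l ∧ ((∑ v, A v) = 0 ∨ Att (∑ v, A v) p l) ∧
      l ≤ netLen G pos + ∑ v, w v := by
  intro k
  induction k with
  | zero =>
    intro V _ G pos A w hk hG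
    exfalso
    have := hG.nonempty
    have := Fintype.card_pos (α := V)
    omega
  | succ k ih =>
    intro V _ G pos A w hk hG hw
    classical
    rcases Nat.eq_zero_or_pos k with rfl | hkpos
    · obtain ⟨v⟩ := hG.nonempty
      have hsub : Subsingleton V := by
        rw [← Fintype.card_le_one_iff_subsingleton]; omega
      have hu : Unique V := ⟨⟨v⟩, fun x => Subsingleton.elim _ _⟩
      have hsum : ∑ x, A x = A v := by
        rw [Fintype.sum_unique]
        exact congrArg A (Subsingleton.elim _ _)
      have hsum' : ∑ x, w x = w v := by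
        rw [Fintype.sum_unique]
        exact congrArg w (Subsingleton.elim _ _)
      refine ⟨pos v, w v, (hw v).1, ?_, ?_⟩
      · rw [hsum]
        exact (hw v).2
      · rw [hsum']
        linarith [netLen_nonneg G pos]
    · have hnt : Nontrivial V := by
        rw [← Fintype.one_lt_card_iff_nontrivial]; omega
      obtain ⟨v, hv⟩ := hG.exists_connected_induce_compl_singleton_of_finite_nontrivial
      obtain ⟨u, hu⟩ : ∃ u, G.Adj u v := by
        obtain ⟨x, hx⟩ := exists_ne v
        obtain ⟨p⟩ := hG.preconnected v x
        cases p with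
        | nil => exact absurd rfl hx
        | cons h p => exact ⟨_, h.symm⟩
      have huv : u ≠ v := hu.ne
      have huv' : u ∈ ({v}ᶜ : Set V) := by simpa using huv
      let V' := ↑({v}ᶜ : Set V)
      have hcard : Fintype.card V' = k := by
        have : Fintype.card V' = Fintype.card V - 1 := by
          rw [Fintype.card_compl_set]; simp
        omega
      let A' : V' → Multiset (Fin d) := fun x => if (x : V) = u then A u + A v else A x
      let w' : V' → ℝ := fun x => if (x : V) = u then w u + (w v + dist (pos v) (pos u)) else w x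
      have hsA : ∑ x : V', A' x = ∑ x, A x := by
        rw [sum_compl_gen v A]
        have : ∀ x : V', A' x = A x + (if x = ⟨u, huv'⟩ then A v else 0) := by
          intro x
          simp only [A']
          by_cases h : (x : V) = u
          · have : x = ⟨u, huv'⟩ := Subtype.ext h
            simp [this]
          · have : x ≠ ⟨u, huv'⟩ := fun h' => h (by rw [h'])
            simp [this, h]
        simp_rw [this]
        rw [Finset.sum_add_distrib]
        simp [add_comm]
        rfl
      obtain ⟨p, l, h2, h3, h4⟩ := ih V' (G.induce {v}ᶜ) (fun x => pos x) A' w' hcard hv (by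
        intro x
        simp only [A', w']
        split_ifs with h
        · have hwu := hw u
          have hwv := hw v
          refine ⟨by have := dist_nonneg (x := pos v) (y := pos u); linarith [hwu.1, hwv.1], ?_⟩
          rcases hwv.2 with hv0 | hvg
          · rcases hwu.2 with hu0 | hug
            · left; simp [hv0, hu0]
            · right
              rw [hv0, add_zero, h]
              exact hug.mono (by have := dist_nonneg (x := pos v) (y := pos u); linarith [hwv.1])
          · right
            rw [h]
            have hmv := hvg.move (pos u)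
            rcases hwu.2 with hu0 | hug
            · rw [hu0, zero_add]
              exact hmv.mono (by linarith [hwu.1])
            · exact hug.merge hmv
        · exact hw x)
      refine ⟨p, l, h2, hsA ▸ h3, ?_⟩
      have e1 : ∑ x, w x = w v + ∑ x : V', w x := sum_compl_gen v _
      have e2 : ∑ x : V', w' x = ∑ x : V', w x + (w v + dist (pos v) (pos u)) := by
        have : ∀ x : V', w' x = w x + (if x = ⟨u, huv'⟩ then w v + dist (pos v) (pos u) else 0) := by
          intro x
          simp only [w']
          by_cases h : (x : V) = u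
          · have : x = ⟨u, huv'⟩ := Subtype.ext h
            simp [this]
          · have : x ≠ ⟨u, huv'⟩ := fun h' => h (by rw [h'])
            simp [this, h]
        simp_rw [this]
        rw [Finset.sum_add_distrib]
        simp
      have e3 := netLen_remove G pos hu
      linarith

/-- Every connected straight-line network which contains the terminals is at least as long as
some full Steiner tree. -/
theorem exists_fst_le (hd : 2 ≤ d) (V : Type) [Fintype V] (G : SimpleGraph V)
    (pos : V → Sp d) (hG : G.Connected) (hcov : ∀ i : Fin d, ∃ v, pos v = tm i) :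
    ∃ T : FST d, T.length ≤ netLen G pos := by
  classical
  choose t ht using hcov
  have htinj : Function.Injective t := by
    intro i j hij
    have h1 : (tm i : Sp d) = tm j := by rw [← ht, ← ht, hij]
    by_contra hne
    have h2 := congrArg (fun z : Sp d => z i) h1
    unfold tm at h2
    simp [hne] at h2
  obtain ⟨p, l, -, h3, h4⟩ := graph_att (Fintype.card V) V G pos
    (fun v => ∑ i, if t i = v then ({i} : Multiset (Fin d)) else 0) (fun _ => 0) rfl hG (by
      intro v
      refine ⟨le_rfl, ?_⟩
      by_cases h : ∃ i, t i = v
      · obtain ⟨i, hi⟩ := h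
        right
        have : (∑ j, if t j = v then ({j} : Multiset (Fin d)) else 0) = {i} := by
          rw [Finset.sum_eq_single i]
          · rw [if_pos hi]
          · intro j _ hj
            rw [if_neg]
            intro h'
            exact hj (htinj (h'.trans hi.symm))
          · intro h'
            exact absurd (Finset.mem_univ i) h'
        rw [this]
        refine ⟨Br.term i, rfl, ?_⟩
        show 0 + dist (pos v) (tm i) ≤ 0
        rw [← hi, ht, dist_self, add_zero]
      · left
        push Not at h
        exact Finset.sum_eq_zero fun j _ => if_neg (h j))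
  have hsum : (∑ v, ∑ i, if t i = v then ({i} : Multiset (Fin d)) else 0) = Finset.univ.val := by
    rw [Finset.sum_comm]
    have : ∀ i : Fin d, (∑ v, if t i = v then ({i} : Multiset (Fin d)) else 0) = {i} := by
      intro i
      rw [Finset.sum_ite_eq]
      simp
    simp_rw [this]
    exact Finset.sum_multiset_singleton _
  rw [hsum] at h3
  have hcard : (Finset.univ : Finset (Fin d)).val.card = d := by
    rw [show (Finset.univ : Finset (Fin d)).val.card = Finset.univ.card from rfl,
      Finset.card_univ, Fintype.card_fin]
  rcases h3 with h3 | ⟨b, h5, h6⟩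
  · rw [h3] at hcard
    simp at hcard
    omega
  · rw [Finset.sum_const_zero, add_zero] at h4
    have hlen : b.len ≤ netLen G pos := by
      have := dist_nonneg (x := p) (y := b.pos)
      linarith
    cases b with
    | term i =>
      have h7 : ({i} : Multiset (Fin d)) = Finset.univ.val := h5
      rw [← h7, Multiset.card_singleton] at hcard
      omega
    | pt x l r =>
      refine ⟨⟨l, r, h5⟩, le_trans ?_ hlen⟩
      show dist l.pos r.pos + l.len + r.len ≤ dist x l.pos + dist x r.pos + l.len + r.len
      have := dist_triangle_left l.pos r.pos x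
      linarith

end Pool.Agent.Helper877_Smith
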