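import Pool.Agent.Helper877_Smith.Star

/-!
# Optimal trees are good binary trees (seat helper877, MP_ebc12b_co)
-/

set_option autoImplicit false

namespace Pool.Agent.Helper877_Smith

open Mk

/-- minimality of the form -/
def Opt (P : ℝ × ℝ) (T : Sh × Sh) : Prop :=
  ∀ T' : Sh × Sh, T'.1.size + T'.2.size = T.1.size + T.2.size → ZZ P T ≤ ZZ P T'

theorem Opt.of_uiso {P : ℝ × ℝ} {S T : Sh × Sh} (hS : Opt P S) (h : UIso S T) : Opt P T := by
  intro T' hT'
  rw [← ZZ_uiso P h]
  exact hS T' (by rw [hT', h.size])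

theorem wt_riso (P : ℝ × ℝ) {s t : Sh} (h : RIso s t) : wt P s = wt P t := by
  unfold wt
  rw [val_riso P h]

section

variable {P : ℝ × ℝ}

theorem Opt.st (hP : 0 < P.2) (hP' : P.2 < P.1) {Q S : Sh} {A B : Mk}
    (h : Opt P (A.ex Q S, B.ex Q S)) : St (fun C => wt P (C.ex Q S)) (A, B) := by
  intro x a y b L hT hlt
  have hu := hT.ex Q S
  simp only [ex_cmb] at hu
  obtain ⟨T', h1, h2⟩ := exchange4 hP hP' hlt.1 hlt.2 (L.map (Mk.ex Q S))
  refine absurd ((h.of_uiso hu) T' ?_) (not_le.2 h2)
  rw [h1]
  rfl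

theorem wt_Wt (hP : 0 < P.2) (hP' : P.2 < P.1) (Q S : Sh) :
    Wt (fun C => wt P (C.ex Q S)) :=
  ⟨fun _ _ => wt_node hP hP' _ _, fun _ => one_lt_wt hP hP' _⟩

end

/-! ### Bounds for weights -/

section

variable {w : Mk → ℝ} (hw : Wt w)

include hw

theorem Wt.ge_of_unmarked {c : Mk} : c.mk = 0 → w (lf false) ≤ w c := by
  induction c with
  | lf b =>
    intro h
    cases b with
    | false => exact le_rfl
    | true => simp [Mk.mk] at h
  | nd l r hl hr =>
    intro h
    simp only [Mk.mk] at h
    have h1 := hl (by omega)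
    have h2 := hr (by omega)
    rw [hw.node]
    refine le_trans ?_ (cF_le (hw.pos _) (hw.pos _) h1 h2)
    rw [cF_self (hw.pos _)]
    linarith [hw.one false]

theorem Wt.ge_node {c : Mk} (hm : c.mk = 0) (hc : ¬ c.isLf) :
    cF (w (lf false)) (w (lf false)) ≤ w c := by
  cases c with
  | lf b => exact absurd trivial hc
  | nd l r =>
    simp only [Mk.mk] at hm
    rw [hw.node]
    exact cF_le (hw.pos _) (hw.pos _) (hw.ge_of_unmarked (by omega))
      (hw.ge_of_unmarked (by omega))

theorem Wt.LN_zero (n : ℕ) (hn : n = 0) (hE : w (lf true) = w (lf false)) : LN w n := by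
  intro t z hz hm
  have h1 := hw.ge_node (c := z) (by omega) hz
  rw [cF_self (hw.pos _)] at h1
  have h2 := hw.one false
  cases t with
  | false => linarith
  | true => rw [hE]; linarith

theorem Wt.LN_true (h1 : w (lf false) < w (lf true))
    (h2 : w (lf true) < cF (w (lf false)) (w (lf false))) : LN w 1 := by
  have key : ∀ c : Mk, w (lf false) ≤ w c := by
    intro c
    induction c with
    | lf b =>
      cases b with
      | false => exact le_rfl
      | true => exact h1.le
    | nd l r hl hr =>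
      rw [hw.node]
      refine le_trans ?_ (cF_le (hw.pos _) (hw.pos _) hl hr)
      exact (h1.trans h2).le
  intro t z hz _
  cases z with
  | lf b => exact absurd trivial hz
  | nd l r =>
    rw [hw.node]
    refine lt_of_lt_of_le ?_ (cF_le (hw.pos _) (hw.pos _) (key l) (key r))
    cases t with
    | false => exact h1.trans h2
    | true => exact h2

theorem Wt.LN_false (h1 : w (lf true) < w (lf false))
    (h2 : w (lf false) < cF (w (lf false)) (w (lf true))) : LN w 1 := by
  have key : ∀ c : Mk, c.mk ≤ 1 → w (lf true) ≤ w c ∧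
      (¬ c.isLf → cF (w (lf false)) (w (lf true)) ≤ w c) := by
    intro c
    induction c with
    | lf b =>
      intro _
      refine ⟨?_, fun h => absurd trivial h⟩
      cases b with
      | false => exact h1.le
      | true => exact le_rfl
    | nd l r hl hr =>
      intro hm
      simp only [Mk.mk] at hm
      have hn : cF (w (lf false)) (w (lf true)) ≤ w (nd l r) := by
        rw [hw.node]
        rcases Nat.eq_zero_or_pos l.mk with h0 | h0
        · exact cF_le (hw.pos _) (hw.pos _) (hw.ge_of_unmarked h0) (hr (by omega)).1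
        · rw [cF_comm (w l)]
          exact cF_le (hw.pos _) (hw.pos _) (hw.ge_of_unmarked (by omega)) (hl (by omega)).1
      exact ⟨(h1.trans h2).le.trans hn, fun _ => hn⟩
  intro t z hz hm
  refine lt_of_lt_of_le ?_ ((key z hm).2 hz)
  cases t with
  | false => exact h2
  | true => exact h1.trans h2

theorem Wt.cherry {C : Mk} (h : Cherry C) (hm : C.mk = 1) :
    w C = cF (w (lf false)) (w (lf true)) := by
  obtain ⟨b, b', rfl⟩ := h
  rw [hw.node]
  cases b <;> cases b' <;> simp [Mk.mk] at hm ⊢
  exact cF_comm _ _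

theorem Wt.cherry0 {C : Mk} (h : Cherry C) (hm : C.mk = 0) :
    w C = cF (w (lf false)) (w (lf false)) := by
  obtain ⟨b, b', rfl⟩ := h
  rw [hw.node]
  cases b <;> cases b' <;> simp [Mk.mk] at hm ⊢

end

/-! ### Small trees -/

theorem small_two {A B : Mk} (h : A.sz + B.sz = 2) : ∃ b b', A = lf b ∧ B = lf b' := by
  have h1 := A.sz_pos
  have h2 := B.sz_pos
  cases A with
  | lf b =>
    cases B with
    | lf b' => exact ⟨b, b', rfl, rfl⟩
    | nd l r =>
      have := l.sz_pos
      have := r.sz_pos
      simp only [Mk.sz] at h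
      omega
  | nd l r =>
    have := l.sz_pos
    have := r.sz_pos
    simp only [Mk.sz] at h
    omega

theorem small_three {A B : Mk} (h : A.sz + B.sz = 3) :
    ∃ a b c, MU (A, B) (nd (lf a) (lf b), lf c) := by
  cases A with
  | lf c =>
    cases B with
    | lf b => simp only [Mk.sz] at h; omega
    | nd l r =>
      obtain ⟨b, b', rfl, rfl⟩ := small_two (A := l) (B := r)
        (by simp only [Mk.sz] at h; omega)
      exact ⟨b, b', c, MU.swap _ _⟩
  | nd l r =>
    have := l.sz_pos
    have := r.sz_pos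
    cases B with
    | nd l' r' =>
      have := l'.sz_pos
      have := r'.sz_pos
      simp only [Mk.sz] at h
      omega
    | lf c =>
      obtain ⟨b, b', rfl, rfl⟩ := small_two (A := l) (B := r)
        (by simp only [Mk.sz] at h; omega)
      exact ⟨b, b', c, MU.refl _⟩

theorem small_three_marked {A B : Mk} (h : A.sz + B.sz = 3) (hm : A.mk + B.mk = 1) :
    MU (A, B) (nd (lf false) (lf false), lf true) := by
  obtain ⟨a, b, c, h1⟩ := small_three h
  have h2 := h1.mk
  simp only [Mk.mk] at h2
  rw [hm] at h2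
  refine h1.trans ?_
  cases a <;> cases b <;> cases c <;> simp at h2
  · exact MU.refl _
  · exact (MU.move _ _ _).trans ((MU.congr (MR.refl _) (MR.swap _ _)).trans (MU.move _ _ _).symm)
  · exact (MU.congr (MR.swap _ _) (MR.refl _)).trans ((MU.move _ _ _).trans
      ((MU.congr (MR.refl _) (MR.swap _ _)).trans (MU.move _ _ _).symm))

/-! ### Good trees -/

/-- joining the two children of the root by an edge -/
def unroot : Sh → Sh × Sh
  | Sh.leaf => (Sh.leaf, Sh.leaf)
  | Sh.node l r => (l, r)

/-- good binary trees, built from the leaves -/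
def Gb (m : ℕ) (b : Bool) (Q S : Sh) : Sh :=
  if m ≤ 1 then S
  else if m % 2 = 0 then Gb (m / 2) b (Sh.node Q Q) (Sh.node Q S)
  else if b then Gb ((m + 1) / 2) false (Sh.node Q Q) S
  else Gb ((m - 1) / 2) true (Sh.node Q Q) (Sh.node Q (Sh.node Q S))
termination_by m
decreasing_by all_goals omega

theorem Gb_one (b : Bool) (Q S : Sh) : Gb 1 b Q S = S := by
  rw [Gb]; simp

theorem Gb_even {m : ℕ} (hm : 1 ≤ m) (b : Bool) (Q S : Sh) :
    Gb (2 * m) b Q S = Gb m b (Sh.node Q Q) (Sh.node Q S) := by
  rw [Gb, if_neg (by omega), if_pos (by omega)]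
  congr 1
  omega

theorem Gb_odd_true {m : ℕ} (hm : 1 ≤ m) (Q S : Sh) :
    Gb (2 * m + 1) true Q S = Gb (m + 1) false (Sh.node Q Q) S := by
  rw [Gb, if_neg (by omega), if_neg (by omega), if_pos rfl]
  congr 1
  omega

theorem Gb_odd_false {m : ℕ} (hm : 1 ≤ m) (Q S : Sh) :
    Gb (2 * m + 1) false Q S = Gb m true (Sh.node Q Q) (Sh.node Q (Sh.node Q S)) := by
  rw [Gb, if_neg (by omega), if_neg (by omega), if_neg (by simp)]
  congr 1
  omega

theorem Gb_two (b : Bool) (Q S : Sh) : Gb 2 b Q S = Sh.node Q S := by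
  have h := Gb_even (m := 1) le_rfl b Q S
  rw [mul_one] at h
  rw [h, Gb_one]

end Pool.Agent.Helper877_Smith
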