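import Pool.Agent.Helper877_Smith.Exch

/-!
# Trees with two kinds of leaves (seat helper877, MP_ebc12b_co)
-/

set_option autoImplicit false

namespace Pool.Agent.Helper877_Smith

/-- rooted binary trees with marked leaves -/
inductive Mk : Type
  | lf (b : Bool) : Mk
  | nd (l r : Mk) : Mk

/-- isomorphism of rooted marked trees -/
inductive MR : Mk → Mk → Prop
  | refl (s : Mk) : MR s s
  | symm {s t : Mk} : MR s t → MR t s
  | trans {s t u : Mk} : MR s t → MR t u → MR s u
  | swap (l r : Mk) : MR (Mk.nd l r) (Mk.nd r l)
  | congr {l l' r r' : Mk} : MR l l' → MR r r' → MR (Mk.nd l r) (Mk.nd l' r')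

/-- isomorphism of unrooted marked trees -/
inductive MU : Mk × Mk → Mk × Mk → Prop
  | refl (T : Mk × Mk) : MU T T
  | symm {S T : Mk × Mk} : MU S T → MU T S
  | trans {S T U : Mk × Mk} : MU S T → MU T U → MU S U
  | swap (A B : Mk) : MU (A, B) (B, A)
  | move (A B C : Mk) : MU (Mk.nd A B, C) (A, Mk.nd B C)
  | congr {A A' B B' : Mk} : MR A A' → MR B B' → MU (A, B) (A', B')

namespace Mk

/-- number of leaves -/
def sz : Mk → ℕ
  | lf _ => 1
  | nd l r => l.sz + r.sz

/-- number of marked leaves -/
def mk : Mk → ℕ
  | lf b => if b then 1 else 0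
  | nd l r => l.mk + r.mk

/-- being a leaf -/
def isLf : Mk → Prop
  | lf _ => True
  | nd _ _ => False

/-- substitution of rooted trees for the leaves -/
def ex (Q S : Sh) : Mk → Sh
  | lf b => if b then S else Q
  | nd l r => Sh.node (l.ex Q S) (r.ex Q S)

/-- all leaves are paired -/
def Bal : Mk → Prop
  | lf _ => True
  | nd l r => (l.isLf ↔ r.isLf) ∧ l.Bal ∧ r.Bal

end Mk

open Mk

theorem Mk.sz_pos (s : Mk) : 0 < s.sz := by
  induction s with
  | lf => exact Nat.one_pos
  | nd l r h1 h2 => simp only [Mk.sz]; omega

theorem MR.sz {s t : Mk} (h : MR s t) : s.sz = t.sz := by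
  induction h with
  | refl => rfl
  | symm _ ih => exact ih.symm
  | trans _ _ h1 h2 => exact h1.trans h2
  | swap l r => simp only [Mk.sz]; omega
  | congr _ _ h1 h2 => simp only [Mk.sz]; omega

theorem MR.mk {s t : Mk} (h : MR s t) : s.mk = t.mk := by
  induction h with
  | refl => rfl
  | symm _ ih => exact ih.symm
  | trans _ _ h1 h2 => exact h1.trans h2
  | swap l r => simp only [Mk.mk]; omega
  | congr _ _ h1 h2 => simp only [Mk.mk]; omega

theorem MU.sz {S T : Mk × Mk} (h : MU S T) : S.1.sz + S.2.sz = T.1.sz + T.2.sz := by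
  induction h with
  | refl => rfl
  | symm _ ih => exact ih.symm
  | trans _ _ h1 h2 => exact h1.trans h2
  | swap A B => exact Nat.add_comm _ _
  | move A B C => simp only [Mk.sz]; omega
  | congr h1 h2 => rw [h1.sz, h2.sz]

theorem MU.mk {S T : Mk × Mk} (h : MU S T) : S.1.mk + S.2.mk = T.1.mk + T.2.mk := by
  induction h with
  | refl => rfl
  | symm _ ih => exact ih.symm
  | trans _ _ h1 h2 => exact h1.trans h2
  | swap A B => exact Nat.add_comm _ _
  | move A B C => simp only [Mk.mk]; omega
  | congr h1 h2 => rw [h1.mk, h2.mk]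

theorem MR.ex (Q S : Sh) {s t : Mk} (h : MR s t) : RIso (s.ex Q S) (t.ex Q S) := by
  induction h with
  | refl => exact RIso.refl _
  | symm _ ih => exact ih.symm
  | trans _ _ h1 h2 => exact h1.trans h2
  | swap l r => exact RIso.swap _ _
  | congr _ _ h1 h2 => exact RIso.congr h1 h2

theorem MU.ex (Q S : Sh) {s t : Mk × Mk} (h : MU s t) :
    UIso (s.1.ex Q S, s.2.ex Q S) (t.1.ex Q S, t.2.ex Q S) := by
  induction h with
  | refl => exact UIso.refl _
  | symm _ ih => exact ih.symm
  | trans _ _ h1 h2 => exact h1.trans h2
  | swap A B => exact UIso.swap _ _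
  | move A B C => exact UIso.move _ _ _
  | congr h1 h2 => exact UIso.congr (h1.ex Q S) (h2.ex Q S)

/-- grafting a list of trees -/
def cmb (L : List Mk) (B : Mk) : Mk := L.foldr Mk.nd B

theorem ex_cmb (Q S : Sh) (L : List Mk) (B : Mk) :
    (cmb L B).ex Q S = comb (L.map (Mk.ex Q S)) (B.ex Q S) := by
  induction L with
  | nil => rfl
  | cons X L ih =>
    show Sh.node (X.ex Q S) ((cmb L B).ex Q S) = Sh.node (X.ex Q S) (comb _ _)
    rw [ih]

theorem MR_cmb (L : List Mk) {A B : Mk} (h : MR A B) : MR (cmb L A) (cmb L B) := by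
  induction L with
  | nil => exact h
  | cons X L ih => exact MR.congr (MR.refl X) ih

/-- `y, b` are the two branches that hang from some vertex of `c` -/
def InV (c y b : Mk) : Prop := ∃ L : List Mk, MR c (cmb L (Mk.nd y b))

theorem InV.self (y b : Mk) : InV (Mk.nd y b) y b := ⟨[], MR.refl _⟩

theorem InV.left {l y b : Mk} (r : Mk) (h : InV l y b) : InV (Mk.nd l r) y b := by
  obtain ⟨L, h⟩ := h
  exact ⟨r :: L, (MR.swap l r).trans (MR.congr (MR.refl r) h)⟩

theorem InV.right {r y b : Mk} (l : Mk) (h : InV r y b) : InV (Mk.nd l r) y b := by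
  obtain ⟨L, h⟩ := h
  exact ⟨l :: L, MR.congr (MR.refl l) h⟩

theorem InV.swap {c y b : Mk} (h : InV c y b) : InV c b y := by
  obtain ⟨L, h⟩ := h
  exact ⟨L, h.trans (MR_cmb L (MR.swap y b))⟩

theorem mk_cmb (L : List Mk) (B : Mk) : B.mk ≤ (cmb L B).mk := by
  induction L with
  | nil => exact le_rfl
  | cons X L ih => exact ih.trans (Nat.le_add_left _ _)

theorem InV.mk_le {c y b : Mk} (h : InV c y b) : y.mk + b.mk ≤ c.mk := by
  obtain ⟨L, h⟩ := h
  rw [h.mk]
  exact mk_cmb L (Mk.nd y b)

theorem bal_of {c : Mk} : (∀ y b, InV c y b → (y.isLf ↔ b.isLf)) → c.Bal := by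
  induction c with
  | lf b => intro _; trivial
  | nd l r hl hr =>
    intro h
    exact ⟨h l r (InV.self l r), hl fun y b hb => h y b (hb.left r),
      hr fun y b hb => h y b (hb.right l)⟩

/-! ### The structure of balanced branches -/

theorem bal_double (Q S : Sh) {c : Mk} : c.Bal → ¬ c.isLf → c.mk ≤ 1 →
    ∃ c' : Mk, RIso (c.ex Q S) (c'.ex (Sh.node Q Q) (Sh.node Q S)) ∧ c'.mk = c.mk ∧
      c.sz = 2 * c'.sz := by
  induction c with
  | lf b => intro _ h; exact absurd trivial h
  | nd l r hl hr =>
    intro hB _ hm
    obtain ⟨h1, h2, h3⟩ := hB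
    simp only [Mk.mk] at hm
    by_cases hll : l.isLf
    · have hrl := h1.1 hll
      cases l with
      | nd _ _ => exact absurd hll id
      | lf b =>
        cases r with
        | nd _ _ => exact absurd hrl id
        | lf b' =>
          cases b with
          | false =>
            cases b' with
            | false => exact ⟨lf false, RIso.refl _, rfl, rfl⟩
            | true => exact ⟨lf true, RIso.refl _, rfl, rfl⟩
          | true =>
            cases b' with
            | false => exact ⟨lf true, RIso.swap _ _, rfl, rfl⟩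
            | true => simp [Mk.mk] at hm
    · have hrl : ¬ r.isLf := fun h => hll (h1.2 h)
      obtain ⟨l', a1, a2, a3⟩ := hl h2 hll (by omega)
      obtain ⟨r', b1, b2, b3⟩ := hr h3 hrl (by omega)
      refine ⟨nd l' r', RIso.congr a1 b1, ?_, ?_⟩
      · simp only [Mk.mk]; omega
      · simp only [Mk.sz]; omega

theorem ex_unmarked (Q S S' : Sh) {c : Mk} : c.mk = 0 → c.ex Q S = c.ex Q S' := by
  induction c with
  | lf b =>
    intro h
    cases b with
    | false => rfl
    | true => simp [Mk.mk] at h
  | nd l r hl hr =>
    intro h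
    simp only [Mk.mk] at h
    show Sh.node (l.ex Q S) (r.ex Q S) = Sh.node (l.ex Q S') (r.ex Q S')
    rw [hl (by omega), hr (by omega)]

/-- a balanced branch with no marked leaf has a vertex with two leaves -/
theorem InV_leaves {c : Mk} : c.Bal → ¬ c.isLf → c.mk = 0 →
    InV c (lf false) (lf false) := by
  induction c with
  | lf b => intro _ h; exact absurd trivial h
  | nd l r hl hr =>
    intro hB _ hm
    obtain ⟨h1, h2, h3⟩ := hB
    simp only [Mk.mk] at hm
    by_cases hll : l.isLf
    · have hrl := h1.1 hll
      cases l with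
      | nd _ _ => exact absurd hll id
      | lf b =>
        cases r with
        | nd _ _ => exact absurd hrl id
        | lf b' =>
          cases b with
          | false =>
            cases b' with
            | false => exact InV.self _ _
            | true => simp [Mk.mk] at hm
          | true => simp [Mk.mk] at hm
    · exact (hl h2 hll (by omega)).left r

/-- a balanced branch with one marked leaf has a vertex with two leaves, one of them marked -/
theorem InV_marked {c : Mk} : c.Bal → ¬ c.isLf → c.mk = 1 →
    InV c (lf false) (lf true) := by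
  induction c with
  | lf b => intro _ h; exact absurd trivial h
  | nd l r hl hr =>
    intro hB _ hm
    obtain ⟨h1, h2, h3⟩ := hB
    simp only [Mk.mk] at hm
    by_cases hll : l.isLf
    · have hrl := h1.1 hll
      cases l with
      | nd _ _ => exact absurd hll id
      | lf b =>
        cases r with
        | nd _ _ => exact absurd hrl id
        | lf b' =>
          cases b with
          | false =>
            cases b' with
            | false => simp [Mk.mk] at hm
            | true => exact InV.self _ _
          | true =>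
            cases b' with
            | false => exact (InV.self _ _).swap
            | true => simp [Mk.mk] at hm
    · have hrl : ¬ r.isLf := fun h => hll (h1.2 h)
      rcases Nat.eq_zero_or_pos l.mk with h0 | h0
      · exact (hr h3 hrl (by omega)).right l
      · exact (hl h2 hll (by omega)).left r

/-- a vertex with two leaves -/
def Cherry (c : Mk) : Prop := ∃ b b', c = nd (lf b) (lf b')

/-- a balanced branch is a cherry, or contains a cherry with the largest possible number of
marked leaves next to a branch which is not a leaf -/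
theorem exists_cherry {c : Mk} : c.Bal → ¬ c.isLf → c.mk ≤ 1 →
    Cherry c ∨ ∃ C z, Cherry C ∧ ¬ z.isLf ∧ C.mk = c.mk ∧ InV c C z := by
  induction c with
  | lf b => intro _ h; exact absurd trivial h
  | nd l r hl hr =>
    intro hB _ hm
    obtain ⟨h1, h2, h3⟩ := hB
    simp only [Mk.mk] at hm
    by_cases hll : l.isLf
    · have hrl := h1.1 hll
      cases l with
      | nd _ _ => exact absurd hll id
      | lf b =>
        cases r with
        | nd _ _ => exact absurd hrl id
        | lf b' => exact Or.inl ⟨b, b', rfl⟩
    · have hrl : ¬ r.isLf := fun h => hll (h1.2 h)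
      right
      rcases Nat.eq_zero_or_pos l.mk with h0 | h0
      · rcases hr h3 hrl (by omega) with h | ⟨C, z, c1, c2, c3, c4⟩
        · exact ⟨r, l, h, hll, by simp only [Mk.mk]; omega, (InV.self l r).swap⟩
        · exact ⟨C, z, c1, c2, by simp only [Mk.mk]; omega, c4.right l⟩
      · rcases hl h2 hll (by omega) with h | ⟨C, z, c1, c2, c3, c4⟩
        · exact ⟨l, r, h, hrl, by simp only [Mk.mk]; omega, InV.self l r⟩
        · exact ⟨C, z, c1, c2, by simp only [Mk.mk]; omega, c4.left r⟩

end Pool.Agent.Helper877_Smith
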