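import Pool.Agent.Helper877_Smith.Shapes

/-!
# The matrix of a binary tree and its characteristic polynomial (seat helper877, MP_ebc12b_co)
-/

set_option autoImplicit false

namespace Pool.Agent.Helper877_Smith

open Matrix

/-! ### Determinants -/

theorem det_rank1 {m : Type} [Fintype m] [DecidableEq m] {A : Matrix m m ℝ} (hA : A.det ≠ 0)
    (u v : m → ℝ) : (A + vecMulVec u v).det = A.det * (1 + v ⬝ᵥ (A⁻¹ *ᵥ u)) := by
  have h1 : (1 + replicateRow Unit v * A⁻¹ * replicateCol Unit u).det = 1 + v ⬝ᵥ (A⁻¹ *ᵥ u) := by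
    rw [det_unique, Matrix.add_apply, Matrix.one_apply_eq, Matrix.mul_assoc]
    congr 1
  rw [vecMulVec_eq Unit, det_add_replicateCol_mul_replicateRow (isUnit_iff_ne_zero.2 hA) u v, h1]

theorem det_sub_rank1 {m : Type} [Fintype m] [DecidableEq m] {A : Matrix m m ℝ} (hA : A.det ≠ 0)
    (u : m → ℝ) (c : ℝ) : (A - c • vecMulVec u u).det = A.det * (1 - c * (u ⬝ᵥ (A⁻¹ *ᵥ u))) := by
  have h : A - c • vecMulVec u u = A + vecMulVec ((-c) • u) u := by
    rw [smul_vecMulVec, neg_smul, sub_eq_add_neg]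
  rw [h, det_rank1 hA, mulVec_smul, dotProduct_smul, smul_eq_mul]
  ring

theorem det_sub_rank1' {m : Type} [Fintype m] [DecidableEq m] {A : Matrix m m ℝ} (hA : A.det ≠ 0)
    (u : m → ℝ) (c : ℝ) : (A - c • vecMulVec u u).det =
      A.det - c * (A.det - (A - vecMulVec u u).det) := by
  have h1 := det_sub_rank1 hA u 1
  rw [one_smul] at h1
  rw [h1, det_sub_rank1 hA u c]
  ring

theorem block_det {m n : Type} [Fintype m] [DecidableEq m] [Fintype n] [DecidableEq n]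
    {A : Matrix m m ℝ} {B : Matrix n n ℝ} (hA : A.det ≠ 0) (hB : B.det ≠ 0)
    (u : m → ℝ) (v : n → ℝ) (κ : ℝ) :
    (fromBlocks A (-κ • vecMulVec u v) (-κ • vecMulVec v u) B).det =
      A.det * B.det - κ ^ 2 * ((A.det - (A - vecMulVec u u).det) *
        (B.det - (B - vecMulVec v v).det)) := by
  have hA1 := det_sub_rank1 hA u 1
  have hB1 := det_sub_rank1 hB v 1
  rw [one_smul] at hA1 hB1
  have : Invertible B := Matrix.invertibleOfIsUnitDet B (isUnit_iff_ne_zero.2 hB)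
  rw [det_fromBlocks₂₂]
  have h1 : -κ • vecMulVec u v * ⅟B * -κ • vecMulVec v u =
      (κ ^ 2 * (v ⬝ᵥ (B⁻¹ *ᵥ v))) • vecMulVec u u := by
    rw [invOf_eq_nonsing_inv, Matrix.smul_mul, Matrix.smul_mul, Matrix.mul_smul, smul_smul,
      vecMulVec_mul, vecMulVec_mul_vecMulVec, ← dotProduct_mulVec, vecMulVec_smul, smul_smul]
    congr 1
    ring
  rw [h1, det_sub_rank1 hA, hA1, hB1]
  ring

/-! ### The matrix of a tree -/

/-- The leaves of a tree. -/
def Lf : Sh → Type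
  | Sh.leaf => Unit
  | Sh.node l r => Lf l ⊕ Lf r

instance instFintypeLf : (s : Sh) → Fintype (Lf s)
  | Sh.leaf => inferInstanceAs (Fintype Unit)
  | Sh.node l r =>
    haveI := instFintypeLf l
    haveI := instFintypeLf r
    inferInstanceAs (Fintype (Lf l ⊕ Lf r))

instance instDecEqLf : (s : Sh) → DecidableEq (Lf s)
  | Sh.leaf => inferInstanceAs (DecidableEq Unit)
  | Sh.node l r =>
    haveI := instDecEqLf l
    haveI := instDecEqLf r
    inferInstanceAs (DecidableEq (Lf l ⊕ Lf r))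

theorem card_Lf (s : Sh) : Fintype.card (Lf s) = s.size := by
  induction s with
  | leaf => rfl
  | node l r hl hr =>
    have : Fintype.card (Lf (Sh.node l r)) = Fintype.card (Lf l ⊕ Lf r) := rfl
    rw [this, Fintype.card_sum, hl, hr]
    rfl

/-- hitting probabilities -/
noncomputable def pv : (s : Sh) → Lf s → ℝ
  | Sh.leaf => fun _ => 1
  | Sh.node l r => Sum.elim (fun i => pv l i / 2) (fun j => pv r j / 2)

/-- the matrix of a rooted tree -/
noncomputable def Mt : (s : Sh) → Matrix (Lf s) (Lf s) ℝ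
  | Sh.leaf => (1 : Matrix Unit Unit ℝ)
  | Sh.node l r => fromBlocks (Mt l) (-(1 / 2 : ℝ) • vecMulVec (pv l) (pv r))
      (-(1 / 2 : ℝ) • vecMulVec (pv r) (pv l)) (Mt r)

/-- the matrix of an unrooted tree -/
noncomputable def MT (A B : Sh) : Matrix (Lf A ⊕ Lf B) (Lf A ⊕ Lf B) ℝ :=
  fromBlocks (Mt A) (-(1 : ℝ) • vecMulVec (pv A) (pv B)) (-(1 : ℝ) • vecMulVec (pv B) (pv A))
    (Mt B)

theorem smul_one_blocks {m n : Type} [Fintype m] [DecidableEq m] [Fintype n] [DecidableEq n]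
    (t : ℝ) (A : Matrix m m ℝ) (B : Matrix m n ℝ) (C : Matrix n m ℝ) (D : Matrix n n ℝ) :
    t • (1 : Matrix (m ⊕ n) (m ⊕ n) ℝ) + fromBlocks A B C D =
      fromBlocks (t • 1 + A) B C (t • 1 + D) := by
  rw [← fromBlocks_one, fromBlocks_smul, fromBlocks_add]
  simp

theorem sub_blocks {m n : Type} (A : Matrix m m ℝ) (B : Matrix n n ℝ) (u : m → ℝ) (v : n → ℝ) :
    fromBlocks A (-(1 / 2 : ℝ) • vecMulVec u v) (-(1 / 2 : ℝ) • vecMulVec v u) B -
        vecMulVec (Sum.elim (fun i => u i / 2) (fun j => v j / 2))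
          (Sum.elim (fun i => u i / 2) (fun j => v j / 2)) =
      fromBlocks (A - (1 / 4 : ℝ) • vecMulVec u u) (-(3 / 4 : ℝ) • vecMulVec u v)
        (-(3 / 4 : ℝ) • vecMulVec v u) (B - (1 / 4 : ℝ) • vecMulVec v v) := by
  ext i j
  rcases i with i | i <;> rcases j with j | j <;>
    simp only [Matrix.sub_apply, fromBlocks_apply₁₁, fromBlocks_apply₁₂, fromBlocks_apply₂₁,
      fromBlocks_apply₂₂, vecMulVec_apply, Sum.elim_inl, Sum.elim_inr,
      Matrix.smul_apply, smul_eq_mul] <;> ring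

theorem det_Mt {t : ℝ} (ht : 0 < t) (s : Sh) :
    (t • (1 : Matrix (Lf s) (Lf s) ℝ) + Mt s).det = (val (1 + t, 1) s).1 ∧
      (t • (1 : Matrix (Lf s) (Lf s) ℝ) + Mt s - vecMulVec (pv s) (pv s)).det =
        (val (1 + t, 1) s).1 - (val (1 + t, 1) s).2 := by
  have hP : (0 : ℝ) < ((1 + t, 1) : ℝ × ℝ).2 := zero_lt_one
  have hP' : ((1 + t, 1) : ℝ × ℝ).2 < ((1 + t, 1) : ℝ × ℝ).1 := by
    show (1 : ℝ) < 1 + t
    linarith
  induction s with
  | leaf =>
    constructor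
    · show (t • (1 : Matrix Unit Unit ℝ) + (1 : Matrix Unit Unit ℝ)).det = 1 + t
      rw [det_unique]
      simp [add_comm]
    · show (t • (1 : Matrix Unit Unit ℝ) + (1 : Matrix Unit Unit ℝ) -
        vecMulVec (fun _ => (1 : ℝ)) (fun _ => (1 : ℝ))).det = 1 + t - 1
      rw [det_unique]
      simp [vecMulVec_apply]
  | node l r hl hr =>
    have vl := val_pos hP hP' l
    have vr := val_pos hP hP' r
    have wl := val_lt hP hP' l
    have wr := val_lt hP hP' r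
    have dl : (t • (1 : Matrix (Lf l) (Lf l) ℝ) + Mt l).det ≠ 0 := by
      rw [hl.1]; exact vl.1.ne'
    have dr : (t • (1 : Matrix (Lf r) (Lf r) ℝ) + Mt r).det ≠ 0 := by
      rw [hr.1]; exact vr.1.ne'
    constructor
    · have h1 : t • (1 : Matrix (Lf (Sh.node l r)) (Lf (Sh.node l r)) ℝ) + Mt (Sh.node l r) =
          fromBlocks (t • 1 + Mt l) (-(1 / 2 : ℝ) • vecMulVec (pv l) (pv r))
            (-(1 / 2 : ℝ) • vecMulVec (pv r) (pv l)) (t • 1 + Mt r) :=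
        smul_one_blocks t _ _ _ _
      rw [h1]
      have h2 := block_det dl dr (pv l) (pv r) (1 / 2)
      rw [hl.1, hr.1, hl.2, hr.2] at h2
      refine h2.trans ?_
      simp only [val, mulV]
      ring
    · have h1 : t • (1 : Matrix (Lf (Sh.node l r)) (Lf (Sh.node l r)) ℝ) + Mt (Sh.node l r) -
          vecMulVec (pv (Sh.node l r)) (pv (Sh.node l r)) =
          fromBlocks (t • 1 + Mt l - (1 / 4 : ℝ) • vecMulVec (pv l) (pv l))
            (-(3 / 4 : ℝ) • vecMulVec (pv l) (pv r))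
            (-(3 / 4 : ℝ) • vecMulVec (pv r) (pv l))
            (t • 1 + Mt r - (1 / 4 : ℝ) • vecMulVec (pv r) (pv r)) := by
        have h2 : t • (1 : Matrix (Lf (Sh.node l r)) (Lf (Sh.node l r)) ℝ) + Mt (Sh.node l r) =
            fromBlocks (t • 1 + Mt l) (-(1 / 2 : ℝ) • vecMulVec (pv l) (pv r))
              (-(1 / 2 : ℝ) • vecMulVec (pv r) (pv l)) (t • 1 + Mt r) :=
          smul_one_blocks t _ _ _ _
        rw [h2]
        exact sub_blocks _ _ _ _
      rw [h1]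
      have el := det_sub_rank1' dl (pv l) (1 / 4)
      have er := det_sub_rank1' dr (pv r) (1 / 4)
      have fl := det_sub_rank1' dl (pv l) (5 / 4)
      have fr := det_sub_rank1' dr (pv r) (5 / 4)
      rw [hl.1, hl.2] at el fl
      rw [hr.1, hr.2] at er fr
      have dl' : (t • (1 : Matrix (Lf l) (Lf l) ℝ) + Mt l -
          (1 / 4 : ℝ) • vecMulVec (pv l) (pv l)).det ≠ 0 := by
        rw [el]
        have := vl.2.1
        nlinarith
      have dr' : (t • (1 : Matrix (Lf r) (Lf r) ℝ) + Mt r -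
          (1 / 4 : ℝ) • vecMulVec (pv r) (pv r)).det ≠ 0 := by
        rw [er]
        have := vr.2.1
        nlinarith
      have gl : t • (1 : Matrix (Lf l) (Lf l) ℝ) + Mt l - (1 / 4 : ℝ) • vecMulVec (pv l) (pv l) -
          vecMulVec (pv l) (pv l) = t • (1 : Matrix (Lf l) (Lf l) ℝ) + Mt l -
            (5 / 4 : ℝ) • vecMulVec (pv l) (pv l) := by
        rw [sub_sub]
        congr 1
        nth_rw 2 [← one_smul ℝ (vecMulVec (pv l) (pv l))]
        rw [← add_smul]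
        norm_num
      have gr : t • (1 : Matrix (Lf r) (Lf r) ℝ) + Mt r - (1 / 4 : ℝ) • vecMulVec (pv r) (pv r) -
          vecMulVec (pv r) (pv r) = t • (1 : Matrix (Lf r) (Lf r) ℝ) + Mt r -
            (5 / 4 : ℝ) • vecMulVec (pv r) (pv r) := by
        rw [sub_sub]
        congr 1
        nth_rw 2 [← one_smul ℝ (vecMulVec (pv r) (pv r))]
        rw [← add_smul]
        norm_num
      have h2 := block_det dl' dr' (pv l) (pv r) (3 / 4)
      rw [gl, gr, el, er, fl, fr] at h2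
      refine h2.trans ?_
      simp only [val, mulV]
      ring

theorem det_MT {t : ℝ} (ht : 0 < t) (A B : Sh) :
    (t • (1 : Matrix (Lf A ⊕ Lf B) (Lf A ⊕ Lf B) ℝ) + MT A B).det = ZZ (1 + t, 1) (A, B) := by
  have hP : (0 : ℝ) < ((1 + t, 1) : ℝ × ℝ).2 := zero_lt_one
  have hP' : ((1 + t, 1) : ℝ × ℝ).2 < ((1 + t, 1) : ℝ × ℝ).1 := by
    show (1 : ℝ) < 1 + t
    linarith
  have hA := det_Mt ht A
  have hB := det_Mt ht B
  have dA : (t • (1 : Matrix (Lf A) (Lf A) ℝ) + Mt A).det ≠ 0 := by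
    rw [hA.1]; exact (val_pos hP hP' A).1.ne'
  have dB : (t • (1 : Matrix (Lf B) (Lf B) ℝ) + Mt B).det ≠ 0 := by
    rw [hB.1]; exact (val_pos hP hP' B).1.ne'
  unfold MT
  rw [smul_one_blocks, block_det dA dB, hA.1, hB.1, hA.2, hB.2]
  unfold ZZ ip
  simp only
  ring

/-! ### Symmetry, positivity, sums -/

theorem Mt_symm (s : Sh) : (Mt s)ᵀ = Mt s := by
  induction s with
  | leaf => exact transpose_one
  | node l r hl hr =>
    show (fromBlocks (Mt l) (-(1 / 2 : ℝ) • vecMulVec (pv l) (pv r))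
      (-(1 / 2 : ℝ) • vecMulVec (pv r) (pv l)) (Mt r))ᵀ = fromBlocks _ _ _ _
    rw [fromBlocks_transpose, hl, hr, transpose_smul, transpose_smul, transpose_vecMulVec,
      transpose_vecMulVec]

theorem MT_symm (A B : Sh) : (MT A B)ᵀ = MT A B := by
  unfold MT
  rw [fromBlocks_transpose, Mt_symm, Mt_symm, transpose_smul, transpose_smul, transpose_vecMulVec,
    transpose_vecMulVec]

theorem quad_blocks {m n : Type} [Fintype m] [Fintype n]
    (A : Matrix m m ℝ) (B : Matrix n n ℝ) (u : m → ℝ) (v : n → ℝ) (κ : ℝ) (x : m ⊕ n → ℝ) :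
    x ⬝ᵥ (fromBlocks A (-κ • vecMulVec u v) (-κ • vecMulVec v u) B *ᵥ x) =
      (x ∘ Sum.inl) ⬝ᵥ (A *ᵥ (x ∘ Sum.inl)) + (x ∘ Sum.inr) ⬝ᵥ (B *ᵥ (x ∘ Sum.inr)) -
        2 * κ * ((u ⬝ᵥ (x ∘ Sum.inl)) * (v ⬝ᵥ (x ∘ Sum.inr))) := by
  have hx : x = Sum.elim (x ∘ Sum.inl) (x ∘ Sum.inr) := (Sum.elim_comp_inl_inr x).symm
  obtain ⟨y, hy⟩ : ∃ y, y = x ∘ Sum.inl := ⟨_, rfl⟩
  obtain ⟨z, hz⟩ : ∃ z, z = x ∘ Sum.inr := ⟨_, rfl⟩
  rw [← hy, ← hz] at hx ⊢
  rw [hx, fromBlocks_mulVec, sumElim_dotProduct_sumElim]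
  simp only [Sum.elim_comp_inl, Sum.elim_comp_inr, dotProduct_add, smul_mulVec,
    vecMulVec_mulVec, dotProduct_smul, smul_eq_mul, MulOpposite.smul_eq_mul_unop,
    MulOpposite.unop_op]
  rw [dotProduct_comm y u, dotProduct_comm z v]
  ring

theorem pv_sum (s : Sh) : ∑ i, pv s i = 1 := by
  induction s with
  | leaf => show ∑ _i : Unit, (1 : ℝ) = 1; simp
  | node l r hl hr =>
    show ∑ i : Lf l ⊕ Lf r, pv (Sh.node l r) i = 1
    rw [Fintype.sum_sum_type]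
    simp only [pv, Sum.elim_inl, Sum.elim_inr]
    rw [← Finset.sum_div, ← Finset.sum_div, hl, hr]
    norm_num

theorem quad_node {m n : Type} [Fintype m] [Fintype n]
    (A : Matrix m m ℝ) (B : Matrix n n ℝ) (u : m → ℝ) (v : n → ℝ)
    (hA : ∀ y, (u ⬝ᵥ y) ^ 2 ≤ y ⬝ᵥ (A *ᵥ y)) (hB : ∀ z, (v ⬝ᵥ z) ^ 2 ≤ z ⬝ᵥ (B *ᵥ z))
    (x : m ⊕ n → ℝ) :
    ((Sum.elim (fun i => u i / 2) (fun j => v j / 2)) ⬝ᵥ x) ^ 2 ≤
      x ⬝ᵥ (fromBlocks A (-(1 / 2 : ℝ) • vecMulVec u v) (-(1 / 2 : ℝ) • vecMulVec v u) B *ᵥ x) := by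
  have h := quad_blocks A B u v (1 / 2) x
  rw [h]
  have hp : (Sum.elim (fun i => u i / 2) (fun j => v j / 2)) ⬝ᵥ x =
      (u ⬝ᵥ (x ∘ Sum.inl)) / 2 + (v ⬝ᵥ (x ∘ Sum.inr)) / 2 := by
    unfold dotProduct
    rw [Fintype.sum_sum_type]
    simp only [Sum.elim_inl, Sum.elim_inr, Function.comp]
    rw [Finset.sum_div, Finset.sum_div]
    congr 1 <;> exact Finset.sum_congr rfl fun i _ => by ring
  rw [hp]
  have h1 := hA (x ∘ Sum.inl)
  have h2 := hB (x ∘ Sum.inr)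
  nlinarith [sq_nonneg (u ⬝ᵥ (x ∘ Sum.inl) - v ⬝ᵥ (x ∘ Sum.inr))]

theorem quad_Mt (s : Sh) (x : Lf s → ℝ) : (pv s ⬝ᵥ x) ^ 2 ≤ x ⬝ᵥ (Mt s *ᵥ x) := by
  induction s with
  | leaf =>
    have h1 : (pv Sh.leaf ⬝ᵥ x) = x () := by
      show ∑ i : Unit, (1 : ℝ) * x i = x ()
      simp
    have h2 : x ⬝ᵥ (Mt Sh.leaf *ᵥ x) = x () * x () := by
      show ∑ i : Unit, x i * (∑ j : Unit, (1 : Matrix Unit Unit ℝ) i j * x j) = _
      simp
    rw [h1, h2, sq]
  | node l r hl hr => exact quad_node (Mt l) (Mt r) (pv l) (pv r) hl hr x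

theorem MT_psd (A B : Sh) : (MT A B).PosSemidef := by
  rw [Matrix.posSemidef_iff_dotProduct_mulVec]
  refine ⟨?_, fun x => ?_⟩
  · show (MT A B)ᴴ = MT A B
    rw [conjTranspose_eq_transpose_of_trivial, MT_symm]
  · have h := quad_blocks (Mt A) (Mt B) (pv A) (pv B) 1 x
    have hs : star x = x := by
      funext i
      exact star_trivial _
    rw [hs]
    have hM : x ⬝ᵥ (MT A B *ᵥ x) = _ := h
    rw [hM]
    have h1 := quad_Mt A (x ∘ Sum.inl)
    have h2 := quad_Mt B (x ∘ Sum.inr)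
    nlinarith [sq_nonneg (pv A ⬝ᵥ (x ∘ Sum.inl) - pv B ⬝ᵥ (x ∘ Sum.inr))]

theorem sum_blocks {m n : Type} [Fintype m] [Fintype n]
    (A : Matrix m m ℝ) (B : Matrix n n ℝ) (u : m → ℝ) (v : n → ℝ) (κ : ℝ) :
    ∑ i, ∑ j, (fromBlocks A (-κ • vecMulVec u v) (-κ • vecMulVec v u) B) i j =
      (∑ i, ∑ j, A i j) + (∑ i, ∑ j, B i j) - 2 * κ * ((∑ i, u i) * ∑ j, v j) := by
  rw [Fintype.sum_sum_type]
  simp only [Fintype.sum_sum_type, fromBlocks_apply₁₁, fromBlocks_apply₁₂, fromBlocks_apply₂₁,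
    fromBlocks_apply₂₂, Finset.sum_add_distrib, Matrix.smul_apply, vecMulVec_apply, smul_eq_mul]
  have h1 : ∑ i, ∑ j, -κ * (u i * v j) = -κ * ((∑ i, u i) * ∑ j, v j) := by
    rw [Finset.sum_mul_sum, Finset.mul_sum]
    exact Finset.sum_congr rfl fun i _ => by rw [Finset.mul_sum]
  have h2 : ∑ i, ∑ j, -κ * (v i * u j) = -κ * ((∑ i, u i) * ∑ j, v j) := by
    rw [mul_comm (∑ i, u i), Finset.sum_mul_sum, Finset.mul_sum]
    exact Finset.sum_congr rfl fun i _ => by rw [Finset.mul_sum]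
  rw [h1, h2]
  ring

theorem sum_Mt (s : Sh) : ∑ i, ∑ j, Mt s i j = 1 := by
  induction s with
  | leaf => show ∑ i : Unit, ∑ j : Unit, (1 : Matrix Unit Unit ℝ) i j = 1; simp
  | node l r hl hr =>
    have h := sum_blocks (Mt l) (Mt r) (pv l) (pv r) (1 / 2)
    rw [hl, hr, pv_sum, pv_sum] at h
    refine Eq.trans h ?_
    norm_num

theorem sum_MT (A B : Sh) : ∑ i, ∑ j, MT A B i j = 0 := by
  have h := sum_blocks (Mt A) (Mt B) (pv A) (pv B) 1
  rw [sum_Mt, sum_Mt, pv_sum, pv_sum] at h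
  refine Eq.trans h ?_
  norm_num

end Pool.Agent.Helper877_Smith
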