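import Pool.Agent.Helper877_Smith.Lower

/-!
# The optimal tree for `2 ^ (k + 1)` terminals (seat helper877, MP_ebc12b_co)
-/

set_option autoImplicit false

namespace Pool.Agent.Helper877_Smith

variable {d : ℕ}

/-- the centroid of the terminals of `S` -/
noncomputable def cen (S : Finset (Fin d)) : Sp d :=
  WithLp.toLp 2 (fun i => if i ∈ S then (1 / (S.card : ℝ)) else 0)

theorem cen_apply (S : Finset (Fin d)) (i : Fin d) :
    cen S i = if i ∈ S then (1 / (S.card : ℝ)) else 0 := rfl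

theorem cen_singleton (i : Fin d) : cen {i} = tm i := by
  ext j
  rw [cen_apply, tm, PiLp.single_apply]
  simp

theorem inner_cen {S : Finset (Fin d)} (hS : 0 < S.card) (w : Sp d) (κ : ℝ)
    (hw : ∀ i ∈ S, w i = κ) : inner ℝ (cen S) w = κ := by
  have h0 : (S.card : ℝ) ≠ 0 := by exact_mod_cast hS.ne'
  have h1 : inner ℝ (cen S) w = ∑ i, (if i ∈ S then (1 / (S.card : ℝ)) else 0) * w i := by
    rw [PiLp.inner_apply]
    refine Finset.sum_congr rfl fun i _ => ?_
    rw [cen_apply]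
    simp [mul_comm]
  rw [h1]
  simp only [ite_mul, zero_mul]
  rw [Finset.sum_ite_mem, Finset.univ_inter, Finset.sum_congr rfl (fun i hi => by rw [hw i hi]),
    Finset.sum_const, nsmul_eq_mul]
  field_simp

/-- distance from the centroid to the Steiner point -/
noncomputable def dl : ℕ → ℝ
  | 0 => 0
  | h + 1 => Real.sqrt (1 / (6 * 2 ^ h))

theorem dl_nonneg (h : ℕ) : 0 ≤ dl h := by
  cases h with
  | zero => exact le_rfl
  | succ h => exact Real.sqrt_nonneg _

theorem dl_pos (h : ℕ) : 0 < dl (h + 1) := Real.sqrt_pos.2 (by positivity)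

theorem dl_sq (h : ℕ) : dl (h + 1) ^ 2 = 1 / (6 * 2 ^ h) := Real.sq_sqrt (by positivity)

theorem dl_lt (h : ℕ) : dl h < 2 * dl (h + 1) := by
  cases h with
  | zero => exact mul_pos zero_lt_two (dl_pos _)
  | succ h =>
    have h1 := dl_sq h
    have h2 := dl_sq (h + 1)
    refine lt_of_pow_lt_pow_left₀ 2 (mul_nonneg zero_le_two (dl_nonneg _)) ?_
    have h3 : (0 : ℝ) < 2 ^ h := by positivity
    have h4 : (2 : ℝ) ^ (h + 1) = 2 ^ h * 2 := pow_succ _ _
    have h5 : (2 : ℝ) ^ 2 * (1 / (6 * (2 ^ h * 2))) = 2 * (1 / (6 * 2 ^ h)) := by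
      field_simp
    have h6 : (0 : ℝ) < 1 / (6 * 2 ^ h) := by positivity
    rw [mul_pow, h1, h2, h4, h5]
    linarith

theorem three_dl (h : ℕ) : 3 * dl (h + 1) = Real.sqrt (3 / 2 ^ (h + 1)) := by
  symm
  rw [Real.sqrt_eq_iff_mul_self_eq (by positivity) (mul_nonneg (by norm_num) (dl_nonneg _))]
  have h1 := dl_sq h
  have h2 : 3 * dl (h + 1) * (3 * dl (h + 1)) = 9 * dl (h + 1) ^ 2 := by ring
  rw [h2, h1, pow_succ]
  have h3 : (0 : ℝ) < 2 ^ h := by positivity
  field_simp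
  norm_num

theorem dl_lt_top (k : ℕ) : 2 * dl k < Real.sqrt (2 / 2 ^ k) := by
  cases k with
  | zero => simp [dl]
  | succ h =>
    refine Real.lt_sqrt_of_sq_lt ?_
    have h6 : (2 : ℝ) ^ (h + 1) = 2 ^ h * 2 := pow_succ _ _
    rw [mul_pow, dl_sq, h6]
    have h3 : (0 : ℝ) < 2 ^ h := by positivity
    rw [div_eq_mul_one_div 2 (2 ^ h * 2 : ℝ)]
    have h4 : (2 : ℝ) ^ 2 * (1 / (6 * 2 ^ h)) = 2 / 3 * (1 / 2 ^ h) := by
      field_simp
      norm_num
    have h5 : (2 : ℝ) * (1 / (2 ^ h * 2)) = 1 * (1 / 2 ^ h) := by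
      field_simp
    rw [h4, h5]
    exact mul_lt_mul_of_pos_right (by norm_num) (by positivity)

/-- splitting a set into two halves -/
theorem split_half {S : Finset (Fin d)} {h : ℕ} (hS : S.card = 2 ^ (h + 1)) :
    ∃ S₁ S₂ : Finset (Fin d), Disjoint S₁ S₂ ∧ S₁.card = 2 ^ h ∧ S₂.card = 2 ^ h ∧
      (∀ i, i ∈ S ↔ i ∈ S₁ ∨ i ∈ S₂) ∧ S₁.val + S₂.val = S.val := by
  obtain ⟨S₁, h1, h2⟩ := Finset.exists_subset_card_eq
    (show 2 ^ h ≤ S.card by rw [hS]; exact Nat.pow_le_pow_right (by norm_num) (by omega))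
  have hd : Disjoint S₁ (S \ S₁) := Finset.disjoint_sdiff
  have hu : S₁.disjUnion (S \ S₁) hd = S := by
    rw [Finset.disjUnion_eq_union, Finset.union_sdiff_of_subset h1]
  refine ⟨S₁, S \ S₁, hd, h2, ?_, fun i => ?_, ?_⟩
  · rw [Finset.card_sdiff_of_subset h1, hS, h2, pow_succ]
    omega
  · conv_lhs => rw [← hu, Finset.mem_disjUnion]
  · conv_rhs => rw [← hu]
    rfl

/-- facts on the centroids of two halves -/
theorem cen_facts {S₁ S₂ : Finset (Fin d)} {h : ℕ} (hd : Disjoint S₁ S₂)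
    (h1 : S₁.card = 2 ^ h) (h2 : S₂.card = 2 ^ h) :
    ‖cen S₁ - cen S₂‖ ^ 2 = 2 / 2 ^ h := by
  have p1 : 0 < S₁.card := by rw [h1]; positivity
  have p2 : 0 < S₂.card := by rw [h2]; positivity
  have e11 : inner ℝ (cen S₁) (cen S₁) = 1 / (2 : ℝ) ^ h :=
    inner_cen p1 _ _ fun i hi => by rw [cen_apply, if_pos hi, h1]; push_cast; rfl
  have e22 : inner ℝ (cen S₂) (cen S₂) = 1 / (2 : ℝ) ^ h :=
    inner_cen p2 _ _ fun i hi => by rw [cen_apply, if_pos hi, h2]; push_cast; rfl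
  have e12 : inner ℝ (cen S₁) (cen S₂) = 0 :=
    inner_cen p1 _ _ fun i hi => by rw [cen_apply, if_neg (Finset.disjoint_left.1 hd hi)]
  have e21 : inner ℝ (cen S₂) (cen S₁) = 0 :=
    inner_cen p2 _ _ fun i hi => by rw [cen_apply, if_neg (Finset.disjoint_right.1 hd hi)]
  rw [← real_inner_self_eq_norm_sq, inner_sub_left, inner_sub_right, inner_sub_right, e11, e22,
    e12, e21]
  ring

theorem exists_branch (h : ℕ) : ∀ (S : Finset (Fin d)) (y : Sp d), S.card = 2 ^ h →
    (∀ i ∈ S, ∀ j ∈ S, y i = y j) → dl h < dist y (cen S) →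
    ∃ b : Br d, b.shape = Sh.full h ∧ b.terms = S.val ∧
      b.len + dist y b.pos = dist y (cen S) + (sv h).sum ∧
      b.pos = cen S + (dl h / dist y (cen S)) • (y - cen S) ∧
      dist y b.pos = dist y (cen S) - dl h ∧ b.ndg := by
  induction h with
  | zero =>
    intro S y hS _ _
    rw [pow_zero, Finset.card_eq_one] at hS
    obtain ⟨i, rfl⟩ := hS
    refine ⟨Br.term i, rfl, rfl, ?_, ?_, ?_, trivial⟩
    · rw [cen_singleton]
      simp [Br.len, Br.pos, sv]
    · rw [cen_singleton]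
      simp [Br.pos, dl]
    · rw [cen_singleton]
      simp [Br.pos, dl]
  | succ h ih =>
    intro S y hS hy hdl
    have hpos : 0 < dist y (cen S) := (dl_nonneg _).trans_lt hdl
    obtain ⟨S₁, S₂, hd, h1, h2, hmem, hval⟩ := split_half hS
    have p1 : 0 < S₁.card := by rw [h1]; positivity
    have p2 : 0 < S₂.card := by rw [h2]; positivity
    obtain ⟨r, hr⟩ : ∃ r, r = dist y (cen S) := ⟨_, rfl⟩
    rw [← hr] at hdl hpos
    obtain ⟨δ, hδ⟩ : ∃ δ, δ = dl (h + 1) := ⟨_, rfl⟩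
    have hδpos : 0 < δ := hδ ▸ dl_pos h
    have hδsq : δ ^ 2 = 1 / (6 * 2 ^ h) := hδ ▸ dl_sq h
    rw [← hδ] at hdl
    obtain ⟨w, hw⟩ : ∃ w, w = y - cen S := ⟨_, rfl⟩
    have hwr : ‖w‖ = r := by rw [hw, hr, dist_eq_norm]
    obtain ⟨s, hs⟩ : ∃ s, s = cen S + (δ / r) • w := ⟨_, rfl⟩
    have hcen : cen S = (1 / 2 : ℝ) • (cen S₁ + cen S₂) := by
      ext i
      rw [PiLp.smul_apply, PiLp.add_apply, cen_apply, cen_apply, cen_apply, hS, h1, h2, smul_eq_mul]
      by_cases hi1 : i ∈ S₁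
      · have hi2 : i ∉ S₂ := Finset.disjoint_left.1 hd hi1
        rw [if_pos ((hmem i).2 (Or.inl hi1)), if_pos hi1, if_neg hi2, pow_succ]
        push_cast
        field_simp
        norm_num
      · by_cases hi2 : i ∈ S₂
        · rw [if_pos ((hmem i).2 (Or.inr hi2)), if_neg hi1, if_pos hi2, pow_succ]
          push_cast
          field_simp
          norm_num
        · rw [if_neg (fun hi => ((hmem i).1 hi).elim hi1 hi2), if_neg hi1, if_neg hi2]
          norm_num
    obtain ⟨i0, hi0⟩ : ∃ i0, i0 ∈ S₁ := Finset.card_pos.1 p1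
    have hwc : ∀ i ∈ S, w i = w i0 := by
      intro i hi
      rw [hw, PiLp.sub_apply, PiLp.sub_apply, cen_apply, cen_apply, if_pos hi,
        if_pos ((hmem i0).2 (Or.inl hi0)), hy i hi i0 ((hmem i0).2 (Or.inl hi0))]
    have hin1 : inner ℝ (cen S₁) w = w i0 :=
      inner_cen p1 w _ fun i hi => hwc i ((hmem i).2 (Or.inl hi))
    have hin2 : inner ℝ (cen S₂) w = w i0 :=
      inner_cen p2 w _ fun i hi => hwc i ((hmem i).2 (Or.inr hi))
    have hc12 := cen_facts hd h1 h2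
    have hr0 : r ≠ 0 := hpos.ne'
    -- distances from `s` to the two centroids
    have hort : inner ℝ (cen S₁ - cen S₂) w = 0 := by
      rw [inner_sub_left, hin1, hin2, sub_self]
    have hkey : ∀ c : ℝ, c ^ 2 = 1 / 4 →
        ‖c • (cen S₁ - cen S₂) + (δ / r) • w‖ ^ 2 = (2 * δ) ^ 2 := by
      intro c hc
      rw [norm_add_sq_real, real_inner_smul_left, real_inner_smul_right, hort, norm_smul,
        norm_smul, mul_pow, mul_pow, hc12, hwr, Real.norm_eq_abs, Real.norm_eq_abs, sq_abs,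
        sq_abs, hc, div_pow, mul_pow, hδsq]
      have h3 : (0 : ℝ) < 2 ^ h := by positivity
      field_simp
      ring
    have hdist1 : dist s (cen S₁) = 2 * δ := by
      have e : s - cen S₁ = -((1 / 2 : ℝ) • (cen S₁ - cen S₂)) + (δ / r) • w := by
        rw [hs, hcen]
        module
      have hsq : ‖s - cen S₁‖ ^ 2 = (2 * δ) ^ 2 := by
        rw [e, ← neg_smul]
        exact hkey (-(1 / 2)) (by norm_num)
      rw [dist_eq_norm]
      exact (sq_eq_sq₀ (norm_nonneg _) (by linarith)).1 hsq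
    have hdist2 : dist s (cen S₂) = 2 * δ := by
      have e : s - cen S₂ = (1 / 2 : ℝ) • (cen S₁ - cen S₂) + (δ / r) • w := by
        rw [hs, hcen]
        module
      have hsq : ‖s - cen S₂‖ ^ 2 = (2 * δ) ^ 2 := by
        rw [e]
        exact hkey (1 / 2) (by norm_num)
      rw [dist_eq_norm]
      exact (sq_eq_sq₀ (norm_nonneg _) (by linarith)).1 hsq
    have hys : dist y s = r - δ := by
      have e : y - s = (1 - δ / r) • w := by
        rw [hs, hw]
        module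
      rw [dist_eq_norm, e, norm_smul, hwr, Real.norm_eq_abs, abs_of_nonneg]
      · field_simp
      · rw [sub_nonneg, div_le_one hpos]
        exact hdl.le
    have hsc : ∀ i ∈ S, ∀ j ∈ S, s i = s j := by
      intro i hi j hj
      rw [hs, PiLp.add_apply, PiLp.add_apply, PiLp.smul_apply, PiLp.smul_apply, cen_apply,
        cen_apply, if_pos hi, if_pos hj, hwc i hi, hwc j hj]
    have hlt : dl h < 2 * δ := hδ ▸ dl_lt h
    obtain ⟨b₁, a1, a2, a3, -, a5, a6⟩ := ih S₁ s h1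
      (fun i hi j hj => hsc i ((hmem i).2 (Or.inl hi)) j ((hmem j).2 (Or.inl hj)))
      (by rw [hdist1]; exact hlt)
    obtain ⟨b₂, c1, c2, c3, -, c5, c6⟩ := ih S₂ s h2
      (fun i hi j hj => hsc i ((hmem i).2 (Or.inr hi)) j ((hmem j).2 (Or.inr hj)))
      (by rw [hdist2]; exact hlt)
    refine ⟨Br.pt s b₁ b₂, ?_, ?_, ?_, ?_, hys.trans (by rw [← hr, ← hδ]), ?_⟩
    · show Sh.node b₁.shape b₂.shape = _
      rw [a1, c1]
      rfl
    · show b₁.terms + b₂.terms = _
      rw [a2, c2, hval]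
    · show dist s b₁.pos + dist s b₂.pos + b₁.len + b₂.len + dist y s = _
      rw [← hr, hys, sv, List.sum_cons, List.sum_append, ← three_dl, ← hδ]
      rw [hdist1] at a3
      rw [hdist2] at c3
      linarith
    · show s = _
      rw [← hr, ← hδ, ← hw, hs]
    · refine ⟨dist_pos.1 ?_, dist_pos.1 ?_, a6, c6⟩
      · rw [a5, hdist1]
        linarith
      · rw [c5, hdist2]
        linarith

/-- The tree with two full binary trees joined by an edge, with the length of the lower bound. -/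
theorem exists_optimal (k : ℕ) : ∃ T : FST (2 ^ (k + 1)), T.top = (Sh.full k, Sh.full k) ∧
    T.length = (Ls k).sum ∧ T.ndg := by
  obtain ⟨S₁, S₂, hd, h1, h2, hmem, hval⟩ := split_half
    (show (Finset.univ : Finset (Fin (2 ^ (k + 1)))).card = 2 ^ (k + 1) by
      rw [Finset.card_univ, Fintype.card_fin])
  have hc12 := cen_facts hd h1 h2
  have hD : dist (cen S₂) (cen S₁) = Real.sqrt (2 / 2 ^ k) := by
    rw [dist_comm, dist_eq_norm, ← hc12, Real.sqrt_sq (norm_nonneg _)]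
  obtain ⟨D, hDD⟩ : ∃ D, D = Real.sqrt (2 / 2 ^ k) := ⟨_, rfl⟩
  have hDpos : 0 < D := hDD ▸ Real.sqrt_pos.2 (by positivity)
  have htop : 2 * dl k < D := hDD ▸ dl_lt_top k
  have hdl0 := dl_nonneg k
  rw [← hDD] at hD
  obtain ⟨b₁, a1, a2, a3, a4, -, a6⟩ := exists_branch k S₁ (cen S₂) h1
    (fun i hi j hj => by
      rw [cen_apply, cen_apply, if_neg (Finset.disjoint_left.1 hd hi),
        if_neg (Finset.disjoint_left.1 hd hj)])
    (by rw [hD]; linarith)
  have hD0 : D ≠ 0 := hDpos.ne'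
  have hdist : dist b₁.pos (cen S₂) = D - dl k := by
    have e : b₁.pos - cen S₂ = -((1 - dl k / D) • (cen S₂ - cen S₁)) := by
      rw [a4, hD]
      module
    have hn : ‖cen S₂ - cen S₁‖ = D := by rw [← dist_eq_norm]; exact hD
    rw [dist_eq_norm, e, norm_neg, norm_smul, hn, Real.norm_eq_abs, abs_of_nonneg]
    · field_simp
    · rw [sub_nonneg, div_le_one hDpos]
      linarith
  obtain ⟨b₂, c1, c2, c3, -, c5, c6⟩ := exists_branch k S₂ b₁.pos h2
    (fun i hi j hj => by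
      rw [a4, PiLp.add_apply, PiLp.add_apply, PiLp.smul_apply, PiLp.smul_apply, PiLp.sub_apply,
        PiLp.sub_apply, cen_apply, cen_apply, cen_apply, cen_apply, if_pos hi, if_pos hj,
        if_neg (Finset.disjoint_right.1 hd hi), if_neg (Finset.disjoint_right.1 hd hj)])
    (by rw [hdist]; linarith)
  refine ⟨⟨b₁, b₂, by rw [a2, c2, hval]⟩, ?_, ?_, ?_⟩
  · show (b₁.shape, b₂.shape) = _
    rw [a1, c1]
  · show dist b₁.pos b₂.pos + b₁.len + b₂.len = _
    rw [Ls, List.sum_cons, List.sum_cons, List.sum_append, ← hDD]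
    rw [hD, dist_comm, hdist] at a3
    rw [hdist] at c3
    linarith
  · refine ⟨dist_pos.1 ?_, a6, c6⟩
    show 0 < dist b₁.pos b₂.pos
    rw [c5, hdist]
    linarith

end Pool.Agent.Helper877_Smith
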