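import Mathlib

/-!
# Unlabelled binary trees and the exchange argument (seat helper877, MP_ebc12b_co)

Rooted binary trees `Sh`, unrooted binary trees as pairs of rooted trees joined by an edge, their
isomorphism, and the quadratic form `Z P T` whose minimum over all unrooted binary trees with
`2 ^ (k + 1)` leaves is attained exactly at two full binary trees joined by an edge.
-/

set_option autoImplicit false

namespace Pool.Agent.Helper877_Smith

/-- Unlabelled rooted binary trees: a leaf, or a vertex with two children. -/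
inductive Sh : Type
  | leaf : Sh
  | node (l r : Sh) : Sh
  deriving DecidableEq

namespace Sh

/-- The number of leaves. -/
def size : Sh → ℕ
  | leaf => 1
  | node l r => l.size + r.size

/-- The full binary tree of height `h`: all `2 ^ h` leaves at depth `h`. -/
def full : ℕ → Sh
  | 0 => leaf
  | h + 1 => node (full h) (full h)

end Sh

/-- Isomorphism of rooted binary trees: the equivalence relation generated by exchanging the two
children of a vertex, anywhere in the tree. -/
inductive RIso : Sh → Sh → Prop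
  | refl (s : Sh) : RIso s s
  | symm {s t : Sh} : RIso s t → RIso t s
  | trans {s t u : Sh} : RIso s t → RIso t u → RIso s u
  | swap (l r : Sh) : RIso (Sh.node l r) (Sh.node r l)
  | congr {l l' r r' : Sh} : RIso l l' → RIso r r' → RIso (Sh.node l r) (Sh.node l' r')

/-- A pair `(A, B)` stands for the unrooted tree obtained by joining the roots of the rooted trees
`A` and `B` by an edge. `UIso` is isomorphism of unrooted trees: the equivalence relation generated
by isomorphism of the two rooted parts, by exchanging the two parts, and by moving the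
distinguished edge across a vertex of degree three. -/
inductive UIso : Sh × Sh → Sh × Sh → Prop
  | refl (T : Sh × Sh) : UIso T T
  | symm {S T : Sh × Sh} : UIso S T → UIso T S
  | trans {S T U : Sh × Sh} : UIso S T → UIso T U → UIso S U
  | swap (A B : Sh) : UIso (A, B) (B, A)
  | move (A B C : Sh) : UIso (Sh.node A B, C) (A, Sh.node B C)
  | congr {A A' B B' : Sh} : RIso A A' → RIso B B' → UIso (A, B) (A', B')

/-! ### Sizes -/

theorem Sh.size_pos (s : Sh) : 0 < s.size := by
  induction s with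
  | leaf => exact Nat.one_pos
  | node l r h1 h2 => simp only [Sh.size]; omega

theorem Sh.size_full (h : ℕ) : (Sh.full h).size = 2 ^ h := by
  induction h with
  | zero => rfl
  | succ h ih => simp only [Sh.full, Sh.size, ih, pow_succ]; omega

theorem RIso.size {s t : Sh} (h : RIso s t) : s.size = t.size := by
  induction h with
  | refl => rfl
  | symm _ ih => exact ih.symm
  | trans _ _ h1 h2 => exact h1.trans h2
  | swap l r => simp only [Sh.size]; omega
  | congr _ _ h1 h2 => simp only [Sh.size]; omega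

theorem UIso.size {S T : Sh × Sh} (h : UIso S T) :
    S.1.size + S.2.size = T.1.size + T.2.size := by
  induction h with
  | refl => rfl
  | symm _ ih => exact ih.symm
  | trans _ _ h1 h2 => exact h1.trans h2
  | swap A B => exact Nat.add_comm _ _
  | move A B C => simp only [Sh.size]; omega
  | congr h1 h2 => rw [h1.size, h2.size]

theorem finite_size_le (n : ℕ) : {s : Sh | s.size ≤ n}.Finite := by
  induction n with
  | zero =>
    convert Set.finite_empty
    ext s
    simp only [Set.mem_ofPred_eq, Set.mem_empty_iff_false, iff_false]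
    have := s.size_pos
    omega
  | succ n ih =>
    refine ((Set.Finite.image2 Sh.node ih ih).insert Sh.leaf).subset ?_
    intro s hs
    cases s with
    | leaf => exact Set.mem_insert _ _
    | node l r =>
      refine Set.mem_insert_of_mem _ ⟨l, ?_, r, ?_, rfl⟩
      · have := r.size_pos
        simp only [Set.mem_ofPred_eq, Sh.size] at hs ⊢
        omega
      · have := l.size_pos
        simp only [Set.mem_ofPred_eq, Sh.size] at hs ⊢
        omega

theorem finite_size (n : ℕ) : {T : Sh × Sh | T.1.size + T.2.size = n}.Finite := by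
  refine ((finite_size_le n).prod (finite_size_le n)).subset ?_
  rintro ⟨A, B⟩ h
  simp only [Set.mem_ofPred_eq] at h
  refine ⟨?_, ?_⟩ <;> simp only [Set.mem_ofPred_eq] <;> omega

/-! ### The algebra -/

/-- the product -/
noncomputable def mulV (u v : ℝ × ℝ) : ℝ × ℝ :=
  (u.1 * v.1 - u.2 * v.2 / 4, (u.1 * v.2 + u.2 * v.1 + u.2 * v.2) / 4)

/-- the form -/
def ip (u v : ℝ × ℝ) : ℝ := u.1 * v.1 - u.2 * v.2

/-- the value of a rooted tree, with `P` at the leaves -/
noncomputable def val (P : ℝ × ℝ) : Sh → ℝ × ℝ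
  | Sh.leaf => P
  | Sh.node l r => mulV (val P l) (val P r)

/-- the value of an unrooted tree -/
noncomputable def ZZ (P : ℝ × ℝ) (T : Sh × Sh) : ℝ := ip (val P T.1) (val P T.2)

theorem mulV_comm (u v : ℝ × ℝ) : mulV u v = mulV v u := by
  unfold mulV
  ext <;> simp only <;> ring

theorem ip_comm (u v : ℝ × ℝ) : ip u v = ip v u := by
  unfold ip
  ring

theorem ip_move (u v w : ℝ × ℝ) : ip (mulV u v) w = ip u (mulV v w) := by
  unfold ip mulV
  simp only
  ring

theorem val_riso (P : ℝ × ℝ) {s t : Sh} (h : RIso s t) : val P s = val P t := by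
  induction h with
  | refl => rfl
  | symm _ ih => exact ih.symm
  | trans _ _ h1 h2 => exact h1.trans h2
  | swap l r => exact mulV_comm _ _
  | congr _ _ h1 h2 => simp only [val, h1, h2]

theorem ZZ_uiso (P : ℝ × ℝ) {S T : Sh × Sh} (h : UIso S T) : ZZ P S = ZZ P T := by
  induction h with
  | refl => rfl
  | symm _ ih => exact ih.symm
  | trans _ _ h1 h2 => exact h1.trans h2
  | swap A B => exact ip_comm _ _
  | move A B C => exact ip_move _ _ _
  | congr h1 h2 => simp only [ZZ, val_riso P h1, val_riso P h2]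

theorem mulV_pos {P u v : ℝ × ℝ} (hP : 0 < P.2) (hP' : P.2 < P.1) (hu1 : 0 < u.1) (hu2 : 0 < u.2)
    (hu : P.1 * u.2 ≤ P.2 * u.1) (hv1 : 0 < v.1) (hv2 : 0 < v.2) (hv : P.1 * v.2 ≤ P.2 * v.1) :
    0 < (mulV u v).1 ∧ 0 < (mulV u v).2 ∧ P.1 * (mulV u v).2 < P.2 * (mulV u v).1 := by
  have hP1 : 0 < P.1 := hP.trans hP'
  have hu' : u.2 < u.1 := by
    have h1 : P.2 * u.1 < P.1 * u.1 := mul_lt_mul_of_pos_right hP' hu1
    exact lt_of_mul_lt_mul_left (hu.trans_lt h1) hP1.le
  have hv' : v.2 < v.1 := by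
    have h1 : P.2 * v.1 < P.1 * v.1 := mul_lt_mul_of_pos_right hP' hv1
    exact lt_of_mul_lt_mul_left (hv.trans_lt h1) hP1.le
  have huv : u.2 * v.2 < u.1 * v.1 := mul_lt_mul'' hu' hv' hu2.le hv2.le
  have huv0 : 0 < u.2 * v.2 := mul_pos hu2 hv2
  refine ⟨?_, ?_, ?_⟩
  · simp only [mulV]; linarith
  · simp only [mulV]
    have h1 := mul_pos hu1 hv2
    have h2 := mul_pos hu2 hv1
    linarith
  · simp only [mulV]
    have h1 : P.1 * (u.1 * v.2) ≤ P.2 * (u.1 * v.1) := by
      have := mul_le_mul_of_nonneg_left hv hu1.le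
      linarith
    have h2 : P.1 * (u.2 * v.1) ≤ P.2 * (u.1 * v.1) := by
      have := mul_le_mul_of_nonneg_right hu hv1.le
      linarith
    have h3 : P.1 * (u.2 * v.2) ≤ P.2 * (u.1 * v.2) := by
      have := mul_le_mul_of_nonneg_right hu hv2.le
      linarith
    have h4 : P.2 * (u.1 * v.2) < P.2 * (u.1 * v.1) :=
      mul_lt_mul_of_pos_left (mul_lt_mul_of_pos_left hv' hu1) hP
    have h5 : P.2 * (u.2 * v.2) < P.2 * (u.1 * v.1) := mul_lt_mul_of_pos_left huv hP
    linarith

theorem val_pos {P : ℝ × ℝ} (hP : 0 < P.2) (hP' : P.2 < P.1) (s : Sh) :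
    0 < (val P s).1 ∧ 0 < (val P s).2 ∧ P.1 * (val P s).2 ≤ P.2 * (val P s).1 := by
  induction s with
  | leaf => exact ⟨hP.trans hP', hP, by simp only [val]; linarith [mul_comm P.1 P.2]⟩
  | node l r hl hr =>
    have h := mulV_pos hP hP' hl.1 hl.2.1 hl.2.2 hr.1 hr.2.1 hr.2.2
    exact ⟨h.1, h.2.1, h.2.2.le⟩

theorem val_strict {P : ℝ × ℝ} (hP : 0 < P.2) (hP' : P.2 < P.1) {s : Sh} (hs : s ≠ Sh.leaf) :
    P.1 * (val P s).2 < P.2 * (val P s).1 := by
  cases s with
  | leaf => exact absurd rfl hs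
  | node l r =>
    have hl := val_pos hP hP' l
    have hr := val_pos hP hP' r
    exact (mulV_pos hP hP' hl.1 hl.2.1 hl.2.2 hr.1 hr.2.1 hr.2.2).2.2

theorem val_lt {P : ℝ × ℝ} (hP : 0 < P.2) (hP' : P.2 < P.1) (s : Sh) :
    (val P s).2 < (val P s).1 := by
  obtain ⟨h1, h2, h3⟩ := val_pos hP hP' s
  have h4 : P.2 * (val P s).1 < P.1 * (val P s).1 := mul_lt_mul_of_pos_right hP' h1
  exact lt_of_mul_lt_mul_left (h3.trans_lt h4) (hP.trans hP').le

/-- action of a list of vectors -/
noncomputable def act (L : List (ℝ × ℝ)) (w : ℝ × ℝ) : ℝ × ℝ := L.foldr mulV w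

theorem act_lin (L : List (ℝ × ℝ)) (w : ℝ × ℝ) :
    (act L w).1 = w.1 * (act L (1, 0)).1 + w.2 * (act L (0, 1)).1 ∧
      (act L w).2 = w.1 * (act L (1, 0)).2 + w.2 * (act L (0, 1)).2 := by
  induction L with
  | nil => simp [act]
  | cons X L ih =>
    have h1 : ∀ v, act (X :: L) v = mulV X (act L v) := fun v => rfl
    rw [h1, h1, h1]
    simp only [mulV]
    rw [ih.1, ih.2]
    constructor <;> ring

theorem act_cone (L : List (ℝ × ℝ)) (hL : ∀ X ∈ L, 0 < X.2 ∧ X.2 < X.1) {w : ℝ × ℝ}
    (h0 : 0 < w.1) (h1 : -w.1 ≤ 2 * w.2) (h2 : w.2 ≤ w.1) :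
    0 < (act L w).1 ∧ -(act L w).1 ≤ 2 * (act L w).2 ∧ (act L w).2 ≤ (act L w).1 := by
  induction L with
  | nil => exact ⟨h0, h1, h2⟩
  | cons X L ih =>
    obtain ⟨i0, i1, i2⟩ := ih (fun Y hY => hL Y (List.mem_cons_of_mem _ hY))
    obtain ⟨hX, hX'⟩ := hL X List.mem_cons_self
    have hX1 : 0 < X.1 := hX.trans hX'
    have hh : act (X :: L) w = mulV X (act L w) := rfl
    rw [hh]
    set a := (act L w).1
    set b := (act L w).2
    have q1 : X.2 * b ≤ X.2 * a := mul_le_mul_of_nonneg_left i2 hX.le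
    have q2 : X.2 * a < X.1 * a := mul_lt_mul_of_pos_right hX' i0
    have q3 : X.1 * b ≤ X.1 * a := mul_le_mul_of_nonneg_left i2 hX1.le
    have q4 : X.1 * (-a) ≤ X.1 * (2 * b) := mul_le_mul_of_nonneg_left i1 hX1.le
    have q5 : X.2 * (-a) ≤ X.2 * (2 * b) := mul_le_mul_of_nonneg_left i1 hX.le
    have q6 : 0 < X.1 * a := mul_pos hX1 i0
    have q7 : 0 < X.2 * a := mul_pos hX i0
    refine ⟨?_, ?_, ?_⟩ <;> simp only [mulV] <;> linarith

/-- the exchange inequality -/
theorem exchange_alg {α β x1 x2 y1 y2 B11 B12 B21 B22 : ℝ} (hβ : 0 < β) (hα : β < α)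
    (hx1 : 0 < x1) (hx2 : 0 < x2) (hx : α * x2 < β * x1)
    (hy1 : 0 < y1) (hy2 : 0 < y2) (hy : α * y2 < β * y1)
    (hS : 0 < B11 - (B12 + B21) / 2 + B22 / 4) :
    ∀ B : ℝ × ℝ → ℝ × ℝ → ℝ,
      (∀ u v, B u v = B11 * u.1 * v.1 + B12 * u.1 * v.2 + B21 * u.2 * v.1 + B22 * u.2 * v.2) →
      B (mulV (α, β) (α, β)) (mulV (y1, y2) (x1, x2)) <
          B (mulV (x1, x2) (α, β)) (mulV (y1, y2) (α, β)) ∨
        B (mulV (x1, x2) (y1, y2)) (mulV (α, β) (α, β)) <
          B (mulV (x1, x2) (α, β)) (mulV (y1, y2) (α, β)) := by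
  intro B hB
  have h1 : 0 < (β * x1 - α * x2) * (β * y1 - α * y2) * (B11 - (B12 + B21) / 2 + B22 / 4) / 4 :=
    div_pos (mul_pos (mul_pos (sub_pos.2 hx) (sub_pos.2 hy)) hS) (by norm_num)
  rcases le_total 0 ((B12 - B21) / 2) with hk | hk
  · left
    have h2 : B (mulV (x1, x2) (α, β)) (mulV (y1, y2) (α, β)) -
        B (mulV (α, β) (α, β)) (mulV (y1, y2) (x1, x2)) =
        (β * x1 - α * x2) * (β * y1 - α * y2) * (B11 - (B12 + B21) / 2 + B22 / 4) / 4 +
        (B12 - B21) / 2 * ((β * x1 - α * x2) *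
          (2 * α * y1 + α * y2 + β * y1 + β * y2 / 2) / 4) := by
      rw [hB, hB]
      simp only [mulV]
      ring
    have h3 : 0 ≤ (B12 - B21) / 2 * ((β * x1 - α * x2) *
          (2 * α * y1 + α * y2 + β * y1 + β * y2 / 2) / 4) := by
      refine mul_nonneg hk (div_nonneg (mul_nonneg (sub_pos.2 hx).le ?_) (by norm_num))
      have hα0 : 0 < α := hβ.trans hα
      positivity
    linarith
  · right
    have h2 : B (mulV (x1, x2) (α, β)) (mulV (y1, y2) (α, β)) -
        B (mulV (x1, x2) (y1, y2)) (mulV (α, β) (α, β)) =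
        (β * x1 - α * x2) * (β * y1 - α * y2) * (B11 - (B12 + B21) / 2 + B22 / 4) / 4 +
        (-((B12 - B21) / 2)) * ((β * y1 - α * y2) *
          (2 * α * x1 + β * x1 + α * x2 + β * x2 / 2) / 4) := by
      rw [hB, hB]
      simp only [mulV]
      ring
    have h3 : 0 ≤ (-((B12 - B21) / 2)) * ((β * y1 - α * y2) *
          (2 * α * x1 + β * x1 + α * x2 + β * x2 / 2) / 4) := by
      refine mul_nonneg (neg_nonneg.2 hk)
        (div_nonneg (mul_nonneg (sub_pos.2 hy).le ?_) (by norm_num))
      have hα0 : 0 < α := hβ.trans hα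
      positivity
    linarith

/-- grafting a list of trees -/
def comb (L : List Sh) (B : Sh) : Sh := L.foldr Sh.node B

theorem val_comb (P : ℝ × ℝ) (L : List Sh) (B : Sh) :
    val P (comb L B) = act (L.map (val P)) (val P B) := by
  induction L with
  | nil => rfl
  | cons X L ih =>
    have h1 : comb (X :: L) B = Sh.node X (comb L B) := rfl
    rw [h1]
    simp only [val, ih]
    rfl

theorem size_comb (L : List Sh) (B : Sh) : (comb L B).size = (L.map Sh.size).sum + B.size := by
  induction L with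
  | nil => simp [comb]
  | cons X L ih =>
    have h1 : comb (X :: L) B = Sh.node X (comb L B) := rfl
    rw [h1]
    simp only [Sh.size, ih, List.map_cons, List.sum_cons]
    omega

theorem exchange {P : ℝ × ℝ} (hP : 0 < P.2) (hP' : P.2 < P.1) {X Y : Sh} (hX : X ≠ Sh.leaf)
    (hY : Y ≠ Sh.leaf) (L : List Sh) :
    ∃ T' : Sh × Sh, T'.1.size + T'.2.size =
        Sh.leaf.size + (Sh.node X (comb L (Sh.node Y Sh.leaf))).size ∧
      ZZ P T' < ZZ P (Sh.leaf, Sh.node X (comb L (Sh.node Y Sh.leaf))) := by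
  have px := val_pos hP hP' X
  have py := val_pos hP hP' Y
  have sx := val_strict hP hP' hX
  have sy := val_strict hP hP' hY
  rcases hvx : val P X with ⟨x1, x2⟩
  rcases hvy : val P Y with ⟨y1, y2⟩
  obtain ⟨α, β⟩ := P
  rw [hvx] at px sx
  rw [hvy] at py sy
  simp only at px py sx sy hP hP'
  set M := L.map (val (α, β)) with hM
  have hML : ∀ Z ∈ M, 0 < Z.2 ∧ Z.2 < Z.1 := by
    intro Z hZ
    rw [hM, List.mem_map] at hZ
    obtain ⟨s, -, rfl⟩ := hZ
    exact ⟨(val_pos hP hP' s).2.1, val_lt hP hP' s⟩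
  have hcone := act_cone M hML (w := (1, -1 / 2)) (by norm_num) (by norm_num) (by norm_num)
  have hS : 0 < (act M (1, 0)).1 - ((act M (0, 1)).1 + -(act M (1, 0)).2) / 2 +
      (-(act M (0, 1)).2) / 4 := by
    have hl := act_lin M (1, -1 / 2)
    simp only at hl
    rw [hl.1, hl.2] at hcone
    linarith [hcone.1, hcone.2.1]
  have hB : ∀ u v : ℝ × ℝ, ip u (act M v) = (act M (1, 0)).1 * u.1 * v.1 +
      (act M (0, 1)).1 * u.1 * v.2 + (-(act M (1, 0)).2) * u.2 * v.1 +
      (-(act M (0, 1)).2) * u.2 * v.2 := by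
    intro u v
    have hl := act_lin M v
    unfold ip
    rw [hl.1, hl.2]
    ring
  have hZ0 : ZZ (α, β) (Sh.leaf, Sh.node X (comb L (Sh.node Y Sh.leaf))) =
      ip (mulV (x1, x2) (α, β)) (act M (mulV (y1, y2) (α, β))) := by
    unfold ZZ
    simp only [val, val_comb, hvx, hvy, ← hM]
    rw [← ip_move, mulV_comm (α, β)]
  have hex := exchange_alg hP hP' px.1 px.2.1 sx py.1 py.2.1 sy hS
    (fun u v => ip u (act M v)) hB
  rcases hex with h | h
  · refine ⟨(Sh.node Sh.leaf Sh.leaf, comb L (Sh.node Y X)), ?_, ?_⟩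
    · simp only [Sh.size, size_comb]; omega
    · rw [hZ0]
      unfold ZZ
      simp only [val, val_comb, hvx, hvy, ← hM]
      exact h
  · refine ⟨(Sh.node X Y, comb L (Sh.node Sh.leaf Sh.leaf)), ?_, ?_⟩
    · simp only [Sh.size, size_comb]; omega
    · rw [hZ0]
      unfold ZZ
      simp only [val, val_comb, hvx, hvy, ← hM]
      exact h

/-! ### Pairing the leaves -/

/-- the number of leaves that are not in a cherry -/
def unp : Sh → ℕ
  | Sh.leaf => 1
  | Sh.node l r => if l = Sh.leaf ∧ r = Sh.leaf then 0 else unp l + unp r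

theorem unp_parity (s : Sh) : unp s % 2 = s.size % 2 := by
  induction s with
  | leaf => rfl
  | node l r hl hr =>
    unfold unp
    split_ifs with h
    · rw [h.1, h.2]; rfl
    · simp only [Sh.size]; omega

theorem exists_comb {B : Sh} (hB : B ≠ Sh.leaf) (h : 0 < unp B) :
    ∃ L Y, Y ≠ Sh.leaf ∧ RIso B (comb L (Sh.node Y Sh.leaf)) := by
  induction B with
  | leaf => exact absurd rfl hB
  | node l r hl hr =>
    unfold unp at h
    split_ifs at h with h'
    · exact absurd h (lt_irrefl _)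
    · by_cases hl0 : l = Sh.leaf
      · have hr0 : r ≠ Sh.leaf := fun hr0 => h' ⟨hl0, hr0⟩
        refine ⟨[], r, hr0, ?_⟩
        rw [hl0]
        exact RIso.swap _ _
      · by_cases hr0 : r = Sh.leaf
        · refine ⟨[], l, hl0, ?_⟩
          rw [hr0]
          exact RIso.refl _
        · rcases Nat.eq_zero_or_pos (unp l) with h0 | h0
          · have h1 : 0 < unp r := by omega
            obtain ⟨L, Y, hY, hLY⟩ := hr hr0 h1
            exact ⟨l :: L, Y, hY, RIso.congr (RIso.refl l) hLY⟩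
          · obtain ⟨L, Y, hY, hLY⟩ := hl hl0 h0
            exact ⟨r :: L, Y, hY, (RIso.swap l r).trans (RIso.congr (RIso.refl r) hLY)⟩

/-- no leaf is unpaired -/
def NU (T : Sh × Sh) : Prop :=
  ∀ X W, X ≠ Sh.leaf → W ≠ Sh.leaf → ¬ UIso T (Sh.leaf, Sh.node X W)

theorem descent {P : ℝ × ℝ} (hP : 0 < P.2) (hP' : P.2 < P.1) {T : Sh × Sh}
    (hT : (T.1.size + T.2.size) % 2 = 0) (h : ¬ NU T) :
    ∃ T' : Sh × Sh, T'.1.size + T'.2.size = T.1.size + T.2.size ∧ ZZ P T' < ZZ P T := by
  unfold NU at h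
  push Not at h
  obtain ⟨X, W, hX, hW, hT'⟩ := h
  have hs := hT'.size
  have hodd : unp (Sh.node X W) % 2 = 1 := by
    rw [unp_parity]
    simp only [Sh.size] at hs ⊢
    omega
  have hun : unp (Sh.node X W) = unp X + unp W := by
    rw [unp, if_neg]
    rintro ⟨h1, -⟩
    exact hX h1
  rw [hun] at hodd
  rcases Nat.eq_zero_or_pos (unp W) with h0 | h0
  · have h1 : 0 < unp X := by omega
    obtain ⟨L, Y, hY, hLY⟩ := exists_comb hX h1
    have hT2 : UIso T (Sh.leaf, Sh.node W (comb L (Sh.node Y Sh.leaf))) :=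
      hT'.trans (UIso.congr (RIso.refl _)
        ((RIso.swap X W).trans (RIso.congr (RIso.refl W) hLY)))
    obtain ⟨T', h2, h3⟩ := exchange hP hP' hW hY L
    refine ⟨T', ?_, ?_⟩
    · rw [h2, hT2.size]
    · rw [ZZ_uiso P hT2]
      exact h3
  · obtain ⟨L, Y, hY, hLY⟩ := exists_comb hW h0
    have hT2 : UIso T (Sh.leaf, Sh.node X (comb L (Sh.node Y Sh.leaf))) :=
      hT'.trans (UIso.congr (RIso.refl _) (RIso.congr (RIso.refl X) hLY))
    obtain ⟨T', h2, h3⟩ := exchange hP hP' hX hY L
    refine ⟨T', ?_, ?_⟩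
    · rw [h2, hT2.size]
    · rw [ZZ_uiso P hT2]
      exact h3

/-- every leaf is replaced by a cherry -/
def expand : Sh → Sh
  | Sh.leaf => Sh.node Sh.leaf Sh.leaf
  | Sh.node l r => Sh.node (expand l) (expand r)

theorem expand_full (h : ℕ) : expand (Sh.full h) = Sh.full (h + 1) := by
  induction h with
  | zero => rfl
  | succ h ih =>
    show Sh.node (expand (Sh.full h)) (expand (Sh.full h)) = _
    rw [ih]
    rfl

theorem size_expand (s : Sh) : (expand s).size = 2 * s.size := by
  induction s with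
  | leaf => rfl
  | node l r hl hr => simp only [expand, Sh.size, hl, hr]; ring

theorem val_expand (P : ℝ × ℝ) (s : Sh) : val P (expand s) = val (mulV P P) s := by
  induction s with
  | leaf => rfl
  | node l r hl hr => simp only [expand, val, hl, hr]

theorem riso_expand {s t : Sh} (h : RIso s t) : RIso (expand s) (expand t) := by
  induction h with
  | refl => exact RIso.refl _
  | symm _ ih => exact ih.symm
  | trans _ _ h1 h2 => exact h1.trans h2
  | swap l r => exact RIso.swap _ _
  | congr _ _ h1 h2 => exact RIso.congr h1 h2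

theorem uiso_expand {S T : Sh × Sh} (h : UIso S T) :
    UIso (expand S.1, expand S.2) (expand T.1, expand T.2) := by
  induction h with
  | refl => exact UIso.refl _
  | symm _ ih => exact ih.symm
  | trans _ _ h1 h2 => exact h1.trans h2
  | swap A B => exact UIso.swap _ _
  | move A B C => exact UIso.move _ _ _
  | congr h1 h2 => exact UIso.congr (riso_expand h1) (riso_expand h2)

theorem NU.of_uiso {S T : Sh × Sh} (hS : NU S) (h : UIso S T) : NU T :=
  fun X W hX hW hT => hS X W hX hW (h.trans hT)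

theorem paired_sub (B : Sh) : ∀ A : Sh, A ≠ Sh.leaf → B ≠ Sh.leaf → NU (A, B) →
    ∃ B', B = expand B' := by
  induction B with
  | leaf => intro A _ hB; exact absurd rfl hB
  | node X Y hX hY =>
    intro A hA _ hNU
    have u1 : UIso (A, Sh.node X Y) (X, Sh.node Y A) :=
      (UIso.swap _ _).trans (UIso.move _ _ _)
    have u2 : UIso (A, Sh.node X Y) (Y, Sh.node X A) :=
      (UIso.congr (RIso.refl A) (RIso.swap X Y)).trans ((UIso.swap _ _).trans (UIso.move _ _ _))
    by_cases hX0 : X = Sh.leaf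
    · by_cases hY0 : Y = Sh.leaf
      · exact ⟨Sh.leaf, by rw [hX0, hY0]; rfl⟩
      · subst hX0
        exact absurd u1 (hNU Y A hY0 hA)
    · by_cases hY0 : Y = Sh.leaf
      · subst hY0
        exact absurd u2 (hNU X A hX0 hA)
      · obtain ⟨X', hX'⟩ := hX (Sh.node Y A) (by simp) hX0
          (hNU.of_uiso (u1.trans (UIso.swap _ _)))
        obtain ⟨Y', hY'⟩ := hY (Sh.node X A) (by simp) hY0
          (hNU.of_uiso (u2.trans (UIso.swap _ _)))
        exact ⟨Sh.node X' Y', by rw [hX', hY']; rfl⟩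

theorem paired_main {T : Sh × Sh} (hT : (T.1.size + T.2.size) % 2 = 0)
    (h4 : 4 ≤ T.1.size + T.2.size) (hNU : NU T) :
    ∃ A' B', UIso T (expand A', expand B') := by
  have key : ∀ A B : Sh, A ≠ Sh.leaf → B ≠ Sh.leaf → NU (A, B) →
      ∃ A' B', UIso (A, B) (expand A', expand B') := by
    intro A B hA hB h
    obtain ⟨B', hB'⟩ := paired_sub B A hA hB h
    obtain ⟨A', hA'⟩ := paired_sub A B hB hA (h.of_uiso (UIso.swap _ _))
    exact ⟨A', B', by rw [← hA', ← hB']; exact UIso.refl _⟩
  have key2 : ∀ B : Sh, (1 + B.size) % 2 = 0 → 4 ≤ 1 + B.size → NU (Sh.leaf, B) →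
      ∃ A' B', UIso (Sh.leaf, B) (expand A', expand B') := by
    intro B hB2 hB4 h
    cases B with
    | leaf => simp only [Sh.size] at hB4; omega
    | node X Y =>
      by_cases hX0 : X = Sh.leaf
      · subst hX0
        have hY0 : Y ≠ Sh.leaf := by
          rintro rfl
          simp only [Sh.size] at hB4; omega
        have u : UIso (Sh.leaf, Sh.node Sh.leaf Y) (Sh.node Sh.leaf Sh.leaf, Y) :=
          (UIso.move _ _ _).symm
        obtain ⟨A', B', h5⟩ := key _ _ (by simp) hY0 (h.of_uiso u)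
        exact ⟨A', B', u.trans h5⟩
      · by_cases hY0 : Y = Sh.leaf
        · subst hY0
          have u : UIso (Sh.leaf, Sh.node X Sh.leaf) (Sh.node Sh.leaf Sh.leaf, X) :=
            (UIso.congr (RIso.refl _) (RIso.swap _ _)).trans (UIso.move _ _ _).symm
          obtain ⟨A', B', h5⟩ := key _ _ (by simp) hX0 (h.of_uiso u)
          exact ⟨A', B', u.trans h5⟩
        · exact absurd (UIso.refl _) (h X Y hX0 hY0)
  obtain ⟨A, B⟩ := T
  simp only at hT h4
  by_cases hA : A = Sh.leaf
  · subst hA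
    exact key2 B (by simpa [Sh.size] using hT) (by simpa [Sh.size] using h4) hNU
  · by_cases hB : B = Sh.leaf
    · subst hB
      obtain ⟨A', B', h5⟩ := key2 A (by simp only [Sh.size] at hT; omega)
        (by simp only [Sh.size] at h4; omega) (hNU.of_uiso (UIso.swap _ _))
      exact ⟨A', B', (UIso.swap _ _).trans h5⟩
    · exact key A B hA hB hNU

/-- the minimum of the form, and the trees which attain it -/
theorem min_form (k : ℕ) : ∀ P : ℝ × ℝ, 0 < P.2 → P.2 < P.1 → ∀ T : Sh × Sh,
    T.1.size + T.2.size = 2 ^ (k + 1) →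
      ZZ P (Sh.full k, Sh.full k) ≤ ZZ P T ∧
        (ZZ P T = ZZ P (Sh.full k, Sh.full k) → UIso T (Sh.full k, Sh.full k)) := by
  induction k with
  | zero =>
    intro P _ _ T hT
    obtain ⟨A, B⟩ := T
    have hA := A.size_pos
    have hB := B.size_pos
    simp only [zero_add, pow_one] at hT
    have hA1 : A = Sh.leaf := by
      cases A with
      | leaf => rfl
      | node l r =>
        have := l.size_pos
        have := r.size_pos
        simp only [Sh.size] at hT
        omega
    have hB1 : B = Sh.leaf := by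
      cases B with
      | leaf => rfl
      | node l r =>
        have := l.size_pos
        have := r.size_pos
        simp only [Sh.size] at hT
        omega
    subst hA1 hB1
    exact ⟨le_rfl, fun _ => UIso.refl _⟩
  | succ k ih =>
    intro P hP hP' T hT
    have hPP : 0 < (mulV P P).1 ∧ 0 < (mulV P P).2 ∧ P.1 * (mulV P P).2 < P.2 * (mulV P P).1 :=
      mulV_pos hP hP' (hP.trans hP') hP (by linarith [mul_comm P.1 P.2]) (hP.trans hP') hP
        (by linarith [mul_comm P.1 P.2])
    have hPP' : (mulV P P).2 < (mulV P P).1 := by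
      have h1 : P.2 * (mulV P P).1 < P.1 * (mulV P P).1 := mul_lt_mul_of_pos_right hP' hPP.1
      exact lt_of_mul_lt_mul_left (hPP.2.2.trans h1) (hP.trans hP').le
    have hfull : ZZ P (Sh.full (k + 1), Sh.full (k + 1)) = ZZ (mulV P P) (Sh.full k, Sh.full k) := by
      unfold ZZ
      simp only
      rw [← expand_full, val_expand]
    have heven : 2 ^ (k + 1 + 1) % 2 = 0 := by
      rw [pow_succ]; omega
    have h4 : 4 ≤ 2 ^ (k + 1 + 1) := by
      have h5 : 2 ^ 2 ≤ 2 ^ (k + 1 + 1) := Nat.pow_le_pow_right (by norm_num) (by omega)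
      simpa using h5
    -- a minimal tree is paired
    have key : ∀ T0 : Sh × Sh, T0.1.size + T0.2.size = 2 ^ (k + 1 + 1) →
        (∀ T' : Sh × Sh, T'.1.size + T'.2.size = 2 ^ (k + 1 + 1) → ZZ P T0 ≤ ZZ P T') →
        ZZ P (Sh.full (k + 1), Sh.full (k + 1)) ≤ ZZ P T0 ∧
          (ZZ P T0 = ZZ P (Sh.full (k + 1), Sh.full (k + 1)) →
            UIso T0 (Sh.full (k + 1), Sh.full (k + 1))) := by
      intro T0 h0 hmin
      have hNU : NU T0 := by
        by_contra hc
        obtain ⟨T', h1, h2⟩ := descent hP hP' (by rw [h0]; exact heven) hc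
        exact absurd (hmin T' (h1.trans h0)) (not_le.2 h2)
      obtain ⟨A', B', hu⟩ := paired_main (by rw [h0]; exact heven) (by rw [h0]; exact h4) hNU
      have hsz := hu.size
      simp only [size_expand] at hsz
      have hs' : A'.size + B'.size = 2 ^ (k + 1) := by
        rw [h0] at hsz
        have : 2 ^ (k + 1 + 1) = 2 * 2 ^ (k + 1) := by ring
        omega
      have hZ : ZZ P T0 = ZZ (mulV P P) (A', B') := by
        rw [ZZ_uiso P hu]
        unfold ZZ
        simp only [val_expand]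
      obtain ⟨i1, i2⟩ := ih (mulV P P) hPP.2.1 hPP' (A', B') hs'
      rw [hfull, hZ]
      refine ⟨i1, fun he => ?_⟩
      have h6 := uiso_expand (i2 he)
      simp only [expand_full] at h6
      exact hu.trans h6
    obtain ⟨T0, hT0, hmin⟩ := Set.exists_min_image _ (ZZ P) (finite_size (2 ^ (k + 1 + 1)))
      ⟨T, hT⟩
    have hle : ZZ P (Sh.full (k + 1), Sh.full (k + 1)) ≤ ZZ P T :=
      (key T0 hT0 hmin).1.trans (hmin T hT)
    refine ⟨hle, fun he => (key T hT fun T' hT' => ?_).2 he⟩
    rw [he]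
    exact (key T0 hT0 hmin).1.trans (hmin T' hT')

end Pool.Agent.Helper877_Smith
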