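import Pool.Agent.Helper877_Smith.Marked

/-!
# Local optimality of marked trees (seat helper877, MP_ebc12b_co)
-/

set_option autoImplicit false

namespace Pool.Agent.Helper877_Smith

open Mk

/-- compatible weights -/
structure Wt (w : Mk → ℝ) : Prop where
  node : ∀ l r, w (nd l r) = cF (w l) (w r)
  one : ∀ b, 1 < w (lf b)

theorem Wt.gt {w : Mk → ℝ} (hw : Wt w) (A : Mk) : 1 < w A := by
  induction A with
  | lf b => exact hw.one b
  | nd l r hl hr => rw [hw.node]; exact one_lt_cF hl hr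

theorem Wt.pos {w : Mk → ℝ} (hw : Wt w) (A : Mk) : 0 < w A := zero_lt_one.trans (hw.gt A)

/-- local optimality -/
def St (w : Mk → ℝ) (T : Mk × Mk) : Prop :=
  ∀ x a y b L, MU T (nd x a, cmb L (nd y b)) → ¬ (w b < w x ∧ w a < w y)

theorem St.use {w : Mk → ℝ} {T : Mk × Mk} (h : St w T) {x a c y b : Mk}
    (hT : MU T (nd x a, c)) (hc : InV c y b) : ¬ (w b < w x ∧ w a < w y) := by
  obtain ⟨L, hL⟩ := hc
  exact h x a y b L (hT.trans (MU.congr (MR.refl _) hL))

/-- leaves are lighter than the other branches -/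
def LN (w : Mk → ℝ) (n : ℕ) : Prop := ∀ t z, ¬ isLf z → z.mk ≤ n → w (lf t) < w z

theorem bal_side {w : Mk → ℝ} {T : Mk × Mk} {n : ℕ} (hSt : St w T) (hLN : LN w n)
    (hm : T.1.mk + T.2.mk ≤ n) {t : Bool} {x c : Mk} (hT : MU T (nd (lf t) x, c))
    (hx : ¬ x.isLf) : c.Bal := by
  have hmk := hT.mk
  simp only [Mk.mk] at hmk
  have hT' : MU T (nd x (lf t), c) := hT.trans (MU.congr (MR.swap _ _) (MR.refl _))
  refine bal_of fun y b hb => ⟨fun hy => ?_, fun hb' => ?_⟩
  · by_contra hbl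
    have hle := hb.mk_le
    cases y with
    | nd _ _ => exact hy
    | lf t' =>
      exact hSt.use hT' hb.swap ⟨hLN t' x hx (by omega), hLN t b hbl (by omega)⟩
  · by_contra hyl
    have hle := hb.mk_le
    cases b with
    | nd _ _ => exact hb'
    | lf t' =>
      exact hSt.use hT' hb ⟨hLN t' x hx (by omega), hLN t y hyl (by omega)⟩

/-- no unpaired leaf -/
def NUm (T : Mk × Mk) : Prop :=
  ∀ t X W, ¬ Mk.isLf X → ¬ Mk.isLf W → ¬ MU T (lf t, nd X W)

theorem NUm.of_mu {S T : Mk × Mk} (hS : NUm S) (h : MU S T) : NUm T :=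
  fun t X W hX hW hT => hS t X W hX hW (h.trans hT)

theorem NUm.bal {B : Mk} : ∀ {A : Mk}, ¬ A.isLf → NUm (A, B) → B.Bal := by
  induction B with
  | lf b => intro _ _ _; trivial
  | nd X Y hX hY =>
    intro A hA h
    have u1 : MU (A, nd X Y) (X, nd Y A) := (MU.swap _ _).trans (MU.move _ _ _)
    have u2 : MU (A, nd X Y) (Y, nd X A) :=
      (MU.congr (MR.refl A) (MR.swap X Y)).trans ((MU.swap _ _).trans (MU.move _ _ _))
    refine ⟨⟨fun hXl => ?_, fun hYl => ?_⟩, ?_, ?_⟩
    · by_contra hYl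
      cases X with
      | nd _ _ => exact hXl
      | lf t => exact h t Y A hYl hA u1
    · by_contra hXl
      cases Y with
      | nd _ _ => exact hYl
      | lf t => exact h t X A hXl hA u2
    · exact hX (A := nd Y A) (fun hh => hh) (h.of_mu (u1.trans (MU.swap _ _)))
    · exact hY (A := nd X A) (fun hh => hh) (h.of_mu (u2.trans (MU.swap _ _)))

theorem NUm.pair {T : Mk × Mk} (h : NUm T) (h4 : 4 ≤ T.1.sz + T.2.sz) :
    ∃ A B, MU T (A, B) ∧ ¬ A.isLf ∧ ¬ B.isLf := by
  have key : ∀ (t : Bool) (B : Mk), NUm (lf t, B) → 4 ≤ 1 + B.sz →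
      ∃ A' B', MU (lf t, B) (A', B') ∧ ¬ A'.isLf ∧ ¬ B'.isLf := by
    intro t B hB h4
    cases B with
    | lf b => simp only [Mk.sz] at h4; omega
    | nd X Y =>
      by_cases hX : X.isLf
      · cases X with
        | nd _ _ => exact absurd hX id
        | lf t' =>
          refine ⟨nd (lf t) (lf t'), Y, (MU.move _ _ _).symm, id, ?_⟩
          cases Y with
          | lf _ => simp only [Mk.sz] at h4; omega
          | nd _ _ => exact id
      · by_cases hY : Y.isLf
        · cases Y with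
          | nd _ _ => exact absurd hY id
          | lf t' =>
            exact ⟨nd (lf t) (lf t'), X,
              (MU.congr (MR.refl _) (MR.swap _ _)).trans (MU.move _ _ _).symm, id, hX⟩
        · exact absurd (MU.refl _) (hB t X Y hX hY)
  obtain ⟨A, B⟩ := T
  by_cases hA : A.isLf
  · cases A with
    | nd _ _ => exact absurd hA id
    | lf t => exact key t B h (by simpa [Mk.sz] using h4)
  · by_cases hB : B.isLf
    · cases B with
      | nd _ _ => exact absurd hB id
      | lf t =>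
        obtain ⟨A', B', h1, h2, h3⟩ := key t A (h.of_mu (MU.swap _ _))
          (by simp only [Mk.sz] at h4; omega)
        exact ⟨A', B', (MU.swap _ _).trans h1, h2, h3⟩
    · exact ⟨A, B, MU.refl _, hA, hB⟩

/-- the structure of a locally optimal tree -/
theorem St.struct {w : Mk → ℝ} {T : Mk × Mk} {n : ℕ} (hSt : St w T) (hLN : LN w n)
    (hm : T.1.mk + T.2.mk ≤ n) (h4 : 4 ≤ T.1.sz + T.2.sz) :
    (∃ A B, MU T (A, B) ∧ ¬ A.isLf ∧ ¬ B.isLf ∧ A.Bal ∧ B.Bal) ∨
      ∃ t x c, MU T (lf t, nd x c) ∧ ¬ x.isLf ∧ ¬ c.isLf ∧ x.Bal ∧ c.Bal := by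
  by_cases h : NUm T
  · left
    obtain ⟨A, B, h1, h2, h3⟩ := h.pair h4
    exact ⟨A, B, h1, h2, h3, (h.of_mu (h1.trans (MU.swap _ _))).bal h3, (h.of_mu h1).bal h2⟩
  · right
    unfold NUm at h
    push Not at h
    obtain ⟨t, x, c, hx, hc, hT⟩ := h
    have h1 : MU T (nd (lf t) x, c) := hT.trans (MU.move _ _ _).symm
    have h2 : MU T (nd (lf t) c, x) :=
      (hT.trans (MU.congr (MR.refl _) (MR.swap _ _))).trans (MU.move _ _ _).symm
    exact ⟨t, x, c, hT, hx, hc, bal_side hSt hLN hm h2 hc, bal_side hSt hLN hm h1 hx⟩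

end Pool.Agent.Helper877_Smith
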