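import Pool.Agent.Helper877_Smith.Dom
import Pool.Agent.Helper877_Smith.Primal

/-!
# Optimal trees with three full binary trees at one vertex (seat helper877, MP_ebc12b_co)
-/

set_option autoImplicit false

namespace Pool.Agent.Helper877_Smith

variable {d : ℕ}

theorem norm_comb_sq {u v w : Sp d} {α β γ : ℝ} (huu : inner ℝ u u = α) (hvv : inner ℝ v v = β)
    (hww : inner ℝ w w = γ) (huv : inner ℝ u v = (0 : ℝ)) (huw : inner ℝ u w = (0 : ℝ))
    (hvw : inner ℝ v w = (0 : ℝ)) (p q s : ℝ) :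
    ‖p • u + q • v + s • w‖ ^ 2 = p ^ 2 * α + q ^ 2 * β + s ^ 2 * γ := by
  have hvu : inner ℝ v u = (0 : ℝ) := by rw [real_inner_comm]; exact huv
  have hwu : inner ℝ w u = (0 : ℝ) := by rw [real_inner_comm]; exact huw
  have hwv : inner ℝ w v = (0 : ℝ) := by rw [real_inner_comm]; exact hvw
  rw [← real_inner_self_eq_norm_sq]
  simp only [inner_add_left, inner_add_right, real_inner_smul_left, real_inner_smul_right, huu,
    hvv, hww, huv, huw, hvw, hvu, hwu, hwv]
  ring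

/-- the distances from the Fermat point -/
theorem fermat (α β γ : ℝ) (hα : 0 < α) (hβ : 0 < β) (hγ : 0 < γ) :
    ∃ x y z : ℝ, 0 < x ∧ 0 < y ∧ 0 < z ∧
      α = x * (x + y + z) - (x * y + y * z + z * x) / 2 ∧
      β = y * (x + y + z) - (x * y + y * z + z * x) / 2 ∧
      γ = z * (x + y + z) - (x * y + y * z + z * x) / 2 ∧
      α / 3 < x ^ 2 ∧ β / 3 < y ^ 2 ∧ γ / 3 < z ^ 2 ∧
      x + y + z = Real.sqrt (α + β + γ + Real.sqrt (3 * (α * β + β * γ + γ * α))) := by
  obtain ⟨t, ht⟩ : ∃ t, t = Real.sqrt ((α * β + β * γ + γ * α) / 3) := ⟨_, rfl⟩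
  have hs : 0 < α * β + β * γ + γ * α := by positivity
  have htpos : 0 < t := ht ▸ Real.sqrt_pos.2 (by positivity)
  have ht2 : t ^ 2 = (α * β + β * γ + γ * α) / 3 := by rw [ht]; exact Real.sq_sqrt (by positivity)
  obtain ⟨D, hD⟩ : ∃ D, D = Real.sqrt (α + β + γ + 3 * t) := ⟨_, rfl⟩
  have hDpos : 0 < D := hD ▸ Real.sqrt_pos.2 (by positivity)
  have hD2 : D ^ 2 = α + β + γ + 3 * t := by rw [hD]; exact Real.sq_sqrt (by positivity)
  have hD0 : D ≠ 0 := hDpos.ne'
  have hsum : (α + t) / D + (β + t) / D + (γ + t) / D = D := by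
    rw [← add_div, ← add_div, div_eq_iff hD0, ← sq, hD2]
    ring
  have he2 : (α + t) / D * ((β + t) / D) + (β + t) / D * ((γ + t) / D) +
      (γ + t) / D * ((α + t) / D) = 2 * t := by
    have h1 : (α + t) / D * ((β + t) / D) + (β + t) / D * ((γ + t) / D) +
      (γ + t) / D * ((α + t) / D) =
      ((α + t) * (β + t) + (β + t) * (γ + t) + (γ + t) * (α + t)) / D ^ 2 := by
      field_simp
    rw [h1, div_eq_iff (by positivity), hD2]
    linear_combination (-3 : ℝ) * ht2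
  have hx3 : ∀ a b c : ℝ, 0 < a → 0 < b → 0 < c → a + b + c = α + β + γ →
      a * b + b * c + c * a = α * β + β * γ + γ * α → a / 3 < ((a + t) / D) ^ 2 := by
    intro a b c ha hb hc h1 h2
    rw [div_pow, div_lt_div_iff₀ (by norm_num) (by positivity), hD2, ← h1]
    have h3 : 0 < a * a := mul_pos ha ha
    have h4 : 0 < b * c := mul_pos hb hc
    have h5 : 0 < a * t := mul_pos ha htpos
    rw [← h2] at ht2
    nlinarith
  refine ⟨(α + t) / D, (β + t) / D, (γ + t) / D, by positivity, by positivity, by positivity,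
    ?_, ?_, ?_, hx3 α β γ hα hβ hγ rfl rfl, hx3 β γ α hβ hγ hα (by ring) (by ring),
    hx3 γ α β hγ hα hβ (by ring) (by ring), ?_⟩
  · rw [he2, hsum]
    field_simp
    ring
  · rw [he2, hsum]
    field_simp
    ring
  · rw [he2, hsum]
    field_simp
    ring
  · rw [hsum, hD]
    congr 2
    symm
    rw [Real.sqrt_eq_iff_mul_self_eq (by positivity) (by positivity)]
    nlinarith

theorem dl_lt_fermat {a : ℕ} {x : ℝ} (hx : 0 < x) (h : (1 / 2 ^ a : ℝ) / 3 < x ^ 2) :
    dl a < x := by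
  cases a with
  | zero => exact hx
  | succ a =>
    refine lt_of_pow_lt_pow_left₀ 2 hx.le ?_
    rw [dl_sq]
    refine lt_of_eq_of_lt ?_ h
    rw [pow_succ]
    field_simp
    norm_num

/-- three disjoint sets with given sizes -/
theorem split_three {a b c : ℕ} (hd : d = a + b + c) :
    ∃ S₁ S₂ S₃ : Finset (Fin d), S₁.card = a ∧ S₂.card = b ∧ S₃.card = c ∧
      Disjoint S₁ S₂ ∧ Disjoint S₁ S₃ ∧ Disjoint S₂ S₃ ∧
      S₁.val + S₂.val + S₃.val = Finset.univ.val := by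
  obtain ⟨S₁, h1, h2⟩ := Finset.exists_subset_card_eq
    (show a ≤ (Finset.univ : Finset (Fin d)).card by
      rw [Finset.card_univ, Fintype.card_fin]; omega)
  have hd1 : Disjoint S₁ (Finset.univ \ S₁) := Finset.disjoint_sdiff
  have hc1 : (Finset.univ \ S₁).card = b + c := by
    rw [Finset.card_sdiff_of_subset h1, h2, Finset.card_univ, Fintype.card_fin]
    omega
  obtain ⟨S₂, h3, h4⟩ := Finset.exists_subset_card_eq
    (show b ≤ (Finset.univ \ S₁).card by rw [hc1]; omega)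
  have hd2 : Disjoint S₂ ((Finset.univ \ S₁) \ S₂) := Finset.disjoint_sdiff
  refine ⟨S₁, S₂, (Finset.univ \ S₁) \ S₂, h2, h4, ?_, ?_, ?_, hd2, ?_⟩
  · rw [Finset.card_sdiff_of_subset h3, hc1, h4]
    omega
  · exact hd1.mono_right h3
  · exact hd1.mono_right Finset.sdiff_subset
  · have e1 : S₂.disjUnion ((Finset.univ \ S₁) \ S₂) hd2 = Finset.univ \ S₁ := by
      rw [Finset.disjUnion_eq_union, Finset.union_sdiff_of_subset h3]
    have e2 : S₁.disjUnion (Finset.univ \ S₁) hd1 = Finset.univ := by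
      rw [Finset.disjUnion_eq_union, Finset.union_sdiff_of_subset h1]
    rw [add_assoc]
    conv_rhs => rw [← e2]
    show _ = S₁.val + (Finset.univ \ S₁).val
    conv_rhs => rw [← e1]
    rfl

theorem inner_cen_self {S : Finset (Fin d)} {h : ℕ} (hS : S.card = 2 ^ h) :
    inner ℝ (cen S) (cen S) = 1 / (2 : ℝ) ^ h :=
  inner_cen (by rw [hS]; positivity) _ _ fun i hi => by
    rw [cen_apply, if_pos hi, hS]; push_cast; rfl

theorem inner_cen_disj {S T : Finset (Fin d)} {h : ℕ} (hS : S.card = 2 ^ h)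
    (hd : Disjoint S T) : inner ℝ (cen S) (cen T) = (0 : ℝ) :=
  inner_cen (by rw [hS]; positivity) _ _ fun i hi => by
    rw [cen_apply, if_neg (Finset.disjoint_left.1 hd hi)]

/-- The tree with three full binary trees at one vertex, with the length of the lower bound. -/
theorem exists_star (a b c : ℕ) (hd : d = 2 ^ a + 2 ^ b + 2 ^ c) :
    ∃ T : FST d, T.top = (Sh.node (Sh.full a) (Sh.full b), Sh.full c) ∧
    T.length = Real.sqrt (1 / 2 ^ a + 1 / 2 ^ b + 1 / 2 ^ c +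
        Real.sqrt (3 * (1 / 2 ^ a * (1 / 2 ^ b) + 1 / 2 ^ b * (1 / 2 ^ c) +
          1 / 2 ^ c * (1 / 2 ^ a)))) + (sv a).sum + (sv b).sum + (sv c).sum ∧ T.ndg := by
  obtain ⟨S₁, S₂, S₃, h1, h2, h3, h12, h13, h23, hval⟩ := split_three hd
  obtain ⟨α, hα⟩ : ∃ α : ℝ, α = 1 / 2 ^ a := ⟨_, rfl⟩
  obtain ⟨β, hβ⟩ : ∃ β : ℝ, β = 1 / 2 ^ b := ⟨_, rfl⟩
  obtain ⟨γ, hγ⟩ : ∃ γ : ℝ, γ = 1 / 2 ^ c := ⟨_, rfl⟩
  obtain ⟨x, y, z, hx, hy, hz, e1, e2, e3, f1, f2, f3, hsum⟩ := fermat α β γ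
    (hα ▸ by positivity) (hβ ▸ by positivity) (hγ ▸ by positivity)
  rw [← hα, ← hβ, ← hγ, ← hsum]
  obtain ⟨E, hE⟩ : ∃ E, E = x * y + y * z + z * x := ⟨_, rfl⟩
  have hEpos : 0 < E := by rw [hE]; positivity
  have hE0 : E ≠ 0 := hEpos.ne'
  obtain ⟨F, hF⟩ : ∃ F : Sp d, F = (y * z / E) • cen S₁ + (x * z / E) • cen S₂ +
      (x * y / E) • cen S₃ := ⟨_, rfl⟩
  have n11 : inner ℝ (cen S₁) (cen S₁) = α := by rw [hα]; exact inner_cen_self h1
  have n22 : inner ℝ (cen S₂) (cen S₂) = β := by rw [hβ]; exact inner_cen_self h2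
  have n33 : inner ℝ (cen S₃) (cen S₃) = γ := by rw [hγ]; exact inner_cen_self h3
  have hnorm := norm_comb_sq n11 n22 n33 (inner_cen_disj h1 h12) (inner_cen_disj h1 h13)
    (inner_cen_disj h2 h23)
  have hd1 : dist F (cen S₁) = x := by
    have e : F - cen S₁ = (y * z / E - 1) • cen S₁ + (x * z / E) • cen S₂ +
        (x * y / E) • cen S₃ := by
      rw [hF]
      module
    have hsq : ‖F - cen S₁‖ ^ 2 = x ^ 2 := by
      rw [e, hnorm, e1, e2, e3, ← hE]
      field_simp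
      rw [hE]
      ring
    rw [dist_eq_norm]
    exact (sq_eq_sq₀ (norm_nonneg _) hx.le).1 hsq
  have hd2 : dist F (cen S₂) = y := by
    have e : F - cen S₂ = (y * z / E) • cen S₁ + (x * z / E - 1) • cen S₂ +
        (x * y / E) • cen S₃ := by
      rw [hF]
      module
    have hsq : ‖F - cen S₂‖ ^ 2 = y ^ 2 := by
      rw [e, hnorm, e1, e2, e3, ← hE]
      field_simp
      rw [hE]
      ring
    rw [dist_eq_norm]
    exact (sq_eq_sq₀ (norm_nonneg _) hy.le).1 hsq
  have hd3 : dist F (cen S₃) = z := by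
    have e : F - cen S₃ = (y * z / E) • cen S₁ + (x * z / E) • cen S₂ +
        (x * y / E - 1) • cen S₃ := by
      rw [hF]
      module
    have hsq : ‖F - cen S₃‖ ^ 2 = z ^ 2 := by
      rw [e, hnorm, e1, e2, e3, ← hE]
      field_simp
      rw [hE]
      ring
    rw [dist_eq_norm]
    exact (sq_eq_sq₀ (norm_nonneg _) hz.le).1 hsq
  have hFi : ∀ i, F i = y * z / E * cen S₁ i + x * z / E * cen S₂ i + x * y / E * cen S₃ i := by
    intro i
    rw [hF]
    rfl
  obtain ⟨b₁, a1, a2, a3, -, a5, a6⟩ := exists_branch a S₁ F h1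
    (fun i hi j hj => by
      rw [hFi, hFi, cen_apply, cen_apply, cen_apply, cen_apply, cen_apply, cen_apply, if_pos hi,
        if_pos hj, if_neg (Finset.disjoint_left.1 h12 hi), if_neg (Finset.disjoint_left.1 h12 hj),
        if_neg (Finset.disjoint_left.1 h13 hi), if_neg (Finset.disjoint_left.1 h13 hj)])
    (by rw [hd1]; exact dl_lt_fermat hx (hα ▸ f1))
  obtain ⟨b₂, c1, c2, c3, -, c5, c6⟩ := exists_branch b S₂ F h2
    (fun i hi j hj => by
      rw [hFi, hFi, cen_apply, cen_apply, cen_apply, cen_apply, cen_apply, cen_apply, if_pos hi,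
        if_pos hj, if_neg (Finset.disjoint_right.1 h12 hi),
        if_neg (Finset.disjoint_right.1 h12 hj),
        if_neg (Finset.disjoint_left.1 h23 hi), if_neg (Finset.disjoint_left.1 h23 hj)])
    (by rw [hd2]; exact dl_lt_fermat hy (hβ ▸ f2))
  obtain ⟨b₃, g1, g2, g3, -, g5, g6⟩ := exists_branch c S₃ F h3
    (fun i hi j hj => by
      rw [hFi, hFi, cen_apply, cen_apply, cen_apply, cen_apply, cen_apply, cen_apply, if_pos hi,
        if_pos hj, if_neg (Finset.disjoint_right.1 h13 hi),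
        if_neg (Finset.disjoint_right.1 h13 hj),
        if_neg (Finset.disjoint_right.1 h23 hi), if_neg (Finset.disjoint_right.1 h23 hj)])
    (by rw [hd3]; exact dl_lt_fermat hz (hγ ▸ f3))
  have k1 := dl_lt_fermat hx (hα ▸ f1)
  have k2 := dl_lt_fermat hy (hβ ▸ f2)
  have k3 := dl_lt_fermat hz (hγ ▸ f3)
  refine ⟨⟨Br.pt F b₁ b₂, b₃, ?_⟩, ?_, ?_, ?_⟩
  · show b₁.terms + b₂.terms + b₃.terms = _
    rw [a2, c2, g2, hval]
  · show (Sh.node b₁.shape b₂.shape, b₃.shape) = _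
    rw [a1, c1, g1]
  · show dist F b₃.pos + (dist F b₁.pos + dist F b₂.pos + b₁.len + b₂.len) + b₃.len = _
    rw [hd1] at a3
    rw [hd2] at c3
    rw [hd3] at g3
    linarith
  · refine ⟨dist_pos.1 ?_, ⟨dist_pos.1 ?_, dist_pos.1 ?_, a6, c6⟩, g6⟩
    · show 0 < dist F b₃.pos
      rw [g5, hd3]
      linarith
    · rw [a5, hd1]
      linarith
    · rw [c5, hd2]
      linarith

end Pool.Agent.Helper877_Smith
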